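import Pool.Agent.MP_ecfd11_lc.H3U.SMain
import Pool.Agent.MP_ecfd11_lc.H13X.Conv

/-!
An embedding between levels of HOD with a critical point of small cofinality makes large
regular cardinals strongly measurable in HOD.
-/

set_option synthInstance.maxSize 4000

namespace Pool.Agent.MP_ecfd11_lc.H3U

open Pool.Agent.MP_ecfd11_lc.H20 Pool.Agent.MP_ecfd11_lc.H13X

universe u

open ZFSet Cardinal Function

theorem bdd_abs {M N : ZFSet.{u}} (hM : M.IsTransitive) (h : M ⊆ N) {φ : Fml} (b : Bdd φ) :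
    ∀ v : ℕ → ZFSet.{u}, (∀ n, v n ∈ M) → (Sat M φ v ↔ Sat N φ v) := by
  induction b with
  | mem i j => exact fun _ _ => Iff.rfl
  | eq i j => exact fun _ _ => Iff.rfl
  | neg _ ih => exact fun v hv => not_congr (ih v hv)
  | and _ _ ih1 ih2 => exact fun v hv => and_congr (ih1 v hv) (ih2 v hv)
  | ball i _ ih =>
    intro v hv
    simp only [Sat, cons_zero, cons_succ, not_and, not_not]
    exact ⟨fun h1 x _ hx => (ih _ (cons_in (hM.mem_trans hx (hv i)) hv)).1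
      (h1 x (hM.mem_trans hx (hv i)) hx),
      fun h1 x h2 hx => (ih _ (cons_in h2 hv)).2 (h1 x (h h2) hx)⟩

theorem lev_tr (a : ZFSet.{u}) : (Lev a).IsTransitive := fun _ hx _ hy =>
  mem_sep.2 ⟨(isTransitive_vonNeumann _).mem_trans hy (mem_sep.1 hx).1, (mem_sep.1 hx).2.mem hy⟩

instance (a : ZFSet.{u}) : Fact (Lev a).IsTransitive := ⟨lev_tr a⟩

variable {a t : ZFSet.{u}} {s : ZFSet.{u} → ZFSet.{u}}

theorem Ext.tf3 (he : Ext a t s) (hat : a ∈ t) (P : ZFSet.{u} → ZFSet.{u} → ZFSet.{u} → Prop)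
    [hP : E (Lev t) fun v => P (v 0) (v 1) (v 2)] {x y z : ZFSet.{u}} (hx : x ∈ Lev a)
    (hy : y ∈ Lev a) (hz : z ∈ Lev a) (h : P x y z) : P (s x) (s y) (s z) := by
  obtain ⟨φ, b, hP⟩ := hP.ex
  have h1 : Lev a ⊆ Lev t := fun w hw => mem_sep.2 ⟨vonNeumann_subset_of_le
    (add_le_add_left (rank_lt_of_mem hat).le 1) (mem_sep.1 hw).1, (mem_sep.1 hw).2⟩
  have hv := cons_in hx (cons_in hy fun _ => hz)
  exact (hP _ fun n => he.1 _ (hv n)).2 ((he.2.1 φ _ hv).1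
    ((bdd_abs (lev_tr a) h1 b _ hv).2 ((hP _ fun n => h1 (hv n)).1 h)))

theorem Ext.no_cof (he : Ext a t s) (ht : t.IsOrdinal) (hat : a ∈ t) {X : ZFSet.{u}}
    (x0 : OD Set.univ X) (x1 : X ⊆ a) (x2 : ∀ b ∈ a, ∃ x ∈ X, b ∈ x)
    (x3 : img (colIn X) X ∈ a) : False := by
  have ha := ht.mem hat
  have hXo : ∀ x ∈ X, x.IsOrdinal := fun x hx => ha.mem (x1 hx)
  have hr : ∀ x ∈ X, colIn X x ∈ a := fun x hx => ha.mem_trans (mem_img.2 ⟨x, hx, rfl⟩) x3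
  have : Tm Set.univ On (fun _ => X) := od_iff.1 x0
  have h0 : a ∈ Lev a := (mem_Lev ha).2 ⟨fun x hx => (mem_vC_ord ha).2 (rank_lt_of_mem hx),
    hod_ord ha⟩
  have h1 : ∀ x ∈ a, x ∈ Lev a := fun x hx => (lev_tr a).mem_trans hx h0
  have h2 : gr (fun x => colIn X x) X ∈ Lev a := (mem_Lev ha).2 ⟨fun z hz => by
    obtain ⟨x, hx, rfl⟩ := mem_img.1 hz
    rw [vC_ord ha]
    exact pair_mem_V_of_mem ha (fun b hb => (x2 b hb).imp fun x h => ⟨x1 h.1, h.2⟩) (x1 hx)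
      (hr x hx), hereditarily_iff.2 ⟨od_iff.2 inferInstance, fun z hz => by
      obtain ⟨x, hx, rfl⟩ := mem_img.1 hz
      have h2 : HOD Set.univ x := hod_ord (hXo x hx)
      have h3 := hod_upair h2 h2
      rw [pair_eq_singleton] at h3
      exact hod_upair h3 (hod_upair h2 (hod_ord (colIn_ord X x)))⟩⟩
  have h3 := he.tf3 hat (fun G a r => ∀ b, b ∈ a → ∃ x, x ∈ a ∧ b ∈ x ∧ ∃ y, y ∈ r ∧ pair x y ∈ G)
    h2 h0 (h1 _ x3) fun b hb => by
      obtain ⟨x, hx, h3⟩ := x2 b hb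
      exact ⟨x, x1 hx, h3, _, mem_img.2 ⟨x, hx, rfl⟩, pair_mem_gr.2 ⟨hx, rfl⟩⟩
  have h4 := he.tf3 hat
    (fun G a _ => ∀ x y, pair x y ∈ G → ∀ x', x' ∈ a → pair x' y ∈ G → x = x') h2 h0 h0
    fun x y h4 x' _ h5 => colIn_inj hXo (pair_mem_gr.1 h4).1 (pair_mem_gr.1 h5).1
      ((pair_mem_gr.1 h4).2.trans (pair_mem_gr.1 h5).2.symm)
  rw [he.2.2.2] at h3 h4
  rw [he.2.2.1 _ x3] at h3
  obtain ⟨x, hx, h5, _, hz, h6⟩ := h3 a hat
  obtain ⟨y, hy, rfl⟩ := mem_img.1 hz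
  have h7 := he.tf3 hat (fun G x y => pair x y ∈ G) h2 (h1 _ (x1 hy)) (h1 _ (hr y hy))
    (pair_mem_gr.2 ⟨hy, rfl⟩)
  rw [he.2.2.1 _ (x1 hy), he.2.2.1 _ (hr y hy)] at h7
  exact mem_asymm (x1 hy) (h4 y _ h7 x hx h6 ▸ h5)

theorem conv' {d l L : ZFSet.{u}} (hd : StronglyCompact d l) (hdL : d ∈ L) (hL : L.IsOrdinal)
    (hS : Sm d L) (hn : ∀ X, OD Set.univ X → X ⊆ L → (∀ b ∈ L, ∃ x ∈ X, b ∈ x) →
      img (colIn X) X ∉ L) (hl : Regular Set.univ l) (hc : 2 ^ card L < card l) :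
    StronglyMeasurable Set.univ l := by
  have hLl : L ∈ l := hl.mem_of_card_lt hL ((cantor _).trans hc)
  refine ⟨hl, L, hLl, fun e => notMem_empty d (e ▸ hdL), ?_, ?_⟩
  · rintro ⟨f, -, f1, f2⟩
    refine hc.not_ge ?_
    rw [← card_powerset]
    exact card_le_of_inj (app f) (fun x hx => f1.app_mem' hx) fun x hx y hy e =>
      f2 x y _ (f1.app_mem hx) (e ▸ f1.app_mem hy)
  rintro ⟨s, s0, s1, s2, s3, -⟩
  have : Tm Set.univ On (fun _ => s) := od_iff.1 s0.self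
  have : Tm Set.univ On (fun _ => L) := Tm.ofOrd hL
  obtain ⟨Z, a0, a1, a2⟩ := hS
  obtain ⟨b, hb, -⟩ := exists_not_null (hd.refl (hl.1.mem_trans hdL hLl) hl Z (app s)
    (not_le.1 a1) fun i hi => ⟨fun y hy => sm_of_cof hd.1 ((s2 _ _ (s1.app_mem (a0 hi))).2 y hy),
      (stat_iff.1 (s2 _ _ (s1.app_mem (a0 hi))).1).2⟩) (unc_of_regular hl).null_empty
  obtain ⟨-, b1, b2, b3⟩ := mem_sep.1 hb
  obtain ⟨c, c1, c2⟩ := b1.exists_club hd.1 b2.1
  have : Tm Set.univ On (fun _ => b) := Tm.ofOrd b2.1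
  have ho := img_colIn_ord (b := L.sep fun i => ¬ Null b (app s i))
    fun x hx => hL.mem (mem_sep.1 hx).1
  refine hn (L.sep fun i => ¬ Null b (app s i)) (od_iff.2 inferInstance)
    sep_subset (fun x hx => ?_) (by_contra fun h3 => ?_)
  · obtain ⟨n, hn, h3⟩ := a2 x hx
    exact ⟨n, mem_sep.2 ⟨a0 hn, b3 n hn⟩, h3⟩
  · have h4 : ∀ i ∈ L.sep fun i => ¬ Null b (app s i), ∃ z ∈ app s i, z ∈ c :=
      fun i hi => by_contra fun h4 => (mem_sep.1 hi).2 ⟨c, c1, fun z h5 h6 => h4 ⟨z, h5, h6⟩⟩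
    choose! Y y1 y2 using h4
    refine c2.not_ge ((card_mono (hL.subset_of_mem hdL)).trans ((card_mono
      ((ho.notMem_iff_subset hL).1 h3)).trans ((card_img_le _ _).trans
      (card_le_of_inj Y y2 fun i hi j hj e => ?_))))
    by_contra h5
    exact s3 i _ j _ (s1.app_mem (mem_sep.1 hi).1) (s1.app_mem (mem_sep.1 hj).1) h5 _ (y1 i hi)
      (e ▸ y1 j hj)

theorem Ext.sm' {d a t l : ZFSet.{u}} {s : ZFSet.{u} → ZFSet.{u}} (he : Ext a t s)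
    (ht : t.IsOrdinal) (hat : a ∈ t) (ha : Sm d a) (hda : d ∈ a)
    (hl : Regular Set.univ l) (hd : StronglyCompact d l) (hc : 2 ^ card a < card l) :
    StronglyMeasurable Set.univ l :=
  conv' hd hda (ht.mem hat) ha (fun _ x0 x1 x2 => he.no_cof ht hat x0 x1 x2) hl hc

theorem Ext.sm {d a t l : ZFSet.{u}} {s : ZFSet.{u} → ZFSet.{u}} (he : Ext a t s)
    (ht : Regular Set.univ t) (hat : a ∈ t) (ha : CofOmega Set.univ a) (hda : d ∈ a)
    (hl : Regular Set.univ l) (hd : StronglyCompact d l) (hc : 2 ^ card a < card l) :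
    StronglyMeasurable Set.univ l :=
  he.sm' ht.1 hat (sm_of_cof hd.1 ha) hda hl hd hc

end Pool.Agent.MP_ecfd11_lc.H3U
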