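import Pool.Agent.MP_ecfd11_lc.H13X.Tree

/-!
Below the critical point `t` of a rank-into-rank embedding there is a `t`-strongly compact
cardinal.
-/

set_option synthInstance.maxSize 4000

namespace Pool.Agent.MP_ecfd11_lc.H13X

universe u

open ZFSet Cardinal Order Function

/-- `f` is single valued. -/
def Sv (f : ZFSet.{u}) : Prop := ∀ a y, pair a y ∈ f → ∀ z, pair a z ∈ f → z = y

/-- `s` is covered by a function in `N` from an element of `d`. -/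
def Sml (N d s : ZFSet.{u}) : Prop :=
  ∃ x, x ∈ d ∧ ∃ g, g ∈ N ∧ Sv g ∧ ∀ b, b ∈ s → ∃ a, a ∈ x ∧ pair a b ∈ g

/-- `d` is regular for functions in `N`. -/
def RegI (N d : ZFSet.{u}) : Prop :=
  d.IsOrdinal ∧ ∀ x, x ∈ d → ∀ f, f ∈ N → Sv f → (∀ a y, pair a y ∈ f → a ∈ x ∧ y ∈ d) →
    ∃ b, b ∈ d ∧ ∀ a y, pair a y ∈ f → y ∈ b

/-- `U` is `d`-complete for sequences in `N`. -/
def CplI (N d U : ZFSet.{u}) : Prop :=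
  ∀ x, x ∈ d → ∀ f, f ∈ N → Sv f → (∀ a, a ∈ x → ∃ y, pair a y ∈ f) →
    (∀ a y, pair a y ∈ f → a ∈ x ∧ y ∈ U) →
    ∃ Y, Y ∈ U ∧ ∀ a y, pair a y ∈ f → Y ⊆ y

/-- `U` generates a fine ultrafilter on the small subsets of `l`. -/
def UltI (N d l U : ZFSet.{u}) : Prop :=
  (∀ Y, Y ∈ U → ∃ s, s ∈ Y) ∧
    (∀ X, X ∈ N → ∃ Y, Y ∈ U ∧ (Y ⊆ X ∨ ∀ s, s ∈ Y → s ∉ X)) ∧
    (∃ Y, Y ∈ U ∧ ∀ s, s ∈ Y → s ⊆ l ∧ Sml N d s) ∧
    ∀ a, a ∈ l → ∃ Y, Y ∈ U ∧ ∀ s, s ∈ Y → a ∈ s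

/-- `d` is `l`-strongly compact, as seen in `N`. -/
def ScI (N d l : ZFSet.{u}) : Prop :=
  RegI N d ∧ ∃ U, U ∈ N ∧ CplI N d U ∧ UltI N d l U

section

variable {M : ZFSet.{u}} [Fact M.IsTransitive]

instance E.sv (i : ℕ) : E M fun v => Sv (v i) := by unfold Sv; infer_instance

instance E.sml (i k l : ℕ) : E M fun v => Sml (v i) (v k) (v l) := by
  unfold Sml; infer_instance

instance E.regI (i k : ℕ) : E M fun v => RegI (v i) (v k) := by unfold RegI; infer_instance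

instance E.cplI (i k l : ℕ) : E M fun v => CplI (v i) (v k) (v l) := by
  unfold CplI; infer_instance

instance E.ultI (i k l n : ℕ) : E M fun v => UltI (v i) (v k) (v l) (v n) := by
  unfold UltI; infer_instance

instance E.scI (i k l : ℕ) : E M fun v => ScI (v i) (v k) (v l) := by
  unfold ScI; infer_instance

end

theorem sv_gr (F : ZFSet.{u} → ZFSet.{u}) (x : ZFSet.{u}) : Sv (gr F x) :=
  fun _ _ h1 _ h2 => (pair_mem_gr.1 h2).2.symm.trans (pair_mem_gr.1 h1).2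

theorem ScI.sc {N d l : ZFSet.{u}} (h : ScI N d l) (h0 : om ∈ d) (hd : d ∈ N) (hl : l ∈ N)
    (n1 : N.IsTransitive) (n2 : ∀ x ∈ N, ∀ y, y ⊆ x → y ∈ N)
    (n3 : ∀ x ∈ N, powerset x ∈ N) (n4 : ∀ x ∈ N, ∀ y ∈ N, prod x y ∈ N) :
    H20.StronglyCompact d l := by
  obtain ⟨⟨r0, r1⟩, U, hU, u1, u2, u3, ⟨Y0, y1, y2⟩, u4⟩ := h
  have hr : Regular Set.univ d := ⟨r0, h0, fun a ha f _ hf =>
    r1 a ha f (n2 _ (n4 _ (n1.mem_trans ha hd) _ hd) _ hf.1)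
      (fun x y h1 z h2 => (hf.2 x (pair_mem_prod.1 (hf.1 h1)).1).unique h2 h1)
      fun x y h1 => pair_mem_prod.1 (hf.1 h1)⟩
  have c2 : (2 : Cardinal.{u + 1}) < lift.{u + 1} (card d) := by
    have : lift.{u + 1} (ℵ₀ : Cardinal.{u}) < lift.{u + 1} (card d) := lift_lt.2 hr.aleph0_lt
    rw [lift_aleph0] at this
    exact (natCast_lt_aleph0 (n := 2)).trans this
  have c3 : ∀ S : Set (Set ZFSet.{u}), #S < lift.{u + 1} (card d) →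
      S ⊆ {A | ∃ Y ∈ U, ∀ s ∈ Y, s ∈ A} → ⋂₀ S ∈ {A : Set ZFSet.{u} | ∃ Y ∈ U, ∀ s ∈ Y, s ∈ A} := by
    intro S hS h1
    obtain ⟨c, c0, c1⟩ := lt_lift_iff.1 hS
    have hx : c.ord.toZFSet ∈ d := hr.mem_of_card_lt (isOrdinal_toZFSet _) (by rwa [card_ord'])
    have e : #(c.ord.toZFSet) = #S := by rw [cardinalMk_coe_sort, card_ord', c1]
    obtain ⟨e⟩ := Cardinal.eq.1 e
    have h2 : ∀ i, ∃ Y ∈ U, ∀ hi : i ∈ c.ord.toZFSet, ∀ s ∈ Y, s ∈ (e ⟨i, hi⟩).1 := fun i => by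
      by_cases hi : i ∈ c.ord.toZFSet
      · obtain ⟨Y, h3, h4⟩ := h1 (e ⟨i, hi⟩).2
        exact ⟨Y, h3, fun _ => h4⟩
      · exact ⟨Y0, y1, fun h => absurd h hi⟩
    choose G g1 g2 using h2
    obtain ⟨Y, h3, h4⟩ := u1 _ hx (gr G c.ord.toZFSet)
      (n2 _ (n4 _ (n1.mem_trans hx hd) _ hU) _ fun z hz => by
        obtain ⟨a, ha, rfl⟩ := mem_img.1 hz
        exact pair_mem_prod.2 ⟨ha, g1 a⟩) (sv_gr _ _)
      (fun a ha => ⟨_, pair_mem_gr.2 ⟨ha, rfl⟩⟩)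
      fun a y h5 => ⟨(pair_mem_gr.1 h5).1, (pair_mem_gr.1 h5).2 ▸ g1 a⟩
    refine ⟨Y, h3, fun s hs A hA => ?_⟩
    have := g2 _ (e.symm ⟨A, hA⟩).2 s (h4 _ _ (pair_mem_gr.2 ⟨(e.symm ⟨A, hA⟩).2, rfl⟩) hs)
    simpa using this
  have c4 : ∀ A B : Set ZFSet.{u}, A ∈ {A : Set ZFSet.{u} | ∃ Y ∈ U, ∀ s ∈ Y, s ∈ A} → A ⊆ B →
      B ∈ {A : Set ZFSet.{u} | ∃ Y ∈ U, ∀ s ∈ Y, s ∈ A} :=
    fun A B ⟨Y, h1, h2⟩ h3 => ⟨Y, h1, fun s hs => h3 (h2 s hs)⟩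
  have c5 : {s | s ⊆ l ∧ card s < card d} ∈ Filter.ofCardinalInter _ c2 c3 c4 :=
    ⟨Y0, y1, fun s hs => by
      obtain ⟨h1, x, hx, g, -, g1, g2⟩ := y2 s hs
      refine ⟨h1, (card_le_of_surj (app g) fun b hb => ?_).trans_lt (hr.card_lt hx)⟩
      obtain ⟨a, ha, h2⟩ := g2 b hb
      exact ⟨a, ha, app_eq h2 (g1 a b h2)⟩⟩
  refine ⟨hr, Ultrafilter.ofComplNotMemIff (Filter.ofCardinalInter _ c2 c3 c4) fun A =>
    ⟨fun h1 => ?_, fun h1 h2 => ?_⟩, Filter.cardinalInter_ofCardinalInter _ c2 c3 c4, c5,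
    fun a ha => u4 a ha⟩
  · obtain ⟨Y, h2, h3 | h3⟩ := u3 ((powerset l).sep fun s => s ∈ A)
      (n2 _ (n3 l hl) _ sep_subset)
    · exact ⟨Y, h2, fun s hs => (mem_sep.1 (h3 hs)).2⟩
    · refine (h1 (Filter.mem_of_superset (Filter.inter_mem c5
        (show (Y : Set ZFSet.{u}) ∈ Filter.ofCardinalInter _ c2 c3 c4 from
          ⟨Y, h2, fun _ hs => hs⟩)) fun s hs (h4 : s ∈ A) => ?_)).elim
      exact h3 s hs.2 (mem_sep.2 ⟨mem_powerset.2 hs.1.1, h4⟩)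
  · obtain ⟨Y, h3, h4⟩ := Filter.inter_mem h1 h2
    obtain ⟨s, hs⟩ := u2 Y h3
    exact (h4 s hs).2 (h4 s hs).1

namespace CE

variable {m : Ordinal.{u}} {j : ZFSet.{u} → ZFSet.{u}} {t : ZFSet.{u}} (h : CE m j t)
include h

theorem Nn_pow (n : ℕ) {x : ZFSet.{u}} (hx : x ∈ j^[n] (V_ t.rank)) :
    powerset x ∈ j^[n] (V_ t.rank) := by
  obtain ⟨y, hy, h1⟩ := ((h.el.iter n).tf1
    (fun N => ∀ x, x ∈ N → ∃ y, y ∈ N ∧ ∀ z, z ∈ N → z ⊆ x → z ∈ y) h.N_mem).1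
    (fun x hx => ⟨powerset x, mem_vonNeumann.2 (by
      rw [rank_powerset]; exact h.lim _ (mem_vonNeumann.1 hx)),
      fun _ _ hz => mem_powerset.2 hz⟩) x hx
  exact h.Nn_sub n hy fun z hz => h1 z (h.Nn_sub n hx (mem_powerset.1 hz)) (mem_powerset.1 hz)

theorem Nn_prod (n : ℕ) {x y : ZFSet.{u}} (hx : x ∈ j^[n] (V_ t.rank))
    (hy : y ∈ j^[n] (V_ t.rank)) : prod x y ∈ j^[n] (V_ t.rank) := by
  obtain ⟨z, hz, h1⟩ := ((h.el.iter n).tf1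
    (fun N => ∀ x, x ∈ N → ∀ y, y ∈ N → ∃ z, z ∈ N ∧ x ⊆ z ∧ y ⊆ z) h.N_mem).1
    (fun x hx y hy => ⟨x ∪ y, mem_vonNeumann.2 (by
      rw [rank_union]; exact max_lt (mem_vonNeumann.1 hx) (mem_vonNeumann.1 hy)),
      fun _ hz => mem_union.2 (Or.inl hz), fun _ hz => mem_union.2 (Or.inr hz)⟩) x hx y hy
  refine h.Nn_sub n (h.Nn_pow n (h.Nn_pow n hz)) fun w hw => ?_
  obtain ⟨a, ha, b, hb, rfl⟩ := mem_prod.1 hw
  refine mem_powerset.2 fun p hp => mem_powerset.2 fun q hq => ?_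
  rcases mem_pair.1 hp with rfl | rfl
  · exact mem_singleton.1 hq ▸ h1.1 ha
  · rcases mem_pair.1 hq with rfl | rfl
    exacts [h1.1 ha, h1.2 hb]

theorem scI_top (h0 : om ∈ t) {l : ZFSet.{u}} (hl : l ∈ j t) : ScI (j (V_ t.rank)) t l := by
  have hr := h.regular h0
  have l1 : l ∈ j^[1] (V_ t.rank) := h.jt_sub hl
  have M1 : ∀ {x}, x ∈ j^[1] (V_ t.rank) → x ∈ V_ m := fun hx =>
    h.el.tr.mem_trans hx (h.Nn_mem 1)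
  have up : ∀ {x}, x ∈ j^[1] (V_ t.rank) → j x ∈ j^[2] (V_ t.rank) := fun hx => by
    rw [iterate_succ_apply']
    exact h.el.mem hx (h.Nn_mem 1)
  have e2 : j^[2] (V_ t.rank) = j (j^[1] (V_ t.rank)) := iterate_succ_apply' _ _ _
  have s1 : img j l ⊆ j l := fun z hz => by
    obtain ⟨a, ha, rfl⟩ := mem_img.1 hz
    exact h.el.mem ha (M1 l1)
  have s2 : img j l ∈ j (j^[1] (V_ t.rank)) := e2 ▸ h.Nn_sub 2 (up l1) s1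
  have p1 : ∀ p : ZFSet.{u} → Prop, (powerset l).sep p ∈ j^[1] (V_ t.rank) := fun p =>
    h.Nn_sub 1 (h.Nn_pow 1 l1) sep_subset
  have p2 : ∀ p : ZFSet.{u} → Prop, img j l ∈ j ((powerset l).sep p) →
      (powerset l).sep p ∈ (powerset (powerset l)).sep fun X => img j l ∈ j X := fun p hp =>
    mem_sep.2 ⟨mem_powerset.2 sep_subset, hp⟩
  refine ⟨⟨h.ord, fun x hx f _ f1 f2 => ?_⟩,
    (powerset (powerset l)).sep fun X => img j l ∈ j X,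
    h.Nn_sub 1 (h.Nn_pow 1 (h.Nn_pow 1 l1)) sep_subset, fun x hx f hf f1 f2 f3 => ?_,
    fun Y hY => ?_, fun X hX => ?_, ⟨_, p2 (Sml (j^[1] (V_ t.rank)) t) ?_, fun s hs =>
      ⟨mem_powerset.1 (mem_sep.1 hs).1, (mem_sep.1 hs).2⟩⟩,
    fun a ha => ⟨_, p2 (fun s => a ∈ s) ?_, fun s hs => (mem_sep.1 hs).2⟩⟩
  · classical
    obtain ⟨b, h1, h2⟩ := hr.bddV (hr.card_lt hx) (fun i => if app f i ∈ t then app f i else x)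
      fun i _ => by split_ifs with e; exacts [e, hx]
    refine ⟨b, h1, fun a y h3 => ?_⟩
    have := h2 a (f2 a y h3).1
    rwa [app_eq h3 (f1 a y h3), if_pos (f2 a y h3).2] at this
  · refine ⟨_, p2 (fun s => ∀ a y, pair a y ∈ f → s ∈ y) ?_, fun a y h1 s hs =>
      (mem_sep.1 hs).2 a y h1⟩
    refine (h.el.tf4 (fun N l f Y => ∀ s, s ∈ N → s ⊆ l → (∀ a y, pair a y ∈ f → s ∈ y) → s ∈ Y)
      (h.Nn_mem 1) (M1 l1) (M1 hf) (M1 (p1 _))).1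
      (fun s _ h1 h2 => mem_sep.2 ⟨mem_powerset.2 h1, h2⟩) _ s2 s1 fun a y h1 => ?_
    have h2 := (h.el.tf2 (fun f x => ∀ a y, pair a y ∈ f → a ∈ x) (M1 hf)
      (h.of_mem (ord_mem_V hx))).1 (fun a y h2 => (f3 a y h2).1) a y h1
    rw [h.fix x hx] at h2
    obtain ⟨z, hz⟩ := f2 a h2
    have h3 := h.el.pmem hz (M1 hf)
    rw [h.fix a (h.ord.mem_trans h2 hx)] at h3
    rw [← (h.el.tf1 Sv (M1 hf)).1 f1 a y h1 _ h3]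
    exact (mem_sep.1 (f3 a z hz).2).2
  · obtain ⟨h1, h2⟩ := mem_sep.1 hY
    exact (h.el.tf1 (fun Y => ∃ s, s ∈ Y)
      (M1 (h.Nn_sub 1 (h.Nn_pow 1 l1) (mem_powerset.1 h1)))).2 ⟨_, h2⟩
  · rcases (h.el.tf4 (fun N l Y Z => ∀ s, s ∈ N → s ⊆ l → s ∈ Y ∨ s ∈ Z)
      (h.Nn_mem 1) (M1 l1) (M1 (p1 fun s => s ∈ X)) (M1 (p1 fun s => s ∉ X))).1
      (fun s _ h1 => (em (s ∈ X)).imp (fun h2 => mem_sep.2 ⟨mem_powerset.2 h1, h2⟩)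
        fun h2 => mem_sep.2 ⟨mem_powerset.2 h1, h2⟩) _ s2 s1 with h1 | h1
    · exact ⟨_, p2 _ h1, Or.inl fun s hs => (mem_sep.1 hs).2⟩
    · exact ⟨_, p2 _ h1, Or.inr fun s hs => (mem_sep.1 hs).2⟩
  · refine (h.el.tf4 (fun N l t Y => ∀ s, s ∈ N → s ⊆ l → Sml N t s → s ∈ Y)
      (h.Nn_mem 1) (M1 l1) h.mem (M1 (p1 _))).1
      (fun s _ h1 h2 => mem_sep.2 ⟨mem_powerset.2 h1, h2⟩) _ s2 s1
      ⟨l, hl, gr j l, e2 ▸ h.Nn_sub 2 (h.Nn_prod 2 (h.Nn_mono (Nat.le_succ 1) l1) (up l1))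
        fun z hz => ?_, sv_gr _ _, fun b hb => ?_⟩
    · obtain ⟨a, ha, rfl⟩ := mem_img.1 hz
      exact pair_mem_prod.2 ⟨ha, h.el.mem ha (M1 l1)⟩
    · obtain ⟨a, ha, rfl⟩ := mem_img.1 hb
      exact ⟨a, ha, pair_mem_gr.2 ⟨ha, rfl⟩⟩
  · exact (h.el.tf4 (fun N l a Y => ∀ s, s ∈ N → s ⊆ l → a ∈ s → s ∈ Y)
      (h.Nn_mem 1) (M1 l1) (M1 ((h.Nn_tr 1).mem_trans ha l1)) (M1 (p1 _))).1
      (fun s _ h1 h2 => mem_sep.2 ⟨mem_powerset.2 h1, h2⟩) _ s2 s1 (mem_img.2 ⟨a, ha, rfl⟩)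

theorem exists_sc (h0 : om ∈ t) {a : ZFSet.{u}} (ha : a ∈ t) :
    ∃ d ∈ t, a ∈ d ∧ H20.StronglyCompact d t := by
  obtain ⟨d, d1, d2, d3, d4⟩ := (h.el.tf4 (fun N t o a => ∃ d, d ∈ t ∧ o ∈ d ∧ a ∈ d ∧
      ∀ l, l ∈ t → ScI N d l) h.N_mem h.mem (h.of_mem (ord_mem_V h0))
      (h.of_mem (ord_mem_V ha))).2
    ⟨t, h.mem_j, by rwa [h.fix _ h0], by rwa [h.fix _ ha], fun l hl => h.scI_top h0 hl⟩
  have h1 := (h.el.tf3 (fun N t d => ∀ l, l ∈ t → ScI N d l) h.N_mem h.mem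
    (h.of_mem (ord_mem_V d1))).1 d4 t h.mem_j
  rw [h.fix d d1] at h1
  have t1 : t ∈ j^[1] (V_ t.rank) := h.jt_sub h.mem_j
  exact ⟨d, d1, d3, h1.sc d2 ((h.Nn_tr 1).mem_trans d1 t1) t1 (h.Nn_tr 1)
    (fun _ hx _ hy => h.Nn_sub 1 hx hy) (fun _ hx => h.Nn_pow 1 hx)
    fun _ hx _ hy => h.Nn_prod 1 hx hy⟩

end CE

end Pool.Agent.MP_ecfd11_lc.H13X
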