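import Pool.Agent.MP_ecfd11_lc.H3U.Name
import Pool.Agent.MP_ecfd11_lc.H46G.Main

/-!
Self-embeddings of structures that are coded by ordinal definable subsets of `V_L`.
-/

set_option synthInstance.maxSize 4000

namespace Pool.Agent.MP_ecfd11_lc.H3U

open Pool.Agent.MP_ecfd11_lc.H20 Pool.Agent.MP_ecfd11_lc.H13X Pool.Agent.MP_ecfd11_lc.H46G

universe u

open ZFSet Cardinal Order Function

/-- A set of ordinal definable sets has a definable enumeration by ordinals. -/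
theorem od_list (X : ZFSet.{u}) (hX : ∀ A ∈ X, OD Set.univ A) :
    ∃ (n : ZFSet.{u}) (E : ZFSet.{u} → ZFSet.{u}), n.IsOrdinal ∧
      Tm Set.univ On (fun v => E (v 0)) ∧ ∀ A ∈ X, ∃ o ∈ n, E o = A := by
  choose! T t1 t2 using fun A hA => (hX A hA).exists_tree
  obtain ⟨b, hb, hb'⟩ : ∃ b : Ordinal.{u}, Ordinal.omega0 ≤ b ∧ rank (img T X) ≤ b :=
    ⟨_, le_max_left _ _, le_max_right _ _⟩
  have hbo := isOrdinal_toZFSet b
  obtain ⟨e, e0, e1, e2⟩ := exists_enc (C := Set.univ) hbo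
    (Ordinal.toZFSet_subset_toZFSet_iff.2 hb)
  have := Tm.one (C := Set.univ) (A := On) e
  obtain ⟨F, f0, f1⟩ := Tm.desc (C := Set.univ) (A := On) (fun o s => e s ∈ b.toZFSet ∧ e s = o)
    fun x _ s _ s' _ h1 h2 => e2 s s' h1.1 (h1.2.trans h2.2.symm)
  have := Tm.one (C := Set.univ) (A := On) F
  refine ⟨_, fun o => ev Set.univ (F o), hbo, inferInstance, fun A hA => ?_⟩
  have h1 := e1 _ (t1 A hA) (by
    rw [Ordinal.rank_toZFSet]
    exact (rank_lt_of_mem (mem_img.2 ⟨A, hA, rfl⟩)).trans_le hb')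
  have h2 := f1 (e (T A)) trivial ⟨T A, trivial, h1, rfl⟩
  exact ⟨_, h1, (congrArg _ (e2 _ _ h2.1 h2.2)).trans (t2 A hA)⟩

/-- A definable function with few values has a definable colouring of its values in `V_a`. -/
theorem colour {L Z : ZFSet.{u}} (hL : Exact1 L) (hZ : OD Set.univ Z) (z1 : card Z < card L)
    (G : ZFSet.{u} → ZFSet.{u} → ZFSet.{u}) [Tm Set.univ On (fun v => G (v 0) (v 1))]
    (hG : ∀ p A, G p A ∈ Z) :
    ∃ a ∈ L, ∃ C : ZFSet.{u} → ZFSet.{u} → Prop, Df Set.univ On (fun v => C (v 0) (v 1)) ∧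
      (∀ p ∈ V_ L.rank, ∀ A, Os L A → ∃ w ∈ V_ a.rank, C w (G p A)) ∧
      ∀ w s s', C w s → C w s' → s = s' := by
  have : Tm Set.univ On (fun _ => L) := Tm.ofOrd hL.1
  have := od_iff.1 hZ
  have := Tm.two (C := Set.univ) (A := On) G
  obtain ⟨n, E, n0, e0, e1⟩ := od_list ((powerset (vC Set.univ L)).sep (OD Set.univ))
    fun A hA => (mem_sep.1 hA).2
  have : Tm Set.univ On (fun _ => n) := Tm.ofOrd n0
  have := Tm.one (C := Set.univ) (A := On) E
  obtain ⟨T, hT⟩ : ∃ T, T = Z.sep fun s => ∃ o, o ∈ n ∧ ∃ x, x ∈ vC Set.univ L ∧ G x (E o) = s :=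
    ⟨_, rfl⟩
  have : Tm Set.univ On (fun _ => T) := hT ▸ inferInstance
  have t1 : card T < card L := (card_mono (hT ▸ sep_subset)).trans_lt z1
  let O : ZFSet.{u} → ZFSet.{u} := fun s =>
    leastBy n (fun x => x) fun o => ∃ x, x ∈ vC Set.univ L ∧ G x (E o) = s
  have o0 : Tm Set.univ On (fun v => O (v 0)) :=
    Tm.leastBy n (fun x => x) fun s o => ∃ x, x ∈ vC Set.univ L ∧ G x (E o) = s
  have o1 : ∀ s ∈ T, O s ∈ n ∧ ∃ x, x ∈ vC Set.univ L ∧ G x (E (O s)) = s := fun s hs =>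
    leastBy_id n0 (mem_sep.1 (hT ▸ hs)).2
  clear_value O
  have := Tm.one (C := Set.univ) (A := On) O
  let R : ZFSet.{u} → ZFSet.{u} := fun s =>
    leastBy L (fun x => x) fun a => ∃ x, x ∈ vC Set.univ a ∧ G x (E (O s)) = s
  have r0 : Tm Set.univ On (fun v => R (v 0)) :=
    Tm.leastBy L (fun x => x) fun s a => ∃ x, x ∈ vC Set.univ a ∧ G x (E (O s)) = s
  have r1 : ∀ s ∈ T, R s ∈ L ∧ ∃ x, x ∈ vC Set.univ (R s) ∧ G x (E (O s)) = s := fun s hs =>
    leastBy_id hL.1 (by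
      obtain ⟨x, hx, h1⟩ := (o1 s hs).2
      obtain ⟨a, ha, h2⟩ := exists_level hL.1 hL.lim ((mem_vC_ord hL.1).1 hx)
      exact ⟨a, ha, x, (mem_vC_ord (hL.1.mem ha)).2 h2, h1⟩)
  clear_value R
  have := Tm.one (C := Set.univ) (A := On) R
  have sm : ∀ X : ZFSet.{u}, (∀ x ∈ X, x.IsOrdinal) → card X ≤ card T → img (colIn X) X ∈ L :=
    fun X h1 h2 => cov_mem_of_card_lt (img_colIn_ord h1) hL.1
      (((card_img_le _ _).trans h2).trans_lt t1)
  have x1 : ∀ x ∈ img O T, x.IsOrdinal := fun x hx => by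
    obtain ⟨s, hs, rfl⟩ := mem_img.1 hx
    exact n0.mem (o1 s hs).1
  have y1 : img R T ⊆ L := fun x hx => by
    obtain ⟨s, hs, rfl⟩ := mem_img.1 hx
    exact (r1 s hs).1
  obtain ⟨a, ha, h1⟩ : ∃ a ∈ L, ∀ x ∈ img R T, a ∉ x := by
    by_contra h1
    push Not at h1
    exact hL.no_cof (od_iff.2 inferInstance) y1 h1
      (sm _ (fun x hx => hL.1.mem (y1 hx)) (card_img_le _ _))
  have h2 := union_mem hL.1 ha (sm _ x1 (card_img_le _ _))
  have lim := exact_lim hL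
  refine ⟨_, mem_of_rank hL.1 (lim _ (lim _ (rank_lt_of_mem h2))), fun w s => ∃ o, o ∈ img O T ∧
    colIn (img O T) o = fst w ∧ G (snd w) (E o) = s, inferInstance, fun p hp A hA => ?_, ?_⟩
  · obtain ⟨o, ho, rfl⟩ := e1 A (mem_sep.2 ⟨mem_powerset.2 hA.2, hA.1⟩)
    have h3 : G p (E o) ∈ T := hT ▸ mem_sep.2 ⟨hG _ _, o, ho, p, vC_rank hL.1 ▸ hp, rfl⟩
    obtain ⟨h4, x, hx, h5⟩ := r1 _ h3
    have h6 := mem_img.2 ⟨_, h3, (rfl : O _ = _)⟩
    refine ⟨pair (colIn (img O T) (O (G p (E o)))) x, mem_vonNeumann.2 ?_, _, h6,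
      (fst_pair _ _).symm, by rwa [snd_pair]⟩
    have h7 := succ_le_of_lt ((rank_lt_of_mem (mem_img.2 ⟨_, h6, (rfl : colIn (img O T) _ = _)⟩)).trans_le
      (rank_mono fun y hy => mem_union.2 (Or.inr hy) : _ ≤ rank (a ∪ _)))
    have h8 := succ_le_of_lt ((((mem_vC_ord (hL.1.mem h4)).1 hx).trans_le (rank_mono
      (((hL.1.mem ha).notMem_iff_subset (hL.1.mem h4)).1 (h1 _ (mem_img.2 ⟨_, h3, rfl⟩))))).trans_le
      (rank_mono fun y hy => mem_union.2 (Or.inl hy) :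
        _ ≤ rank (a ∪ img (colIn (img O T)) (img O T))))
    rw [Ordinal.rank_toZFSet, pair, rank_pair, rank_singleton, rank_pair, lt_succ_iff]
    exact max_le (succ_le_succ h7) (succ_le_succ (max_le h7 h8))
  · rintro w _ _ ⟨o, h3, h4, rfl⟩ ⟨o', h5, h6, rfl⟩
    rw [colIn_inj x1 h3 h5 (h4.trans h6.symm)]

theorem tm_lst (n : ℕ) {v : ℕ → ZFSet.{u}} (hv : ∀ i, (v i).IsOrdinal) :
    Tm Set.univ On (fun _ => lst n v) := by
  induction n generalizing v with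
  | zero => exact Tm.empty
  | succ n ih =>
    have := ih fun i => hv (i + 1)
    have : Tm Set.univ On (fun _ => v 0) := Tm.ofOrd (hv 0)
    exact inferInstanceAs (Tm Set.univ On fun _ => pair (v 0) (lst n fun i => v (i + 1)))

theorem lift {L b n M f i Y : ZFSet.{u}} (hL : Exact1 L) (h0 : om ∈ L)
    (hN : ∀ b ∈ L, ∀ Q, OD Set.univ Q → Nam L Q b) (hp : 2 ^ card Y < card L)
    (hn : n.IsOrdinal) (i0 : OD Set.univ i) (i1 : IsInj n (powerset (V_ L.rank)) i) (hLM : L ⊆ M)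
    (f0 : OD Set.univ f) (f1 : IsInj M (prod (V_ L.rank) n) f) (hY : OD Set.univ Y)
    (hb : b ∈ L) :
    ∃ (j : ZFSet.{u} → ZFSet.{u}) (k : ZFSet.{u}), (∀ A ∈ Y, Emb M A j) ∧ b ∈ k ∧ k ∈ L ∧
      (∀ a ∈ k, j a = a) ∧ (∀ a ∈ L, j a ∈ L) ∧ ∀ c ∈ L, ∃ m, c ∈ j^[m] k := by
  have := od_iff.1 f0
  have := od_iff.1 i0
  have := od_iff.1 hY
  have : Tm Set.univ On (fun _ => M) := by
    refine Tm.of (fun _ => img fst f) inferInstance fun _ _ => ZFSet.ext fun x => ?_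
    refine ⟨fun hx => ?_, fun hx => mem_img.2 ⟨_, f1.1.app_mem hx, fst_pair _ _⟩⟩
    obtain ⟨w, hw, rfl⟩ := mem_img.1 hx
    obtain ⟨z, hz, y, -, rfl⟩ := mem_prod.1 (f1.1.1 hw)
    rwa [fst_pair]
  have : Tm Set.univ On (fun _ => L) := Tm.ofOrd hL.1
  have : Tm Set.univ On (fun _ => V_ L.rank) := vC_rank hL.1 ▸ inferInstance
  obtain ⟨o, o1, o2, o3⟩ : ∃ o : Ordinal.{u}, IsSuccLimit o ∧ M.rank < o ∧ Y.rank < o :=
    ⟨max M.rank Y.rank + Ordinal.omega0, Ordinal.isSuccLimit_add _ Ordinal.isSuccLimit_omega0,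
      (le_max_left _ _).trans_lt (lt_add_of_pos_right _ Ordinal.omega0_pos),
      (le_max_right _ _).trans_lt (lt_add_of_pos_right _ Ordinal.omega0_pos)⟩
  have : Tm Set.univ On (fun _ => V_ o) := by
    have := vC_rank (isOrdinal_toZFSet o)
    rw [Ordinal.rank_toZFSet] at this
    exact this ▸ inferInstance
  have hU : ∀ x ∈ V_ o, ∀ y ∈ V_ o, pair x y ∈ V_ o := fun _ h1 _ h2 =>
    pair_mem_V (fun _ h => o1.succ_lt h) h1 h2
  have hMU : M ⊆ V_ o := subset_vonNeumann.2 o2.le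
  have lim := exact_lim hL
  have clo : ∀ x ∈ V_ L.rank, ∀ y ∈ V_ L.rank, pair x y ∈ V_ L.rank := fun _ h1 _ h2 =>
    pair_mem_V lim h1 h2
  have c0 : ∀ x ∈ M, fst (app f x) ∈ V_ L.rank ∧ snd (app f x) ∈ n ∧
      app f x = pair (fst (app f x)) (snd (app f x)) := fun x hx => by
    obtain ⟨a, ha, c, hc, e⟩ := mem_prod.1 (f1.1.app_mem' hx)
    rw [e, fst_pair, snd_pair]
    exact ⟨ha, hc, rfl⟩
  have c1 : ∀ x ∈ M, app i (snd (app f x)) ⊆ V_ L.rank := fun x hx =>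
    mem_powerset.1 (i1.1.app_mem' (c0 x hx).2.1)
  have c2 : ∀ x ∈ M, Os L (app i (snd (app f x))) := fun x hx => by
    have : Tm Set.univ On (fun _ => snd (app f x)) := Tm.ofOrd (hn.mem (c0 x hx).2.1)
    exact ⟨od_iff.2 inferInstance, vC_rank hL.1 ▸ c1 x hx⟩
  have c3 : ∀ x ∈ M, ∀ y ∈ M, fst (app f x) = fst (app f y) →
      app i (snd (app f x)) = app i (snd (app f y)) → x = y := fun x hx y hy e1 e2 => by
    have e3 := i1.2 _ _ _ (i1.1.app_mem (c0 x hx).2.1) (e2 ▸ i1.1.app_mem (c0 y hy).2.1)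
    have e4 : app f x = app f y := by rw [(c0 x hx).2.2, (c0 y hy).2.2, e1, e3]
    exact f1.2 x y _ (f1.1.app_mem hx) (e4 ▸ f1.1.app_mem hy)
  let G : ZFSet.{u} → ZFSet.{u} → ZFSet.{u} := fun p A => Y.sep fun D => ∃ r, r ∈ V_ o ∧
    (∀ m, m ∈ fst (snd p) → fst (tl r m) ∈ M ∧
      fst (app f (fst (tl r m))) = fst (tl (snd (snd p)) m) ∧
      app i (snd (app f (fst (tl r m)))) = (V_ L.rank).sep fun x => pair m x ∈ A) ∧
    pair M (pair D r) ∈ satSet (V_ o) (fst p)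
  have g0 : Tm Set.univ On (fun v => G (v 0) (v 1)) := by simp only [G]; infer_instance
  have g1 : ∀ (φ : Fml) (v : ℕ → ZFSet.{u}) (s A : ZFSet.{u}), (∀ m, v m ∈ M) →
      (∀ m < fv φ, fst (app f (v m)) = asg s m ∧
        app i (snd (app f (v m))) = (V_ L.rank).sep fun x => pair (nat m) x ∈ A) → ∀ D ∈ Y,
      (D ∈ G (pair (code (rel φ)) (pair (nat (fv φ)) s)) A ↔ Sat M φ (cons D v)) :=
    fun φ v s A hv hs D hD => by
      have key : ∀ r ∈ V_ o, (∀ m < fv φ, asg r m = v m) →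
          (pair M (pair D r) ∈ satSet (V_ o) (code (rel φ)) ↔ Sat M φ (cons D v)) :=
        fun r hr h => by
          rw [mem_satSet hU _ (hU _ (mem_vonNeumann.2 o2) _
            (hU _ (subset_vonNeumann.2 o3.le hD) _ hr)), asg_pair, asg_pair, sat_rel hMU]
          refine sat_congr φ fun n hn => ?_
          cases n with
          | zero => rfl
          | succ n => exact h n (Nat.lt_of_succ_lt hn)
      have lt : ∀ m, nat.{u} m ∈ nat (fv φ) ↔ m < fv φ := fun m => by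
        rw [nat, nat, Ordinal.toZFSet_mem_toZFSet_iff, Nat.cast_lt]
      simp only [G, mem_sep, fst_pair, snd_pair, hD, true_and]
      constructor
      · rintro ⟨r, hr, h1, h2⟩
        refine (key r hr fun m hm => ?_).1 h2
        obtain ⟨h3, h4, h5⟩ := h1 _ ((lt m).2 hm)
        rw [tl_nat] at h3 h5
        rw [tl_nat, tl_nat] at h4
        exact c3 _ h3 _ (hv m) (h4.trans (hs m hm).1.symm) (h5.trans (hs m hm).2.symm)
      · intro h
        have hr := lst_mem (mem_vonNeumann.2 (by rw [rank_empty]; exact o1.bot_lt)) hU (fv φ)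
          fun m => hMU (hv m)
        refine ⟨_, hr, fun x hx => ?_, (key _ hr (asg_lst _ v)).2 h⟩
        obtain ⟨m, rfl⟩ := exists_nat ((isOrdinal_toZFSet _).mem_trans hx (H46G.nat_mem_om _))
        have h1 := asg_lst _ v m ((lt m).1 hx)
        rw [tl_nat, tl_nat]
        rw [asg] at h1
        rw [h1]
        exact ⟨hv m, hs m ((lt m).1 hx)⟩
  have g2 : ∀ p A, G p A ∈ powerset Y := fun _ _ => mem_powerset.2 sep_subset
  clear_value G
  obtain ⟨a, ha, C, d0, d1, d2⟩ := colour hL (od_iff.2 inferInstance)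
    (by rwa [card_powerset]) G g2
  have := Tm.two (C := Set.univ) (A := On) G
  have := Df.two (C := Set.univ) (A := On) C
  have h1 := union_mem hL.1 (union_mem hL.1 hb ha) h0
  obtain ⟨k, e, H, k1, k2, k3, k4⟩ := nam_out hL.1 (hN _ h1)
    (mem_union.2 (Or.inr empty_mem_om)) h1 fun p A A' =>
      (fst p = nat 0 → C (fst (snd p)) (G (snd (snd p)) A)) ∧
      (fst p = nat 1 → A' = (V_ L.rank).sep fun x => pair (snd p) x ∈ A) ∧
      (fst p = nat 2 → ∃ x, x ∈ M ∧ fst (app f x) = snd p ∧ app i (snd (app f x)) = A) ∧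
      (fst p = nat 3 → fst (app f (fst (snd p))) = snd (snd p) ∧
        app i (snd (app f (fst (snd p)))) = A)
  have r1 := (rank_lt_of_mem k1).le
  have w1 : V_ Ordinal.omega0 ⊆ V_ k.rank := vonNeumann_subset_of_le
    (((Ordinal.rank_toZFSet _).ge.trans (rank_mono fun _ h => mem_union.2 (Or.inr h))).trans r1)
  have w2 : V_ a.rank ⊆ V_ k.rank := vonNeumann_subset_of_le
    ((rank_mono fun _ h => mem_union.2 (Or.inl (mem_union.2 (Or.inr h)))).trans r1)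
  have w3 : V_ k.rank ⊆ V_ L.rank := vonNeumann_subset_of_le (rank_lt_of_mem k2.mem).le
  have w4 : ∀ m, nat.{u} m ∈ V_ k.rank := fun m => w1 (mem_vonNeumann.2 (by
    rw [nat, Ordinal.rank_toZFSet]; exact Ordinal.natCast_lt_omega0 m))
  have w5 : (∅ : ZFSet.{u}) ∈ V_ k.rank :=
    w1 (mem_vonNeumann.2 (by rw [rank_empty]; exact Ordinal.omega0_pos))
  replace k4 := fun m p hp A hA A' hA' =>
    (k4 (pair (nat m) p) (clo _ (w3 (w4 m)) _ hp) A hA A' hA').1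
  have q0 : ∀ p ∈ V_ L.rank, ∀ A, Os L A → G (e p) (H A) = G p A := fun p hp A hA => by
    obtain ⟨w, h2, h3⟩ := d1 p hp A hA
    have h4 := clo _ (w3 (w2 h2)) _ hp
    have := k4 0 _ h4 A hA A hA (by simpa [nat_inj] using h3)
    rw [k2.com _ (w3 (w4 0)) _ h4, k2.com _ (w3 (w2 h2)) _ hp, k2.fix _ (w4 0),
      k2.fix _ (w2 h2)] at this
    exact d2 w _ _ (by simpa using this.1) h3
  have q1 : ∀ m A, Os L A → Os L ((V_ L.rank).sep fun x => pair (nat m) x ∈ A) →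
      H ((V_ L.rank).sep fun x => pair (nat m) x ∈ A) =
        (V_ L.rank).sep fun x => pair (nat m) x ∈ H A := fun m A hA hA' => by
    have := k4 1 _ (w3 (w4 m)) A hA _ hA' (by simp [nat_inj])
    rw [k2.com _ (w3 (w4 1)) _ (w3 (w4 m)), k2.fix _ (w4 1), k2.fix _ (w4 m)] at this
    simpa using this.2.1
  have q2 : ∀ x ∈ M, ∃ y, y ∈ M ∧ fst (app f y) = e (fst (app f x)) ∧
      app i (snd (app f y)) = H (app i (snd (app f x))) := fun x hx => by
    have := k4 2 _ (c0 x hx).1 _ (c2 x hx) _ (c2 x hx) (by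
      simpa [nat_inj] using ⟨x, hx, rfl, rfl⟩)
    rw [k2.com _ (w3 (w4 2)) _ (c0 x hx).1, k2.fix _ (w4 2)] at this
    simpa using this.2.2.1
  choose! j j1 j2 j3 using q2
  have q3 : ∀ x ∈ L, e x ∈ L := fun x hx => (k2.pre x (ord_mem_V hx)).1 hx
  have q4 : ∀ x ∈ L, j x = e x := fun x hx => by
    have h2 := (c0 x (hLM hx)).1
    have h3 := clo _ (ord_mem_V hx) _ h2
    have := k4 3 _ h3 _ (c2 x (hLM hx)) _ (c2 x (hLM hx)) (by simp [nat_inj])
    rw [k2.com _ (w3 (w4 3)) _ h3, k2.com _ (ord_mem_V hx) _ h2, k2.fix _ (w4 3)] at this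
    simp only [fst_pair, snd_pair] at this
    exact c3 _ (j1 x (hLM hx)) _ (hLM (q3 x hx)) ((j2 x (hLM hx)).trans (this.2.2.2 trivial).1.symm)
      ((j3 x (hLM hx)).trans (this.2.2.2 trivial).2.symm)
  have q5 : ∀ m, j^[m] k = e^[m] k ∧ e^[m] k ∈ L := fun m => by
    induction m with
    | zero => exact ⟨rfl, k2.mem⟩
    | succ m ih =>
      rw [iterate_succ_apply', iterate_succ_apply', ih.1]
      exact ⟨q4 _ ih.2, q3 _ ih.2⟩
  refine ⟨j, k, fun D hD => ⟨j1, fun φ v hv => ?_⟩, (hL.1.mem hb).mem_of_subset_of_mem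
    (hL.1.mem k2.mem) (fun _ h => mem_union.2 (Or.inl (mem_union.2 (Or.inl h)))) k1, k2.mem,
    fun x hx => (q4 x (hL.1.mem_trans hx k2.mem)).trans (k2.fix x (ord_mem_V hx)),
    fun x hx => q4 x hx ▸ q3 x hx, fun c hc => (k2.cof c hc).imp fun m hm => (q5 m).1 ▸ hm⟩
  have := tm_lst (fv φ) fun m => hn.mem (c0 _ (hv m)).2.1
  obtain ⟨A, hA⟩ : ∃ A, A = (V_ L.rank).sep fun z =>
    snd z ∈ app i (fst (tl (lst (fv φ) fun m => snd (app f (v m))) (fst z))) := ⟨_, rfl⟩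
  have a1 : Os L A := ⟨od_iff.2 (hA ▸ inferInstance), vC_rank hL.1 ▸ hA ▸ sep_subset⟩
  have a2 : ∀ m < fv φ, app i (snd (app f (v m))) =
      (V_ L.rank).sep fun x => pair (nat m) x ∈ A := fun m hm => by
    have h2 := asg_lst _ (fun m => snd (app f (v m))) m hm
    rw [asg] at h2
    ext x
    rw [hA, mem_sep, mem_sep, fst_pair, snd_pair, tl_nat, h2]
    exact ⟨fun h => ⟨c1 _ (hv m) h, clo _ (w3 (w4 m)) _ (c1 _ (hv m) h), h⟩, fun h => h.2.2⟩
  have s1 := lst_mem (w3 w5) clo (fv φ) fun m => (c0 _ (hv m)).1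
  have s2 := clo _ (w3 (w4 (fv φ))) _ s1
  have s3 := w1 (code_mem.{u} (rel φ))
  rw [← g1 φ v _ A hv (fun m hm => ⟨(asg_lst _ (fun m => fst (app f (v m))) m hm).symm, a2 m hm⟩)
    D hD, ← q0 _ (clo _ (w3 s3) _ s2) A a1, k2.com _ (w3 s3) _ s2, k2.com _ (w3 (w4 _)) _ s1,
    k2.fix _ s3, k2.fix _ (w4 _)]
  refine g1 φ _ _ _ (fun m => j1 _ (hv m)) (fun m hm => ⟨?_, ?_⟩) D hD
  · rw [lst_map (w3 w5) clo (k2.fix _ w5) k2.com _ fun m => (c0 _ (hv m)).1, asg_lst _ _ m hm]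
    exact j2 _ (hv m)
  · rw [j3 _ (hv m), ← q1 m A a1 (a2 m hm ▸ c2 _ (hv m)), a2 m hm]

end Pool.Agent.MP_ecfd11_lc.H3U
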