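import Pool.Agent.MP_ecfd11_lc.Mg.H20_Atom

/-!
Simultaneous stationary reflection to points of large cofinality.
-/

namespace Pool.Agent.MP_ecfd11_lc.H3U

open Pool.Agent.MP_ecfd11_lc.H20

universe u

open ZFSet Function Classical Cardinal Filter

theorem refl_big {d l : ZFSet.{u}} (h : StronglyCompact d l) (hdl : d ∈ l)
    (hl : Regular Set.univ l) (x0 x : ZFSet.{u}) (S : ZFSet.{u} → ZFSet.{u})
    (hx0 : card x0 < card d) (hx : card x < card d)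
    (hS : ∀ i ∈ x, (∀ y ∈ S i, Sm d y) ∧ ¬ Null l (S i)) :
    ¬ Null l (l.sep fun b => Sm d b ∧ Unc b ∧
      (∀ y, y ⊆ b → card y ≤ card x0 → ∃ c ∈ b, ∀ z ∈ y, z ∈ c) ∧ ∀ i ∈ x, ¬ Null b (S i)) := by
  obtain ⟨hd, U, hU, u1, u2⟩ := h
  have cpl : ∀ (x : ZFSet.{u}) (p : ZFSet.{u} → ZFSet.{u} → Prop), card x < card d →
      (∀ i ∈ x, ∀ᶠ s in (U : Filter ZFSet.{u}), p i s) →
      ∀ᶠ s in (U : Filter ZFSet.{u}), ∀ i ∈ x, p i s := fun x p hx h =>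
    (eventually_cardinal_ball (S := (x : Set ZFSet.{u})) (p := fun s i _ => p i s) (by
      have := cardinalMk_coe_sort (x := x)
      change #x < _
      rw [this]; exact lift_lt.2 hx)).2 h
  have hom : card om < card d := hd.card_lt hd.2.1
  have wf : WellFounded fun f g : ZFSet.{u} → ZFSet.{u} =>
      ∀ᶠ s in (U : Filter ZFSet.{u}), f s ∈ g s := by
    rw [wellFounded_iff_isEmpty_descending_chain]
    refine ⟨fun ⟨F, hF⟩ => ?_⟩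
    obtain ⟨s, hs⟩ := (cpl om (fun i s => ∀ n, nat n = i → F (n + 1) s ∈ F n s) hom
      fun i hi => by
        obtain ⟨o, ho, rfl⟩ := Ordinal.mem_toZFSet_iff.1 hi
        obtain ⟨n, rfl⟩ := Ordinal.lt_omega0.1 ho
        filter_upwards [hF n] with s hs m hm
        rwa [nat_inj.1 hm]).exists
    exact (wellFounded_iff_isEmpty_descending_chain.1 mem_wf).false ⟨fun n => F n s, fun n =>
      hs _ (Ordinal.toZFSet_mem_toZFSet_iff.2 (Ordinal.natCast_lt_omega0 n)) n rfl⟩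
  have h0 : ∀ s, ∃ b ∈ l, s ⊆ l ∧ card s < card d → ∀ i ∈ s, i ∈ b := fun s => by
    by_cases hs : s ⊆ l ∧ card s < card d
    · obtain ⟨b, h1, h2⟩ := hl.bddV (hs.2.trans (hl.card_lt hdl)) (fun i => i) hs.1
      exact ⟨b, h1, fun _ => h2⟩
    · exact ⟨d, hdl, fun h => absurd h hs⟩
  choose g g1 g2 using h0
  obtain ⟨f, ⟨f1, f2⟩, f3⟩ := wf.has_min
    {f | (∀ s, f s ∈ l) ∧ ∀ a ∈ l, ∀ᶠ s in (U : Filter ZFSet.{u}), a ∈ f s}
    ⟨g, g1, fun a ha => by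
      filter_upwards [u1, u2 a ha] with s h1 h2 using g2 s h1 a h2⟩
  have fo : ∀ s, (f s).IsOrdinal := fun s => hl.1.mem (f1 s)
  have key : ∀ p : ZFSet.{u} → ZFSet.{u} → Prop,
      (∀ᶠ s in (U : Filter ZFSet.{u}), ∃ y ∈ f s, p s y) →
      ∃ a ∈ l, ∀ᶠ s in (U : Filter ZFSet.{u}), ∃ y ∈ f s, y ∈ a ∧ p s y := fun p hp => by
    have h1 : ∀ s, ∃ y ∈ l, (∃ y ∈ f s, p s y) → y ∈ f s ∧ p s y := fun s => by
      by_cases hs : ∃ y ∈ f s, p s y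
      · obtain ⟨y, h1, h2⟩ := hs
        exact ⟨y, hl.1.mem_trans h1 (f1 s), fun _ => ⟨h1, h2⟩⟩
      · exact ⟨d, hdl, fun h => absurd h hs⟩
    choose k k1 k2 using h1
    have h2 : ¬ ∀ a ∈ l, ∀ᶠ s in (U : Filter ZFSet.{u}), a ∈ k s := fun h2 =>
      f3 k ⟨k1, h2⟩ (by filter_upwards [hp] with s hs using (k2 s hs).1)
    push Not at h2
    obtain ⟨a, ha, h2⟩ := h2
    refine ⟨_, hl.succ_mem ha, ?_⟩
    filter_upwards [hp, h2] with s h3 h4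
    exact ⟨k s, (k2 s h3).1, mem_insert_iff.2 ((hl.1.mem (k1 s)).eq_or_mem_of_subset
      (hl.1.mem ha) (((hl.1.mem ha).notMem_iff_subset (hl.1.mem (k1 s))).1 h4)), (k2 s h3).2⟩
  have cof : ∀ p : ZFSet.{u} → ZFSet.{u} → Prop,
      (∀ a ∈ l, ∃ z ∈ l, a ∈ z ∧ ∀ᶠ s in (U : Filter ZFSet.{u}), p s z) →
      ∀ᶠ s in (U : Filter ZFSet.{u}), ∀ x ∈ f s, ∃ z ∈ f s, x ∈ z ∧ p s z := fun p hp => by
    by_contra h1
    obtain ⟨a, ha, h2⟩ := key (fun s x => ¬ ∃ z ∈ f s, x ∈ z ∧ p s z) (by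
      filter_upwards [Ultrafilter.eventually_not.2 h1] with s hs
      push Not at hs ⊢
      exact hs)
    obtain ⟨z, z1, z2, z3⟩ := hp a ha
    obtain ⟨s, ⟨y, y1, y2, y3⟩, h3, h4⟩ := (h2.and (z3.and (f2 z z1))).exists
    exact y3 ⟨z, h4, (hl.1.mem z1).mem_trans y2 z2, h3⟩
  rintro ⟨E, e1, e2⟩
  have a1 : ∀ᶠ s in (U : Filter ZFSet.{u}), Sm d (f s) := by
    filter_upwards [u1, cof (fun s z => z ∈ s) fun a ha => ⟨_, hl.succ_mem ha, mem_insert _ _,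
      u2 _ (hl.succ_mem ha)⟩] with s h1 h2
    refine ⟨s ∩ f s, fun z hz => (mem_inter.1 hz).2, not_le.2 ((card_mono fun z hz =>
      (mem_inter.1 hz).1).trans_lt h1.2), fun y hy => ?_⟩
    obtain ⟨z, z1, z2, z3⟩ := h2 y hy
    exact ⟨z, mem_inter.2 ⟨z3, z1⟩, z2⟩
  have a2 : ∀ᶠ s in (U : Filter ZFSet.{u}), f s ∈ E := by
    filter_upwards [f2 d hdl, cof (fun _ z => z ∈ E) fun a ha => by
      obtain ⟨z, z1, z2⟩ := e1.2.1 a ha
      exact ⟨z, e1.1 z1, z2, Eventually.of_forall fun _ => z1⟩] with s h1 h2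
    refine e1.2.2 _ (f1 s) ⟨d, h1⟩ fun y hy => ?_
    obtain ⟨z, z1, z2, z3⟩ := h2 y hy
    exact ⟨z, z3, z2, z1⟩
  have a3 : ∀ x1 : ZFSet.{u}, card x1 < card d → ∀ᶠ s in (U : Filter ZFSet.{u}),
      ∀ y, y ⊆ f s → card y ≤ card x1 → ∃ c ∈ f s, ∀ z ∈ y, z ∈ c := fun x1 hx1 => by
    by_contra h1
    have h2 : ∀ s, ∃ G : ZFSet.{u} → ZFSet.{u},
        (¬ ∀ y, y ⊆ f s → card y ≤ card x1 → ∃ c ∈ f s, ∀ z ∈ y, z ∈ c) →
        ∀ c ∈ f s, ∃ n ∈ x1, G n ∈ f s ∧ G n ∉ c := fun s => by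
      by_cases hs : ∀ y, y ⊆ f s → card y ≤ card x1 → ∃ c ∈ f s, ∀ z ∈ y, z ∈ c
      · exact ⟨id, fun h => absurd hs h⟩
      · simp only [not_forall, not_exists, not_and] at hs
        obtain ⟨y, y1, y2, y3⟩ := hs
        obtain ⟨G, hG⟩ := exists_surj_of_card_le y2
        refine ⟨G, fun _ c hc => ?_⟩
        obtain ⟨z, z1, z2⟩ := y3 c hc
        obtain ⟨n, hn, rfl⟩ := hG z z1
        exact ⟨n, hn, y1 z1, z2⟩
    choose G hG using h2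
    have h3 : ∀ n, ∃ a ∈ l, ∀ᶠ s in (U : Filter ZFSet.{u}), G s n ∈ f s → G s n ∈ a := fun n => by
      obtain ⟨a, ha, h3⟩ := key (fun s y => G s n ∈ f s → y = G s n) (by
        filter_upwards [f2 d hdl] with s hs
        by_cases h : G s n ∈ f s
        exacts [⟨_, h, fun _ => rfl⟩, ⟨d, hs, fun h' => absurd h' h⟩])
      refine ⟨a, ha, ?_⟩
      filter_upwards [h3] with s ⟨y, _, y2, y3⟩ h using y3 h ▸ y2
    choose A a1 a2 using h3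
    obtain ⟨c, hc, h3⟩ := hl.bddV (hx1.trans (hl.card_lt hdl)) A fun n _ => a1 n
    obtain ⟨s, h4, h5, h6⟩ := ((Ultrafilter.eventually_not.2 h1).and ((f2 c hc).and
      (cpl x1 (fun n s => G s n ∈ f s → G s n ∈ A n) hx1 fun n _ => a2 n))).exists
    obtain ⟨n, hn, h7, h8⟩ := hG s h4 c h5
    exact h8 ((hl.1.mem hc).mem_trans (h6 n hn h7) (h3 n hn))
  have a4 : ∀ i ∈ x, ∀ᶠ s in (U : Filter ZFSet.{u}), ¬ Null (f s) (S i) := fun i hi => by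
    rw [Ultrafilter.eventually_not]
    intro h1
    have h2 : ∀ s, ∃ c, Null (f s) (S i) → Club (f s) c ∧ ∀ y ∈ S i, y ∉ c := fun s => by
      by_cases hs : Null (f s) (S i)
      exacts [hs.imp fun _ h _ => h, ⟨∅, fun h => absurd h hs⟩]
    choose c hc using h2
    have h3 : ∀ b ∈ l, ∃ a ∈ l, ∀ᶠ s in (U : Filter ZFSet.{u}),
        ∃ y ∈ f s, y ∈ a ∧ y ∈ c s ∧ b ∈ y := fun b hb => key _ (by
      filter_upwards [h1, f2 b hb] with s h3 h4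
      obtain ⟨y, y1, y2⟩ := (hc s h3).1.2.1 b h4
      exact ⟨y, (hc s h3).1.1 y1, y1, y2⟩)
    choose! N n1 n2 using h3
    refine (hS i hi).2 ⟨l.sep fun g => (∃ b, b ∈ g) ∧ ∀ b ∈ g, N b ∈ g, ⟨sep_subset,
      fun b hb => ?_, fun g hg hne h3 => mem_sep.2 ⟨hg, hne, fun b hb => ?_⟩⟩, fun g hg h3 => ?_⟩
    · obtain ⟨g, hg, h3, h4⟩ := hl.exists_closed N n1 hb
      exact ⟨g, mem_sep.2 ⟨hg, ⟨b, h3⟩, h4⟩, h3⟩
    · obtain ⟨z, z1, z2, z3⟩ := h3 b hb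
      exact (hl.1.mem hg).mem_trans ((mem_sep.1 z1).2.2 b z2) z3
    · obtain ⟨h4, h5, h6⟩ := mem_sep.1 h3
      obtain ⟨y, y1, y2, y3⟩ := (hS i hi).1 g hg
      obtain ⟨s, h7, h8, h9⟩ := (h1.and ((f2 g h4).and (cpl y _ (not_le.1 y2) fun b hb =>
        n2 b (hl.1.mem_trans (y1 hb) h4)))).exists
      refine (hc s h7).2 g hg ((hc s h7).1.2.2 g h8 h5 fun b hb => ?_)
      obtain ⟨z, z1, z2⟩ := y3 b hb
      obtain ⟨w, w1, w2, w3, w4⟩ := h9 z z1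
      exact ⟨w, w3, ((fo s).mem w1).mem_trans z2 w4,
        (hl.1.mem h4).mem_trans w2 (h6 z (y1 z1))⟩
  obtain ⟨s, h1, h2, h3, h4, h5⟩ :=
    (a1.and (a2.and ((a3 om hom).and ((a3 x0 hx0).and (cpl x _ hx a4))))).exists
  exact e2 _ (mem_sep.2 ⟨f1 s, h1, ⟨fo s, h3⟩, h4, h5⟩) h2

end Pool.Agent.MP_ecfd11_lc.H3U
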