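import Pool.Agent.MP_ecfd11_lc.H13X.Defs
import Pool.Agent.MP_ecfd11_lc.H20.Defs
import Pool.Agent.MP_ecfd11_lc.H46.Defs

/-!
Self-embeddings of ordinal definable structures above a rank-into-rank cardinal.
-/

namespace Pool.Agent.MP_ecfd11_lc.H3U

universe u

open ZFSet

/-- Let `n` be an ordinal such that only countably many cardinals of HOD lie in `(l, n]`, or such
that `n` has an ordinal definable injection into the power set of `V_l`.  Let `l ⊆ M`, and let `M`
have an ordinal definable injection into `V_l × n`.  Then for every nonempty ordinal definable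
family `Y` of fewer than `l` sets and every `b < l` there is one elementary embedding `M → M` that
preserves all members of `Y`, has critical point above `b`, and whose critical sequence has
supremum `l`. -/
def Berk (l : ZFSet.{u}) : Prop :=
  l.IsOrdinal ∧ ∀ n M f Y b : ZFSet.{u}, n.IsOrdinal →
    ({c | H46.HODCard c ∧ l ∈ c ∧ c ⊆ n}.Countable ∨
      ∃ i, OD Set.univ i ∧ IsInj n (powerset (vonNeumann l.rank)) i) →
    l ⊆ M → OD Set.univ f →
    IsInj M (prod (vonNeumann l.rank) n) f → OD Set.univ Y → Y ≠ ∅ → Y.card < l.card → b ∈ l →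
    ∃ (j : ZFSet.{u} → ZFSet.{u}) (k : ZFSet.{u}), (∀ A ∈ Y, H13X.Emb M A j) ∧ b ∈ k ∧ k ∈ l ∧
      (∀ a ∈ k, j a = a) ∧ (∀ a ∈ l, j a ∈ l) ∧ ∀ c ∈ l, ∃ m, c ∈ j^[m] k

end Pool.Agent.MP_ecfd11_lc.H3U
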