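import Pool.Agent.MP_ecfd11_lc.H13X.Coh
import Pool.Agent.MP_ecfd11_lc.H20.Scale

/-!
An inaccessible cardinal whose successor is strongly measurable in HOD has few ordinal definable
subsets.
-/

set_option synthInstance.maxSize 4000

namespace Pool.Agent.MP_ecfd11_lc.H3U

open Pool.Agent.MP_ecfd11_lc.H20 Pool.Agent.MP_ecfd11_lc.H13X

universe u

open ZFSet Cardinal Function

/-- A set of ordinal definable sets has an ordinal definable injection into an ordinal. -/
theorem od_dinj (a : ZFSet.{u}) (h : ∀ x ∈ a, OD Set.univ x) :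
    ∃ o : ZFSet.{u}, o.IsOrdinal ∧ DInj Set.univ a o := by
  choose! T t1 t2 using fun x hx => (h x hx).exists_tree
  obtain ⟨b, hb, hb'⟩ : ∃ b : Ordinal.{u}, Ordinal.omega0 ≤ b ∧ rank (img T a) ≤ b :=
    ⟨_, le_max_left _ _, le_max_right _ _⟩
  have hbo := isOrdinal_toZFSet b
  obtain ⟨e, e0, e1, e2⟩ :=
    exists_enc (C := Set.univ) hbo (Ordinal.toZFSet_subset_toZFSet_iff.2 hb)
  have := Tm.one (C := Set.univ) (A := On) e
  have : Tm Set.univ On (fun _ => b.toZFSet) := Tm.ofOrd hbo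
  obtain ⟨F, f0, f1⟩ := od_choice (C := Set.univ) a
    (fun x y => y ∈ b.toZFSet ∧ ∃ t, e t = y ∧ ev Set.univ t = x) fun x hx => by
      have h1 := e1 _ (t1 x hx) (by
        rw [Ordinal.rank_toZFSet]
        exact (rank_lt_of_mem (mem_img.2 ⟨x, hx, rfl⟩)).trans_le hb')
      exact ⟨_, od_iff.2 (Tm.ofOrd (hbo.mem h1)), h1, _, rfl, t2 x hx⟩
  refine ⟨_, hbo, F, f0, fun x hx => (f1 x hx trivial).1, fun x hx y hy e' => ?_⟩
  obtain ⟨h1, s, h2, rfl⟩ := f1 x hx trivial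
  obtain ⟨-, t, h3, rfl⟩ := f1 y hy trivial
  rw [e2 s t (h2 ▸ h1) (h2.trans (e'.trans h3.symm))]

theorem few_od {t : ZFSet.{u}} (hs' : StronglyMeasurable Set.univ (succCard t))
    (ht : Regular Set.univ t) (hsl : ∀ x ∈ vonNeumann t.rank, card x < card t) :
    card ((powerset (vonNeumann t.rank)).sep (OD Set.univ)) ≤ card t := by
  by_contra h0
  rw [not_le] at h0
  have hl := hs'.1
  have hu := unc_of_regular hl
  have htl : card t < card (succCard t) := by rw [card_succCard]; exact Order.lt_succ _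
  have : Tm Set.univ On (fun _ => t) := Tm.ofOrd ht.1
  have : Tm Set.univ On (fun _ => vonNeumann t.rank) := vC_ord ht.1 ▸ inferInstance
  obtain ⟨O, hO⟩ : ∃ O, O = (powerset (vonNeumann t.rank)).sep fun x => OD Set.univ x := ⟨_, rfl⟩
  have : Tm Set.univ On (fun _ => O) := hO ▸ inferInstance
  replace h0 : card t < card O := hO ▸ h0
  obtain ⟨o, o1, o2⟩ := od_dinj O fun x hx => (mem_sep.1 (hO ▸ hx)).2
  obtain ⟨c, c0, c1, c2⟩ := exists_quot (C := Set.univ) O o1 o2 fun x => x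
  have h1 : succCard t ⊆ img c O := (c1.mem_or_subset hl.1).resolve_left fun h =>
    h0.not_ge ((card_le_of_inj c (fun x hx => mem_img.2 ⟨x, hx, rfl⟩)
      fun x hx y hy => (c2 x hx y hy).1).trans (mem_succCard.1 h).2)
  obtain ⟨G, g0, g1, g2⟩ : DInj Set.univ (succCard t) O :=
    DInj.inv c (fun x hx y hy => (c2 x hx y hy).1) fun y hy => mem_img.1 (h1 hy)
  have := Tm.one (C := Set.univ) (A := On) G
  obtain ⟨S, s1, -, s2, s3⟩ := exists_atom_omega hs'
  have h2 : ∀ a ∈ t, ∃ x, Null (succCard t) (S.sep fun l => G l ∩ vC Set.univ a ≠ x) :=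
    fun a ha => by
      have hao := ht.1.mem ha
      have : Tm Set.univ On (fun _ => a) := Tm.ofOrd hao
      have h2 : ¬ ∀ x ∈ powerset (vC Set.univ a),
          Null (succCard t) (S.sep fun l => G l ∩ vC Set.univ a = x) :=
        fun h2 => s2 (null_iUnion hl ((hsl _ (mem_vonNeumann.2 (by
          rw [vC_ord hao, rank_powerset, rank_vonNeumann]
          have := rank_lt_of_mem (ht.succ_mem ha)
          rwa [rank_insert, max_eq_left (Order.le_succ _)] at this))).trans htl) _ h2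
            fun y hy _ =>
              ⟨_, mem_powerset.2 fun z hz => (mem_inter.1 hz).2, mem_sep.2 ⟨hy, rfl⟩⟩)
      push Not at h2
      obtain ⟨x, -, h2⟩ := h2
      obtain ⟨l, h3, h4, -⟩ := exists_not_null h2 hu.null_empty
      obtain ⟨-, rfl⟩ := mem_sep.1 h3
      have : Tm Set.univ On (fun _ => l) := Tm.ofOrd (hl.1.mem h4)
      refine ⟨G l ∩ vC Set.univ a, ?_⟩
      rcases s3 ((succCard t).sep fun y => G y ∩ vC Set.univ a = G l ∩ vC Set.univ a)
        (od_iff.2 inferInstance) with h5 | h5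
      · exact absurd (h5.mono fun y hy hy' => mem_inter.2
          ⟨(mem_sep.1 hy).1, mem_sep.2 ⟨hy', (mem_sep.1 hy).2⟩⟩) h2
      · exact h5.mono fun y hy _ => mem_sdiff.2
          ⟨(mem_sep.1 hy).1, fun h6 => (mem_sep.1 hy).2 (mem_sep.1 h6).2⟩
  choose! X hX using h2
  have h3 : Null (succCard t) (S.sep fun l => ∃ a ∈ t, G l ∩ vC Set.univ a ≠ X a) :=
    null_iUnion hl htl _ hX fun y hy _ => by
      obtain ⟨h3, a, ha, h4⟩ := mem_sep.1 hy
      exact ⟨a, ha, mem_sep.2 ⟨h3, h4⟩⟩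
  obtain ⟨i, i1, i2, i3⟩ := exists_not_null s2 h3
  obtain ⟨j, j1, j2, j3⟩ := exists_not_null s2 (hu.null_union h3 (hu.null_bdd i2))
  rw [mem_union, not_or] at j3
  have key : ∀ i ∈ S, ∀ j ∈ S, i ∈ succCard t →
      i ∉ S.sep (fun l => ∃ a ∈ t, G l ∩ vC Set.univ a ≠ X a) →
      j ∉ S.sep (fun l => ∃ a ∈ t, G l ∩ vC Set.univ a ≠ X a) → G i ⊆ G j :=
    fun i i1 j j1 i2 i3 j3 z hz => by
      obtain ⟨a, ha, h4⟩ := exists_level ht.1 (fun b hb => (unc_of_regular ht).succ hb)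
        (mem_vonNeumann.1 (mem_powerset.1 (mem_sep.1 (hO ▸ g1 i i2)).1 hz))
      have h5 : G i ∩ vC Set.univ a = X a := by_contra fun h => i3 (mem_sep.2 ⟨i1, a, ha, h⟩)
      have h6 : G j ∩ vC Set.univ a = X a := by_contra fun h => j3 (mem_sep.2 ⟨j1, a, ha, h⟩)
      have h7 := mem_inter.2 ⟨hz, (mem_vC_ord (ht.1.mem ha)).2 h4⟩
      rw [h5, ← h6] at h7
      exact (mem_inter.1 h7).1
  refine j3.2 ?_
  rw [← g2 i i2 j j2 (ZFSet.ext fun z =>
    ⟨fun h => key i i1 j j1 i2 i3 j3.1 h, fun h => key j j1 i i1 j2 j3.1 i3 h⟩)]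
  exact mem_insert _ _

end Pool.Agent.MP_ecfd11_lc.H3U
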