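import Pool.Agent.MP_ecfd11_lc.Mg.H20_Main
import Pool.Agent.MP_ecfd11_lc.Mg.H46_Main
import Pool.Agent.MP_ecfd11_lc.H13X.Coh

/-!
The club filter of an ordinal of uncountable cofinality, restricted to a set.
-/

set_option synthInstance.maxSize 4000

namespace Pool.Agent.MP_ecfd11_lc.H3U

open Pool.Agent.MP_ecfd11_lc.H20 Pool.Agent.MP_ecfd11_lc.H13X

universe u

open ZFSet Cardinal Function Filter

variable {b S t d : ZFSet.{u}}

/-- The club filter of `b` restricted to `S`. -/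
def cf (S : ZFSet.{u}) (hb : Unc b) : Filter ZFSet.{u} where
  sets := {X | Null b (S.sep fun L => L ∉ X)}
  univ_sets := hb.null_empty.mono fun _ hx _ => absurd trivial (mem_sep.1 hx).2
  sets_of_superset := fun h1 h2 => Null.mono h1 fun _ hx _ =>
    mem_sep.2 ⟨(mem_sep.1 hx).1, fun h => (mem_sep.1 hx).2 (h2 h)⟩
  inter_sets := fun h1 h2 => (hb.null_union h1 h2).mono fun x hx _ => by
    simp only [mem_union, mem_sep, Set.mem_inter_iff] at hx ⊢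
    tauto

theorem ev_iff (hb : Unc b) {p : ZFSet.{u} → Prop} :
    (∀ᶠ L in cf S hb, p L) ↔ Null b (S.sep fun L => ¬ p L) := Iff.rfl

theorem fr_iff (hb : Unc b) {p : ZFSet.{u} → Prop} :
    (∃ᶠ L in cf S hb, p L) ↔ ¬ Null b (S.sep p) := by
  rw [Filter.Frequently, ev_iff]
  simp only [not_not]

theorem ev_mem (hb : Unc b) : ∀ᶠ L in cf S hb, L ∈ S ∧ L ∈ b :=
  hb.null_empty.mono fun _ hx hx' => absurd ⟨(mem_sep.1 hx).1, hx'⟩ (mem_sep.1 hx).2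

theorem ev_above (hb : Unc b) {a : ZFSet.{u}} (ha : a ∈ b) : ∀ᶠ L in cf S hb, a ∈ L :=
  (H46.null_below hb ha).mono fun _ hx hx' => mem_sep.2 ⟨hx', (mem_sep.1 hx).2⟩

theorem ev_club (hb : Unc b) {c : ZFSet.{u}} (hc : Club b c) : ∀ᶠ L in cf S hb, L ∈ c :=
  ⟨c, hc, fun _ hx => (mem_sep.1 hx).2⟩

theorem neBot (hb : Unc b) (h : ¬ Null b S) : (cf S hb).NeBot :=
  ⟨fun e => h (Null.mono (Y := S.sep fun L => ¬ False) ((ev_iff hb).1 (by rw [e]; exact eventually_bot))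
    fun _ hx _ => mem_sep.2 ⟨hx, not_false⟩)⟩

theorem ev_diag' (hb : Unc b) {k : Cardinal.{u}} {X : ZFSet.{u}}
    (h1 : ∀ y, y ⊆ b → card y < k → ∃ c ∈ b, ∀ z ∈ y, z ∈ c) (h2 : ∀ e ∈ b, card (X ∩ e) < k)
    {p : ZFSet.{u} → ZFSet.{u} → Prop} (h : ∀ i ∈ X, ∀ᶠ L in cf S hb, p i L) :
    ∀ᶠ L in cf S hb, ∀ i ∈ X, i ∈ L → p i L :=
  (H46.null_diag hb h1 h2 (fun i L => L ∈ S ∧ ¬ p i L) fun y hy => Null.mono (h y hy)
    fun _ hx _ => mem_sep.2 (mem_sep.1 hx).2).mono fun x hx hx' => by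
      obtain ⟨x1, x2⟩ := mem_sep.1 hx
      simp only [Set.mem_ofPred_eq, not_forall] at x2
      obtain ⟨i, i1, i2, i3⟩ := x2
      exact mem_sep.2 ⟨hx', i, i1, i2, x1, i3⟩

theorem ev_diag (ht : Regular Set.univ t) {p : ZFSet.{u} → ZFSet.{u} → Prop}
    (h : ∀ i ∈ t, ∀ᶠ L in cf S (unc_of_regular ht), p i L) :
    ∀ᶠ L in cf S (unc_of_regular ht), ∀ i ∈ L, p i L := by
  filter_upwards [ev_diag' (unc_of_regular ht) (k := card t) (X := t)
    (fun y h1 h2 => ht.bddV h2 (fun x => x) h1)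
    (fun e he => (card_mono fun x hx => (mem_inter.1 hx).2).trans_lt (ht.card_lt he)) h,
    ev_mem (unc_of_regular ht)] with L h1 h2 i hi using h1 i (ht.1.mem_trans hi h2.2) hi

theorem ev_ball (ht : Regular Set.univ t) {x : ZFSet.{u}} (hx : card x < card t)
    {p : ZFSet.{u} → ZFSet.{u} → Prop}
    (h : ∀ i ∈ x, ∀ᶠ L in cf S (unc_of_regular ht), p i L) :
    ∀ᶠ L in cf S (unc_of_regular ht), ∀ i ∈ x, p i L :=
  null_iUnion ht hx (fun i => S.sep fun L => ¬ p i L) h fun y hy _ => by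
    obtain ⟨y1, y2⟩ := mem_sep.1 hy
    simp only [Set.mem_ofPred_eq, not_forall] at y2
    obtain ⟨i, i1, i2⟩ := y2
    exact ⟨i, i1, mem_sep.2 ⟨y1, i2⟩⟩

/-- What holds almost everywhere below `t` holds almost everywhere below almost every point. -/
theorem ev_refl (ht : Regular Set.univ t) {p : ZFSet.{u} → Prop}
    (h : ∀ᶠ L in cf S (unc_of_regular ht), p L) :
    ∀ᶠ b in cf t (unc_of_regular ht), Null b (S.sep fun L => ¬ p L) :=
  Null.reflect ht h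

/-- Pressing down below a point of uncountable cofinality. -/
theorem fr_press (hb : Unc b) {p : ZFSet.{u} → ZFSet.{u} → Prop}
    (h : ∃ᶠ L in cf S hb, ∃ x ∈ L, p x L) : ∃ a ∈ b, ∃ᶠ L in cf S hb, ∃ x ∈ a, p x L := by
  obtain ⟨k, ⟨Y, y1, y2, y3⟩, hk⟩ := (wellFounded_lt (α := Cardinal.{u})).has_min
    {k | ∃ Y, Y ⊆ b ∧ (∀ x ∈ b, ∃ y ∈ Y, x ∈ y) ∧ card Y = k}
    ⟨_, b, subset_rfl, fun x hx => hb.succ hx, rfl⟩
  obtain ⟨G, hG⟩ := exists_surj_of_card_le (a := k.ord.toZFSet) (b := Y) (by rw [card_ord', y3])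
  have ko := isOrdinal_toZFSet k.ord
  by_contra h0
  simp only [not_exists, not_and, not_frequently] at h0
  have h1 := ev_diag' (S := S) hb (k := k) (X := img G (k.ord.toZFSet.sep fun i => G i ∈ b ∧
      ∀ j ∈ i, G j ∈ b → G j ∈ G i)) (fun y z1 z2 => ?_) (fun e he => ?_)
    (p := fun a L => ∀ x ∈ a, ¬ p x L) fun a ha => ?_
  · obtain ⟨c, c1, c2⟩ := (ev_iff hb).1 h1
    have hc := hb.club_lim (X := img G (k.ord.toZFSet.sep fun i => G i ∈ b ∧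
      ∀ j ∈ i, G j ∈ b → G j ∈ G i)) (fun x hx => ?_) fun x hx => ?_
    · obtain ⟨L, ⟨x, x1, x2⟩, h2, h3⟩ := (h.and_eventually (h1.and (ev_club hb hc))).exists
      obtain ⟨a, a1, a2, a3⟩ := (mem_sep.1 h3).2.2 x x1
      exact h2 a a1 a3 x a2 x2
    · obtain ⟨i, hi, rfl⟩ := mem_img.1 hx
      exact (mem_sep.1 hi).2.1
    · obtain ⟨y, z1, z2⟩ := y2 x hx
      obtain ⟨i, hi, rfl⟩ := hG y z1
      obtain ⟨j, ⟨j1, j2, j3⟩, j4⟩ := exists_min_mem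
        (p := fun j => j ∈ k.ord.toZFSet ∧ G j ∈ b ∧ x ∈ G j) ⟨hi, y1 z1, z2⟩
      refine ⟨G j, mem_img.2 ⟨j, mem_sep.2 ⟨j1, j2, fun i hi hi' => ?_⟩, rfl⟩, j3⟩
      refine (hb.1.mem hi').mem_of_subset_of_mem (hb.1.mem j2) ?_ j3
      exact ((hb.1.mem hx).notMem_iff_subset (hb.1.mem hi')).1 fun h =>
        j4 i hi ⟨ko.mem_trans hi j1, hi', h⟩
  · by_contra h2
    push Not at h2
    refine hk _ ⟨y, z1, fun x hx => ?_, rfl⟩ z2
    obtain ⟨z, z3, z4⟩ := h2 _ (hb.succ_mem hx)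
    exact ⟨z, z3, ((hb.1.mem (z1 z3)).notMem_iff_subset (hb.1.mem (hb.succ_mem hx))).1 z4
      (mem_insert _ _)⟩
  · obtain ⟨y, z1, z2⟩ := y2 e he
    obtain ⟨i, hi, rfl⟩ := hG y z1
    refine lt_of_le_of_lt ((card_mono (y := img G i) fun x hx => ?_).trans (card_img_le _ _))
      ((mem_ord_iff (ko.mem hi)).1 hi)
    obtain ⟨j, hj, rfl⟩ := mem_img.1 (mem_inter.1 hx).1
    obtain ⟨j1, j2, j3⟩ := mem_sep.1 hj
    have h2 := (hb.1.mem (y1 z1)).mem_trans (mem_inter.1 hx).2 z2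
    rcases (ko.mem j1).mem_trichotomous (ko.mem hi) with h3 | rfl | h3
    exacts [mem_img.2 ⟨j, h3, rfl⟩, absurd h2 (mem_irrefl _),
      absurd (j3 i h3 (y1 z1)) (mem_asymm h2)]
  · obtain ⟨i, hi, rfl⟩ := mem_img.1 ha
    exact h0 _ (mem_sep.1 hi).2.1

/-- A set of ordinal definable sets has a definable injection into an ordinal. -/
theorem od_rank (a : ZFSet.{u}) (h : ∀ x ∈ a, OD Set.univ x) :
    ∃ n : ZFSet.{u}, n.IsOrdinal ∧ DInj Set.univ a n := by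
  choose! T t1 t2 using fun x (hx : x ∈ a) => (h x hx).exists_tree
  obtain ⟨b, hb, hb'⟩ : ∃ b : Ordinal.{u}, Ordinal.omega0 ≤ b ∧ rank (img T a) ≤ b :=
    ⟨_, le_max_left _ _, le_max_right _ _⟩
  have hbo := isOrdinal_toZFSet b
  obtain ⟨e, e0, e1, e2⟩ := exists_enc (C := Set.univ) hbo
    (Ordinal.toZFSet_subset_toZFSet_iff.2 hb)
  have := Tm.one (C := Set.univ) (A := On) e
  have : Tm Set.univ On (fun _ => b.toZFSet) := Tm.ofOrd hbo
  have h1 : ∀ x ∈ a, _ := fun x hx => leastBy_id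
    (p := fun o => ∃ s, e s = o ∧ ev Set.univ s = x) hbo ⟨e (T x), e1 _ (t1 x hx) (by
      rw [Ordinal.rank_toZFSet]
      exact (rank_lt_of_mem (mem_img.2 ⟨x, hx, rfl⟩)).trans_le hb'), T x, rfl, t2 x hx⟩
  refine ⟨_, hbo, fun x => leastBy b.toZFSet (fun x => x)
    fun o => ∃ s, e s = o ∧ ev Set.univ s = x, Tm.leastBy _ _
      fun x o => ∃ s, e s = o ∧ ev Set.univ s = x, fun x hx => (h1 x hx).1,
    fun x hx y hy e' => ?_⟩
  obtain ⟨h2, s, s1, s2⟩ := h1 x hx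
  obtain ⟨-, r, r1, r2⟩ := h1 y hy
  rw [← s2, ← r2, e2 s r (s1 ▸ h2) (s1.trans (e'.trans r1.symm))]

end Pool.Agent.MP_ecfd11_lc.H3U
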