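import Pool.Agent.MP_ecfd11_lc.H3U.Filt

/-!
A narrow tree of initial segments stops splitting.
-/

set_option synthInstance.maxSize 4000

namespace Pool.Agent.MP_ecfd11_lc.H3U

open Pool.Agent.MP_ecfd11_lc.H20 Pool.Agent.MP_ecfd11_lc.H13X

universe u

open ZFSet Cardinal Function Filter

variable {S t : ZFSet.{u}}

theorem card_pw (ht : Regular Set.univ t) (hsl : ∀ x ∈ vonNeumann t.rank, card x < card t)
    {a : ZFSet.{u}} (ha : a ∈ t) : card (powerset (vC Set.univ a)) < card t :=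
  hsl _ (mem_vonNeumann.2 (by
    rw [vC_ord (ht.1.mem ha), rank_powerset, rank_vonNeumann]
    have := rank_lt_of_mem (ht.succ_mem ha)
    rwa [rank_insert, max_eq_left (Order.le_succ _)] at this))

theorem vC_mono {a b : ZFSet.{u}} (ha : a.IsOrdinal) (hb : b.IsOrdinal) (h : a ⊆ b) :
    vC Set.univ a ⊆ vC Set.univ b := fun _ hz =>
  (mem_vC_ord hb).2 (((mem_vC_ord ha).1 hz).trans_le (rank_mono h))

theorem inter_inter {x a b : ZFSet.{u}} (h : a ⊆ b) : x ∩ b ∩ a = x ∩ a := by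
  ext z
  simp only [mem_inter]
  exact ⟨fun h1 => ⟨h1.1.1, h1.2⟩, fun h1 => ⟨⟨h1.1, h h1.2⟩, h1.2⟩⟩

theorem fr_piece (ht : Regular Set.univ t) (hsl : ∀ x ∈ vonNeumann t.rank, card x < card t)
    {a : ZFSet.{u}} (ha : a ∈ t) (g : ZFSet.{u} → ZFSet.{u}) {p : ZFSet.{u} → Prop}
    (h : ∃ᶠ L in cf S (unc_of_regular ht), p L) : ∃ y ∈ powerset (vC Set.univ a),
      ∃ᶠ L in cf S (unc_of_regular ht), p L ∧ g L ∩ vC Set.univ a = y := by
  by_contra h0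
  simp only [not_exists, not_and, not_frequently] at h0
  obtain ⟨L, h1, h2⟩ := (h.and_eventually (ev_ball ht (card_pw ht hsl ha) h0)).exists
  exact h2 _ (mem_powerset.2 fun z hz => (mem_inter.1 hz).2) h1 rfl

theorem stop (ht : Regular Set.univ t) (hsl : ∀ x ∈ vonNeumann t.rank, card x < card t)
    (g : ZFSet.{u} → ZFSet.{u}) (D : ZFSet.{u} → Prop)
    (hD : ∃ᶠ L in cf S (unc_of_regular ht), D L) {m : ZFSet.{u}} (hm : m ∈ t)
    (hT : ∀ a ∈ t, card ((powerset (vC Set.univ a)).sep fun y =>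
      ∃ᶠ L in cf S (unc_of_regular ht), D L ∧ g L ∩ vC Set.univ a = y) ≤ card m) :
    ∃ a ∈ t, ∃ y, (∃ᶠ L in cf S (unc_of_regular ht), D L ∧ g L ∩ vC Set.univ a = y) ∧
      ∀ z ∈ vC Set.univ t,
        (∃ᶠ L in cf S (unc_of_regular ht), (D L ∧ g L ∩ vC Set.univ a = y) ∧ z ∈ g L) →
        ∀ᶠ L in cf S (unc_of_regular ht), D L ∧ g L ∩ vC Set.univ a = y → z ∈ g L := by
  have hu := unc_of_regular ht
  by_contra h0
  have h1 : ∀ a y, ∃ c ∈ t, a ∈ t → (∃ᶠ L in cf S hu, D L ∧ g L ∩ vC Set.univ a = y) →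
      ∃ z ∈ vC Set.univ c, (∃ᶠ L in cf S hu, (D L ∧ g L ∩ vC Set.univ a = y) ∧ z ∈ g L) ∧
        ∃ᶠ L in cf S hu, (D L ∧ g L ∩ vC Set.univ a = y) ∧ z ∉ g L := fun a y => by
    by_cases e : a ∈ t ∧ ∃ᶠ L in cf S hu, D L ∧ g L ∩ vC Set.univ a = y
    · by_contra h1
      refine h0 ⟨a, e.1, y, e.2, fun z hz h2 => by_contra fun h3 => ?_⟩
      obtain ⟨c, c1, c2⟩ := exists_level ht.1 (fun b hb => hu.succ hb) ((mem_vC_ord ht.1).1 hz)
      exact h1 ⟨c, c1, fun _ _ => ⟨z, (mem_vC_ord (ht.1.mem c1)).2 c2, h2,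
        (not_eventually.1 h3).mono fun L hL => Classical.not_imp.1 hL⟩⟩
    · exact ⟨m, hm, fun h1 h2 => absurd ⟨h1, h2⟩ e⟩
  choose C c1 c2 using h1
  choose! N n1 n2 using fun a (ha : a ∈ t) =>
    ht.bddV (card_pw ht hsl ha) (C a) fun y _ => c1 a y
  have h2 : card (powerset m) ≤ card (t.sep fun e => ∀ a ∈ e, N a ∈ e) := by
    by_contra h2
    have h3 : card (powerset m) < card t := (card_mono fun x hx => mem_powerset.2 fun z hz =>
      (mem_vC_ord (ht.1.mem hm)).2 (rank_lt_of_mem (mem_powerset.1 hx hz))).trans_lt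
        (card_pw ht hsl hm)
    obtain ⟨b, b1, b2⟩ := ht.bddV ((not_le.1 h2).trans h3) (fun x => x) fun x hx =>
      (mem_sep.1 hx).1
    obtain ⟨e, e1, e2, e3⟩ := ht.exists_closed N n1 b1
    exact mem_asymm e2 (b2 e (mem_sep.2 ⟨e1, e3⟩))
  obtain ⟨E, e1, e2⟩ := exists_inj_of_card_le h2
  simp only [mem_sep] at e1
  obtain ⟨b0, b1, b2⟩ := ht.bddV (x := powerset m) ((card_mono fun x hx => mem_powerset.2
    fun z hz => (mem_vC_ord (ht.1.mem hm)).2 (rank_lt_of_mem (mem_powerset.1 hx hz))).trans_lt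
      (card_pw ht hsl hm)) E fun i hi => (e1 i hi).1
  obtain ⟨y, -, hy⟩ := fr_piece ht hsl b1 g hD
  have bo := ht.1.mem b1
  have h3 : ∀ e ∈ b0, ∃ w ∈ (powerset (vC Set.univ b0)).sep fun y =>
      ∃ᶠ L in cf S hu, D L ∧ g L ∩ vC Set.univ b0 = y, w ∩ vC Set.univ e = y ∩ vC Set.univ e ∧
      ∃ z ∈ vC Set.univ (N e), (z ∈ vC Set.univ b0 → ¬ (z ∈ w ↔ z ∈ y)) := fun e he => by
    have het := ht.1.mem_trans he b1
    have hs := vC_mono (bo.mem he) bo (bo.subset_of_mem he)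
    obtain ⟨z, z1, z2, z3⟩ := c2 e (y ∩ vC Set.univ e) het (hy.mono fun L hL =>
      ⟨hL.1, by rw [← hL.2, inter_inter hs]⟩)
    have z4 : z ∈ vC Set.univ (N e) := vC_mono (ht.1.mem (c1 _ _)) (ht.1.mem (n1 e het))
      ((ht.1.mem (n1 e het)).subset_of_mem (n2 e het _
        (mem_powerset.2 fun x hx => (mem_inter.1 hx).2))) z1
    obtain ⟨w, w1, w2⟩ := fr_piece ht hsl b1 g (p := fun L =>
      (D L ∧ g L ∩ vC Set.univ e = y ∩ vC Set.univ e) ∧ ¬ (z ∈ g L ↔ z ∈ y)) (by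
        by_cases h : z ∈ y
        · exact z3.mono fun L hL => ⟨hL.1, fun h' => hL.2 (h'.2 h)⟩
        · exact z2.mono fun L hL => ⟨hL.1, fun h' => h (h'.1 hL.2)⟩)
    obtain ⟨L, ⟨⟨-, l2⟩, l3⟩, l4⟩ := w2.exists
    refine ⟨w, mem_sep.2 ⟨w1, w2.mono fun L hL => ⟨hL.1.1.1, hL.2⟩⟩,
      by rw [← l4, inter_inter hs, l2], z, z4, fun h => ?_⟩
    rwa [← l4, mem_inter, and_iff_left h]
  choose! w w1 w2 z z1 z2 using h3
  have h4 : ∀ i ∈ powerset m, ∀ j ∈ powerset m, E i ∈ E j → w (E i) ≠ w (E j) :=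
    fun i hi j hj h e => by
      have jo := ht.1.mem (e1 j hj).1
      have h5 : z (E i) ∈ vC Set.univ (E j) := vC_mono (jo.mem ((e1 j hj).2 _ h)) jo
        (jo.subset_of_mem ((e1 j hj).2 _ h)) (z1 _ (b2 i hi))
      refine z2 _ (b2 i hi) (vC_mono jo bo (bo.subset_of_mem (b2 j hj)) h5) ?_
      have := ZFSet.ext_iff.1 (w2 _ (b2 j hj)) (z (E i))
      rwa [mem_inter, mem_inter, and_iff_left h5, and_iff_left h5, ← e] at this
  refine (cantor (card m)).not_ge (card_powerset m ▸ (card_le_of_inj (fun i => w (E i))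
    (fun i hi => w1 _ (b2 i hi)) fun i hi j hj e => e2 i hi j hj ?_).trans (hT b0 b1))
  rcases (ht.1.mem (e1 i hi).1).mem_trichotomous (ht.1.mem (e1 j hj).1) with h | h | h
  exacts [absurd e (h4 i hi j hj h), h, absurd e.symm (h4 j hj i hi h)]

end Pool.Agent.MP_ecfd11_lc.H3U
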