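import Pool.Agent.MP_ecfd11_lc.H3U.Lub
import Pool.Agent.MP_ecfd11_lc.H3U.Stop
import Pool.Agent.MP_ecfd11_lc.H3U.ReflB
import Pool.Agent.MP_ecfd11_lc.H13X.Conv

/-!
There is no gap between the traces of the ordinal definable subsets of `V_t`.
-/

set_option synthInstance.maxSize 4000

namespace Pool.Agent.MP_ecfd11_lc.H3U

open Pool.Agent.MP_ecfd11_lc.H20 Pool.Agent.MP_ecfd11_lc.H13X

universe u

open ZFSet Cardinal Function Filter

theorem gap {d t S L0 O n : ZFSet.{u}} (hd : StronglyCompact d t) (hdL : d ∈ L0)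
    (hL0 : Exact1 L0) (hLt : L0 ∈ t) (hs : StronglyMeasurable Set.univ t)
    (hsl : ∀ x ∈ vonNeumann t.rank, card x < card t) (hS : Atom d t S)
    (hS' : ∀ L ∈ S, CofOmega Set.univ L) (hO0 : OD Set.univ O)
    (hO : ∀ A, A ∈ O ↔ A ⊆ vC Set.univ t ∧ OD Set.univ A) (hn : n.IsOrdinal)
    (r : ZFSet.{u} → ZFSet.{u}) [r0 : Tm Set.univ On (fun v => r (v 0))] (r1 : ∀ A ∈ O, r A ∈ n)
    (r2 : ∀ A ∈ O, ∀ A' ∈ O, r A = r A' → A = A') (B : ZFSet.{u} → ZFSet.{u})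
    (b1 : ∀ x ∈ t, B x ∈ O) (b2 : ∀ A ∈ O, ∃ x ∈ t, B x = A)
    (Φ : ZFSet.{u} → ZFSet.{u} → Prop) [Df Set.univ On (fun v => Φ (v 0) (v 1))] :
    ∀ᶠ L in cf S (unc_of_regular hs.1), ∀ A ∈ O, A ⊆ vC Set.univ L → Φ L A → ∃ x ∈ L,
      (∀ᶠ L' in cf S (unc_of_regular hs.1), Φ L' (B x ∩ vC Set.univ L')) ∧
        r A ⊆ r (B x ∩ vC Set.univ L) := by
  have ht := hs.1
  have hu := unc_of_regular ht
  have hdt := ht.1.mem_trans hdL hLt
  have hN := hS.na ht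
  have := od_iff.1 hO0
  have := od_iff.1 hS.1
  have : Tm Set.univ On (fun _ => t) := Tm.ofOrd ht.1
  have : Tm Set.univ On (fun _ => L0) := Tm.ofOrd hL0.1
  have := Tm.one (C := Set.univ) (A := On) r
  have := Df.two (C := Set.univ) (A := On) Φ
  have tr : ∀ A ∈ O, ∀ L ∈ t, A ∩ vC Set.univ L ∈ O := fun A hA L hL => by
    have := od_iff.1 ((hO A).1 hA).2
    have : Tm Set.univ On (fun _ => L) := Tm.ofOrd (ht.1.mem hL)
    exact (hO _).2 ⟨fun z hz => ((hO A).1 hA).1 (mem_inter.1 hz).1, od_iff.2 inferInstance⟩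
  have ro : ∀ A ∈ O, ∀ L ∈ t, (r (A ∩ vC Set.univ L)).IsOrdinal := fun A hA L hL =>
    hn.mem (r1 _ (tr A hA L hL))
  obtain ⟨J, hJ⟩ : ∃ J : ZFSet.{u}, ∀ x, x ∈ J ↔
      x ∈ t ∧ ∀ᶠ L in cf S hu, Φ L (B x ∩ vC Set.univ L) := ⟨t.sep _, fun _ => mem_sep⟩
  obtain ⟨c, c1, c2⟩ : ∃ c : ZFSet.{u} → ZFSet.{u}, (∀ L ∈ t, (c L).IsOrdinal) ∧
      ∀ L ∈ t, ∀ y : ZFSet.{u}, y.IsOrdinal →
        (c L ⊆ y ↔ ∀ x ∈ J, x ∈ L → r (B x ∩ vC Set.univ L) ∈ y) := by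
    refine ⟨fun L => ⋃₀ img (fun x => insert (r (B x ∩ vC Set.univ L))
      (r (B x ∩ vC Set.univ L))) (J ∩ L), fun L hL => isOrdinal_sUnion fun y hy => ?_,
      fun L hL y hy => ⟨fun h x x1 x2 => h (mem_sUnion.2 ⟨_, mem_img.2
        ⟨x, mem_inter.2 ⟨x1, x2⟩, rfl⟩, mem_insert _ _⟩), fun h z hz => ?_⟩⟩
    · obtain ⟨x, hx, rfl⟩ := mem_img.1 hy
      exact isOrdinal_succ (ro _ (b1 x ((hJ x).1 (mem_inter.1 hx).1).1) L hL)
    · obtain ⟨_, h1, h2⟩ := mem_sUnion.1 hz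
      obtain ⟨x, hx, rfl⟩ := mem_img.1 h1
      have h3 := h x (mem_inter.1 hx).1 (mem_inter.1 hx).2
      exact (mem_insert_iff.1 h2).elim (fun e => e ▸ h3) fun h4 => hy.mem_trans h4 h3
  have c3 : ∀ L ∈ t, ∀ x ∈ J, x ∈ L → r (B x ∩ vC Set.univ L) ∈ c L := fun L hL =>
    (c2 L hL _ (c1 L hL)).1 subset_rfl
  obtain ⟨G, hG⟩ : ∃ G : ZFSet.{u} → ZFSet.{u} → ZFSet.{u} → Prop, G = fun L y A =>
    A ∈ O ∧ A ⊆ vC Set.univ L ∧ y ⊆ r A ∧ Φ L A ∧
      ∀ A', A' ∈ O → A' ⊆ vC Set.univ L → y ⊆ r A' → Φ L A' → r A' ∉ r A := ⟨_, rfl⟩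
  have : Df Set.univ On (fun v => G (v 0) (v 1) (v 2)) := by rw [hG]; infer_instance
  have := Df.three' (C := Set.univ) G
  have g0 : ∀ L, ∃ A, ∀ A', G L (c L) A' → A' = A := fun L => by
    by_cases e : ∃ A, G L (c L) A
    · obtain ⟨A, hA⟩ := e
      refine ⟨A, fun A' hA' => ?_⟩
      rw [hG] at hA hA'
      obtain ⟨a1, a2, a3, a4, a5⟩ := hA
      obtain ⟨e1, e2, e3, e4, e5⟩ := hA'
      rcases (hn.mem (r1 A' e1)).mem_trichotomous (hn.mem (r1 A a1)) with h | h | h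
      exacts [absurd h (a5 A' e1 e2 e3 e4), r2 A' e1 A a1 h, absurd h (e5 A a1 a2 a3 a4)]
    · exact ⟨∅, fun A h => absurd ⟨A, h⟩ e⟩
  choose g g1 using g0
  have key : ∀ L (q : ZFSet.{u} → Prop),
      (G L (c L) (g L) ∧ q (g L)) ↔ ∃ A, G L (c L) A ∧ q A := fun L q =>
    ⟨fun h => ⟨_, h⟩, fun ⟨A, h⟩ => g1 L A h.1 ▸ h⟩
  have g2 : ∀ L, G L (c L) (g L) → g L ∈ O ∧ g L ⊆ vC Set.univ L ∧ c L ⊆ r (g L) ∧ Φ L (g L) :=
    fun L h => by
      rw [hG] at h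
      exact ⟨h.1, h.2.1, h.2.2.1, h.2.2.2.1⟩
  have clt : Cl t S c := cl_of_lub hu hS.1 hS.2.2.1 hN hO0 (fun A hA => ((hO A).1 hA).2)
    (fun A L => r (A ∩ vC Set.univ L)) ro c1 fun c' h1 h2 => by
      filter_upwards [ev_diag (S := S) ht (p := fun x L => x ∈ J → r (B x ∩ vC Set.univ L) ∈ c' L)
        fun x hx => by
          by_cases e : x ∈ J
          · filter_upwards [h2 _ (b1 x hx) (by
              filter_upwards [ev_above hu hx, ev_mem hu] with L l1 l2 using c3 L l2.2 x e l1)]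
              with L l1 _ using l1
          · exact Eventually.of_forall fun _ h => absurd h e, ev_mem hu] with L l1 l2
      exact (c2 L l2.2 _ (h1 L l2.2)).2 fun x x1 x2 => l1 x x2 x1
  by_contra h0
  have hD : ∃ᶠ L in cf S hu, G L (c L) (g L) :=
    ((not_eventually.1 h0).and_eventually (ev_mem hu)).mono fun L ⟨l1, l2⟩ => by
      simp only [not_forall, not_exists, not_and, exists_prop] at l1
      obtain ⟨A, a1, a2, a3, a4⟩ := l1
      obtain ⟨A', ⟨e1, e2, e3, e4⟩, e5⟩ := (InvImage.wf r mem_wf).has_min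
        {A | A ∈ O ∧ A ⊆ vC Set.univ L ∧ c L ⊆ r A ∧ Φ L A} ⟨A, a1, a2,
          (c2 L l2.2 _ (hn.mem (r1 A a1))).2 fun x x1 x2 => ((ro _ (b1 x ((hJ x).1 x1).1) L
            l2.2).mem_or_subset (hn.mem (r1 A a1))).resolve_right (a4 x x2 ((hJ x).1 x1).2), a3⟩
      have h1 : G L (c L) A' := by
        rw [hG]
        exact ⟨e1, e2, e3, e4, fun A a1 a2 a3 a4 => e5 A ⟨a1, a2, a3, a4⟩⟩
      exact g1 L A' h1 ▸ h1
  obtain ⟨x0, x1, x2⟩ := lub_local (S := S) ht hd.1 hdt (fun a ha => (card_mono fun x hx =>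
      mem_powerset.2 fun z hz => (mem_vC_ord (ht.1.mem ha)).2
        (rank_lt_of_mem (mem_powerset.1 hx hz))).trans_lt (card_pw ht hsl ha))
    (J := J) (fun x hx => ((hJ x).1 hx).1) (fun x L => r (B x ∩ vC Set.univ L))
    (fun x hx => ro _ (b1 x hx)) fun x hx y hy => by
      have hx' := b1 x ((hJ x).1 hx).1
      have hy' := b1 y ((hJ y).1 hy).1
      have := od_iff.1 ((hO _).1 hx').2
      have := od_iff.1 ((hO _).1 hy').2
      refine (ev_or hu hN fun L => r (B x ∩ vC Set.univ L) ⊆ r (B y ∩ vC Set.univ L)).imp_right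
        fun h => ?_
      filter_upwards [h, ev_mem hu] with L l1 l2 using
        ((ro _ hx' L l2.2).subset_total (ro _ hy' L l2.2)).resolve_left l1
  obtain ⟨a, ha, y, y1, y2⟩ := stop ht hsl g (fun L => G L (c L) (g L)) hD hLt fun a ha => by
    have : Tm Set.univ On (fun _ => a) := Tm.ofOrd (ht.1.mem ha)
    obtain ⟨T, hT⟩ : ∃ T, T = (powerset (vC Set.univ a)).sep fun y =>
      ∃ᶠ L in cf S hu, G L (c L) (g L) ∧ g L ∩ vC Set.univ a = y := ⟨_, rfl⟩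
    rw [← hT]
    have t0 : OD Set.univ T := by
      have := clt.od hu hS.1 (I := powerset (vC Set.univ a)) (od_iff.2 inferInstance)
        fun y L z => ∃ A, G L z A ∧ A ∩ vC Set.univ a = y
      have e : ∀ L y, (G L (c L) (g L) ∧ g L ∩ vC Set.univ a = y) ↔
        ∃ A, G L (c L) A ∧ A ∩ vC Set.univ a = y := fun L y =>
          key L fun A => A ∩ vC Set.univ a = y
      simpa only [hT, e] using this
    have := od_iff.1 t0
    have t1 : ∀ y ∈ T, y ∈ O := fun y hy => by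
      obtain ⟨L, l1, rfl⟩ := (mem_sep.1 (hT ▸ hy)).2.exists
      exact tr _ (g2 L l1).1 a ha
    obtain ⟨k, k0, k1, k2⟩ := exists_quot (C := Set.univ) T hn
      ⟨r, r0, fun y hy => r1 y (t1 y hy), fun y hy z hz => r2 y (t1 y hy) z (t1 z hz)⟩ fun y => y
    have := Tm.one (C := Set.univ) (A := On) k
    refine (card_le_of_inj k (fun y hy => mem_img.2 ⟨y, hy, rfl⟩) fun y hy z hz e =>
      (k2 y hy z hz).1 e).trans (card_mono (hL0.1.subset_of_mem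
        ((k1.mem_or_subset hL0.1).resolve_right fun h1 => ?_)))
    obtain ⟨P, hP⟩ : ∃ P : ZFSet.{u} → ZFSet.{u} → ZFSet.{u} → Prop, P = fun i L z =>
      ∃ A, G L z A ∧ k (A ∩ vC Set.univ a) = i := ⟨_, rfl⟩
    have : Df Set.univ On (fun v => P (v 0) (v 1) (v 2)) := by rw [hP]; infer_instance
    obtain ⟨H, a1, a2⟩ := hL0.seq
    have hom : card om < card d := hd.1.card_lt hd.1.2.1
    have hZ : card (range fun m : ULift.{u} ℕ => H m.down) ≤ card om := by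
      rw [card_om]
      simpa using lift_card_range_le (f := fun m : ULift.{u} ℕ => H m.down)
    obtain ⟨b, ⟨s1, hb, s2, s3⟩, s4, s5, s6⟩ := (((fr_iff hu).2 (refl_big hd hdt ht x0 _
      (fun i => S.sep fun L => P i L (c L)) x1 (hZ.trans_lt hom) fun i hi => by
        obtain ⟨m, rfl⟩ := mem_range.1 hi
        obtain ⟨y, y1, y2⟩ := mem_img.1 (h1 (a1 m.down))
        refine ⟨fun L hL => (hS.2.1 L (mem_sep.1 hL).1).2, (fr_iff hu).1
          ((mem_sep.1 (hT ▸ y1)).2.mono fun L hL => ?_)⟩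
        rw [hP]
        exact ⟨_, hL.1, hL.2 ▸ y2⟩)).and_eventually (x2.and ((ev_mem hu).and
          ((ev_iff hu (p := fun b => Sm d b → NA S b)).2 ((hS.glue hd.1 hdt (hd.refl hdt ht)
            hs).mono fun b hb hb' => mem_sep.2 ⟨hb', Classical.not_imp.1
              (mem_sep.1 hb).2⟩))))).exists
    have sub : ∀ L ∈ b, L ∈ t := fun L hL => ht.1.mem_trans hL s5.2
    have clb : Cl b S c := cl_of_lub hb hS.1 (fun h => s3 _ (mem_range.2 ⟨⟨0⟩, rfl⟩)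
        (h.mono fun L hL _ => (mem_sep.1 hL).1)) (s6 s1) hO0 (fun A hA => ((hO A).1 hA).2)
      (fun A L => r (A ∩ vC Set.univ L)) (fun A hA L hL => ro A hA L (sub L hL))
      (fun L hL => c1 L (sub L hL)) fun c' h1 h2 => by
        filter_upwards [s4 hb s1 s2 c' h1 fun x hx hxb => h2 _ (b1 x (sub x hxb)) (by
          filter_upwards [ev_above hb hxb, ev_mem hb] with L l1 l2 using
            c3 L (sub L l2.2) x hx l1), ev_mem hb] with L l1 l2
        exact (c2 L (sub L l2.2) _ (h1 L l2.2)).2 l1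
    obtain ⟨E, e1, e2⟩ := s1.exists_club hd.1 hb.1
    have ho := img_colIn_ord (b := L0.sep fun i => ∃ᶠ L in cf S hb, P i L (c L))
      fun x hx => hL0.1.mem (mem_sep.1 hx).1
    refine hL0.no_cof (clb.od hb hS.1 (od_iff.2 inferInstance) P) sep_subset (fun x hx => ?_)
      (by_contra fun h3 => ?_)
    · obtain ⟨m, hm⟩ := a2 x hx
      exact ⟨H m, mem_sep.2 ⟨a1 m, (fr_iff hb).2 (s3 _ (mem_range.2 ⟨⟨m⟩, rfl⟩))⟩, hm⟩
    · choose! Y y1 y2 using fun i (hi : i ∈ L0.sep fun i => ∃ᶠ L in cf S hb, P i L (c L)) =>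
        ((mem_sep.1 hi).2.and_eventually (ev_club hb e1)).exists
      refine e2.not_ge ((card_mono (hL0.1.subset_of_mem hdL)).trans ((card_mono
        ((ho.notMem_iff_subset hL0.1).1 h3)).trans ((card_img_le _ _).trans
        (card_le_of_inj Y y2 fun i hi j hj e => ?_))))
      have h4 := y1 i hi
      have h5 := y1 j hj
      rw [hP] at h4 h5
      obtain ⟨A, h4, rfl⟩ := h4
      obtain ⟨A', h5, h6⟩ := h5
      rw [← h6, g1 _ A h4, g1 _ A' h5, e]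
  have : Tm Set.univ On (fun _ => a) := Tm.ofOrd (ht.1.mem ha)
  have : Tm Set.univ On (fun _ => y) := by
    obtain ⟨L, l1, rfl⟩ := y1.exists
    exact od_iff.1 ((hO _).1 (tr _ (g2 L l1).1 a ha)).2
  obtain ⟨x, hx, e⟩ := b2 _ ((hO _).2 ⟨sep_subset, clt.od hu hS.1 (I := vC Set.univ t)
    (od_iff.2 inferInstance) fun z L w => ∃ A, G L w A ∧ A ∩ vC Set.univ a = y ∧ z ∈ A⟩)
  have h1 : ∀ z ∈ vC Set.univ t, ∀ᶠ L in cf S hu,
      G L (c L) (g L) ∧ g L ∩ vC Set.univ a = y → (z ∈ g L ↔ z ∈ B x) := fun z hz => by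
    have h1 : z ∈ B x ↔
        ∃ᶠ L in cf S hu, (G L (c L) (g L) ∧ g L ∩ vC Set.univ a = y) ∧ z ∈ g L := by
      simp only [e, mem_sep, hz, true_and, and_assoc,
        key _ fun A => A ∩ vC Set.univ a = y ∧ z ∈ A]
    by_cases h2 : z ∈ B x
    · filter_upwards [y2 z hz (h1.1 h2)] with L l1 l2 using iff_of_true (l1 l2) h2
    · filter_upwards [not_frequently.1 fun h => h2 (h1.2 h)] with L l1 l2 using
        iff_of_false (fun h => l1 ⟨l2, h⟩) h2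
  have h2 : ∃ᶠ L in cf S hu, G L (c L) (g L) ∧ g L = B x ∩ vC Set.univ L :=
    (y1.and_eventually ((ev_diag ht fun a' ha' => ev_ball ht
      ((cantor _).trans (card_powerset _ ▸ card_pw ht hsl ha')) fun z hz => h1 z (vC_mono
        (ht.1.mem ha') ht.1 (ht.1.subset_of_mem ha') hz)).and (ev_mem hu))).mono
      fun L ⟨l1, l2, l3⟩ => ⟨l1.1, ZFSet.ext fun z => by
        have l4 := hS' L l3.1
        have l5 : z ∈ vC Set.univ L → (z ∈ g L ↔ z ∈ B x) := fun hz => by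
          obtain ⟨a', a1, a2⟩ := exists_level l4.1 (CofOmega.lim l4) ((mem_vC_ord l4.1).1 hz)
          exact l2 a' a1 z ((mem_vC_ord (l4.1.mem a1)).2 a2) l1
        rw [mem_inter]
        exact ⟨fun h => ⟨(l5 ((g2 L l1.1).2.1 h)).1 h, (g2 L l1.1).2.1 h⟩,
          fun h => (l5 h.2).2 h.1⟩⟩
  have := od_iff.1 ((hO _).1 (b1 x hx)).2
  have h3 : x ∈ J := (hJ x).2 ⟨hx, (ev_or hu hN fun L => Φ L (B x ∩ vC Set.univ L)).resolve_right
    fun h => by
      obtain ⟨L, l1, l2⟩ := (h2.and_eventually h).exists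
      exact l2 (l1.2 ▸ (g2 L l1.1).2.2.2)⟩
  obtain ⟨L, l1, l2, l3⟩ := (h2.and_eventually ((ev_above hu hx).and (ev_mem hu))).exists
  exact mem_irrefl _ ((l1.2 ▸ (g2 L l1.1).2.2.1) (c3 L l3.2 x h3 l2))

end Pool.Agent.MP_ecfd11_lc.H3U
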