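import Pool.Agent.MP_ecfd11_lc.H3U.Filt

/-!
Least upper bounds of ordinal definable functions modulo the club filter.
-/

set_option synthInstance.maxSize 4000

namespace Pool.Agent.MP_ecfd11_lc.H3U

open Pool.Agent.MP_ecfd11_lc.H20 Pool.Agent.MP_ecfd11_lc.H13X

universe u

open ZFSet Cardinal Function Filter

variable {b S t d : ZFSet.{u}}

theorem ev_nat (hb : Unc b) {p : ℕ → ZFSet.{u} → Prop} (h : ∀ n, ∀ᶠ L in cf S hb, p n L) :
    ∀ᶠ L in cf S hb, ∀ n, p n L := by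
  filter_upwards [ev_diag' (S := S) hb (k := Order.succ (card om)) (X := om)
    (fun y h1 h2 => hb.2 y h1 (Order.lt_succ_iff.1 h2))
    (fun e _ => Order.lt_succ_iff.2 (card_mono fun x hx => (mem_inter.1 hx).1))
    (p := fun i L => ∀ n, nat n = i → p n L) fun i hi => by
      obtain ⟨o, ho, rfl⟩ := Ordinal.mem_toZFSet_iff.1 hi
      obtain ⟨n, rfl⟩ := Ordinal.lt_omega0.1 ho
      filter_upwards [h n] with s hs m hm
      rwa [nat_inj.1 hm], ev_above hb hb.omega_mem, ev_mem hb] with L h1 h2 h3 n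
  have h4 : nat.{u} n ∈ om := Ordinal.toZFSet_mem_toZFSet_iff.2 (Ordinal.natCast_lt_omega0 n)
  exact h1 _ h4 ((hb.1.mem h3.2).mem_trans h4 h2) n rfl

theorem ev_or (hb : Unc b) (hN : NA S b) (p : ZFSet.{u} → Prop)
    [Df Set.univ On (fun v => p (v 0))] :
    (∀ᶠ L in cf S hb, p L) ∨ ∀ᶠ L in cf S hb, ¬ p L := by
  have := Df.one (C := Set.univ) (A := On) p
  have : Tm Set.univ On (fun _ => b) := Tm.ofOrd hb.1
  rcases hN.ultra hb (X := b.sep fun L => p L) (od_iff.2 inferInstance) with h | h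
  · exact Or.inr (h.mono fun x hx hx' => mem_inter.2 ⟨(mem_sep.1 hx).1,
      mem_sep.2 ⟨hx', not_not.1 (mem_sep.1 hx).2⟩⟩)
  · exact Or.inl (h.mono fun x hx _ => mem_sdiff.2 ⟨(mem_sep.1 hx).1,
      fun h1 => (mem_sep.1 hx).2 (mem_sep.1 h1).2⟩)

/-- The class of `c` modulo the club filter of `b` on `S` is ordinal definable. -/
def Cl (b S : ZFSet.{u}) (c : ZFSet.{u} → ZFSet.{u}) : Prop :=
  ∃ C, OD Set.univ C ∧ (∃ f, f ∈ C) ∧ ∀ f ∈ C, Null b (S.sep fun L => ¬ app f L = c L)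

theorem Cl.od {c : ZFSet.{u} → ZFSet.{u}} (h : Cl b S c) (hb : Unc b) (hS : OD Set.univ S)
    {I : ZFSet.{u}} (hI : OD Set.univ I) (P : ZFSet.{u} → ZFSet.{u} → ZFSet.{u} → Prop)
    [Df Set.univ On (fun v => P (v 0) (v 1) (v 2))] :
    OD Set.univ (I.sep fun i => ∃ᶠ L in cf S hb, P i L (c L)) := by
  obtain ⟨C, c0, ⟨f0, c1⟩, c2⟩ := h
  have := od_iff.1 c0
  have := od_iff.1 hS
  have := od_iff.1 hI
  have : Tm Set.univ On (fun _ => b) := Tm.ofOrd hb.1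
  have := Df.three' (C := Set.univ) P
  have key : ∀ f ∈ C, ∀ i, (∃ᶠ L in cf S hb, P i L (app f L)) ↔ ∃ᶠ L in cf S hb, P i L (c L) :=
    fun f hf i => frequently_congr (by
      filter_upwards [(ev_iff hb).2 (c2 f hf)] with L h1
      rw [h1])
  refine od_iff.2 (Tm.of (fun _ => I.sep fun i => ∃ f, f ∈ C ∧
    ¬ Null b (S.sep fun L => P i L (app f L))) inferInstance fun _ _ => ZFSet.ext fun i => ?_)
  simp only [mem_sep, ← fr_iff hb]
  exact and_congr_right fun _ => ⟨fun ⟨f, h1, h2⟩ => (key f h1 i).1 h2,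
    fun h1 => ⟨f0, c1, (key f0 c1 i).2 h1⟩⟩

theorem cl_of_lub (hb : Unc b) (hS : OD Set.univ S) (hs : ¬ Null b S) (hN : NA S b)
    {O : ZFSet.{u}} (hO : OD Set.univ O) (hO' : ∀ A ∈ O, OD Set.univ A)
    (H : ZFSet.{u} → ZFSet.{u} → ZFSet.{u}) [Tm Set.univ On (fun v => H (v 0) (v 1))]
    (hH : ∀ A ∈ O, ∀ L ∈ b, (H A L).IsOrdinal) {c : ZFSet.{u} → ZFSet.{u}}
    (hc : ∀ L ∈ b, (c L).IsOrdinal)
    (h2 : ∀ c' : ZFSet.{u} → ZFSet.{u}, (∀ L ∈ b, (c' L).IsOrdinal) →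
      (∀ A ∈ O, (∀ᶠ L in cf S hb, H A L ∈ c L) → ∀ᶠ L in cf S hb, H A L ∈ c' L) →
      ∀ᶠ L in cf S hb, c L ⊆ c' L) : Cl b S c := by
  have := od_iff.1 hS
  have := od_iff.1 hO
  have : Tm Set.univ On (fun _ => b) := Tm.ofOrd hb.1
  have := Tm.two (C := Set.univ) (A := On) H
  have := neBot hb hs
  obtain ⟨W, w0, w1⟩ : ∃ W, OD Set.univ W ∧
      ∀ A, A ∈ W ↔ A ∈ O ∧ ∀ᶠ L in cf S hb, H A L ∈ c L := by
    by_cases h : ∃ A, A ∈ O ∧ ¬ ∀ᶠ L in cf S hb, H A L ∈ c L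
    swap
    · push Not at h
      exact ⟨O, hO, fun A => ⟨fun h1 => ⟨h1, h A h1⟩, fun h1 => h1.1⟩⟩
    have wf : WellFounded fun A A' => ∀ᶠ L in cf S hb, H A L ∈ H A' L := by
      rw [wellFounded_iff_isEmpty_descending_chain]
      refine ⟨fun ⟨F, hF⟩ => ?_⟩
      obtain ⟨L, hL⟩ := (ev_nat hb hF).exists
      exact (wellFounded_iff_isEmpty_descending_chain.1 mem_wf).false ⟨fun n => H (F n) L, hL⟩
    obtain ⟨A0, ⟨a1, a2⟩, a3⟩ := wf.has_min {A | A ∈ O ∧ ¬ ∀ᶠ L in cf S hb, H A L ∈ c L} h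
    have := od_iff.1 (hO' A0 a1)
    refine ⟨O.sep fun A => Null b (S.sep fun L => ¬ H A L ∈ H A0 L), od_iff.2 inferInstance,
      fun A => mem_sep.trans (and_congr_right fun hA => ⟨fun h1 => by_contra fun h3 =>
        a3 A ⟨hA, h3⟩ h1, fun h1 => ?_⟩)⟩
    have := od_iff.1 (hO' A hA)
    refine (ev_or hb hN fun L => H A L ∈ H A0 L).resolve_right fun h3 => a2 ?_
    filter_upwards [h1, h3, ev_mem hb] with L h4 h5 h6
    exact (hH A0 a1 L h6.2).mem_of_subset_of_mem (hc L h6.2)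
      (((hH A hA L h6.2).notMem_iff_subset (hH A0 a1 L h6.2)).1 h5) h4
  have := od_iff.1 w0
  have ho : (⋃₀ img (fun L => insert (c L) (c L)) b : ZFSet.{u}).IsOrdinal :=
    isOrdinal_sUnion fun y hy => by
      obtain ⟨L, hL, rfl⟩ := mem_img.1 hy
      exact isOrdinal_succ (hc L hL)
  obtain ⟨n, hn⟩ : ∃ n, n = (⋃₀ img (fun L => insert (c L) (c L)) b : ZFSet.{u}) := ⟨_, rfl⟩
  rw [← hn] at ho
  have : Tm Set.univ On (fun _ => n) := Tm.ofOrd ho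
  let U : ZFSet.{u} → Prop := fun f => (∀ L, L ∈ b → (app f L).IsOrdinal) ∧
    ∀ A, A ∈ W → Null b (S.sep fun L => ¬ H A L ∈ app f L)
  have : Df Set.univ On (fun v => U (v 0)) := by simp only [U]; infer_instance
  have := Df.one (C := Set.univ) (A := On) U
  have e : ∀ᶠ L in cf S hb, app (gr c b) L = c L := by
    filter_upwards [ev_mem hb] with L h using app_gr h.2
  have u1 : U (gr c b) := ⟨fun L hL => by rw [app_gr hL]; exact hc L hL, fun A hA =>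
    (ev_iff hb).1 (by filter_upwards [((w1 A).1 hA).2, e] with L h3 h4 using h4 ▸ h3)⟩
  have u2 : ∀ f, U f → ∀ᶠ L in cf S hb, c L ⊆ app f L := fun f hf =>
    h2 _ hf.1 fun A hA h3 => (ev_iff hb).2 (hf.2 A ((w1 A).2 ⟨hA, h3⟩))
  refine ⟨(powerset (prod b n)).sep fun f => U f ∧
    ∀ f', U f' → Null b (S.sep fun L => ¬ app f L ⊆ app f' L), od_iff.2 inferInstance,
    ⟨gr c b, mem_sep.2 ⟨mem_powerset.2 (isFunc_gr fun L hL => hn ▸ mem_sUnion.2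
      ⟨_, mem_img.2 ⟨L, hL, rfl⟩, mem_insert _ _⟩).1, u1, fun f hf => (ev_iff hb).1 ?_⟩⟩,
    fun f hf => (ev_iff hb).1 ?_⟩
  · filter_upwards [u2 f hf, e] with L h3 h4 using h4 ▸ h3
  · obtain ⟨-, h3, h4⟩ := mem_sep.1 hf
    filter_upwards [u2 f h3, (ev_iff hb).2 (h4 _ u1), e] with L h5 h6 h7
    exact ZFSet.ext fun z => ⟨fun hz => h7 ▸ h6 hz, fun hz => h5 hz⟩

/-- The diagonal supremum of a linearly ordered family stays a least upper bound below almost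
every point of small cofinality. -/
theorem lub_local (ht : Regular Set.univ t) (hd : Regular Set.univ d) (hdt : d ∈ t)
    (hsl : ∀ a ∈ t, card (powerset a) < card t) {J : ZFSet.{u}} (hJ : J ⊆ t)
    (h : ZFSet.{u} → ZFSet.{u} → ZFSet.{u}) (ho : ∀ x ∈ t, ∀ L ∈ t, (h x L).IsOrdinal)
    (tot : ∀ x ∈ J, ∀ y ∈ J, (∀ᶠ L in cf S (unc_of_regular ht), h x L ⊆ h y L) ∨
      ∀ᶠ L in cf S (unc_of_regular ht), h y L ⊆ h x L) :
    ∃ x0, card x0 < card d ∧ ∀ᶠ b in cf t (unc_of_regular ht), ∀ hb : Unc b, Sm d b →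
      (∀ y, y ⊆ b → card y ≤ card x0 → ∃ c ∈ b, ∀ z ∈ y, z ∈ c) →
      ∀ c' : ZFSet.{u} → ZFSet.{u}, (∀ L ∈ b, (c' L).IsOrdinal) →
      (∀ x ∈ J, x ∈ b → ∀ᶠ L in cf S hb, h x L ∈ c' L) →
      ∀ᶠ L in cf S hb, ∀ x ∈ J, x ∈ L → h x L ∈ c' L := by
  have hu := unc_of_regular ht
  let Le : ZFSet.{u} → ZFSet.{u} → Prop := fun x y => ∀ᶠ L in cf S hu, h x L ⊆ h y L
  have h1 := ev_refl (S := S) ht (p := fun L => ∀ x ∈ L, ∀ y ∈ L, Le x y → h x L ⊆ h y L)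
    (ev_diag ht fun x _ => ev_diag ht fun y _ => by
      by_cases e : Le x y
      · filter_upwards [e] with L h1 _ using h1
      · exact Eventually.of_forall fun _ h1 => absurd h1 e)
  by_cases h2 : ∃ K, K ⊆ J ∧ card K < card d ∧ ∀ x ∈ J, ∃ k ∈ K, Le x k
  · obtain ⟨K, k1, k2, k3⟩ := h2
    obtain ⟨a, ha, k4⟩ := ht.bddV (k2.trans (ht.card_lt hdt)) (fun x => x) fun x hx => hJ (k1 hx)
    refine ⟨K, k2, ?_⟩
    filter_upwards [h1, ev_above hu ha, ev_mem hu] with b b1 b2 b3 hb _ b4 c' c1 c2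
    filter_upwards [(ev_iff hb).2 b1, ev_above hb b2, ev_mem hb, ev_diag' (S := S) hb
      (k := Order.succ (card K)) (X := K) (fun y y1 y2 => b4 y y1 (Order.lt_succ_iff.1 y2))
      (fun e _ => Order.lt_succ_iff.2 (card_mono fun x hx => (mem_inter.1 hx).1))
      fun k hk => c2 k (k1 hk) (hb.1.mem_trans (k4 k hk) b2)] with L l1 l2 l3 l4 x hx hxL
    obtain ⟨k, hk, h3⟩ := k3 x hx
    have h4 := (hb.1.mem l3.2).mem_trans (k4 k hk) l2
    exact (ho x (hJ hx) L (ht.1.mem_trans l3.2 b3.2)).mem_of_subset_of_mem (c1 L l3.2)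
      (l1 x hxL k h4 h3) (l4 k hk h4)
  · have h3 : ∀ K, ∃ x ∈ t, K ⊆ J ∧ card K < card d → x ∈ J ∧ ∀ k ∈ K, Le k x := fun K => by
      by_cases e : K ⊆ J ∧ card K < card d
      · by_contra h3
        refine h2 ⟨K, e.1, e.2, fun x hx => by_contra fun h4 => h3 ⟨x, hJ hx, fun _ =>
          ⟨hx, fun k hk => (tot k (e.1 hk) x hx).resolve_right fun h5 => h4 ⟨k, hk, h5⟩⟩⟩⟩
      · exact ⟨d, hdt, fun h => absurd h e⟩
    choose X x1 x2 using h3
    choose! N n1 n2 using fun a (ha : a ∈ t) => ht.bddV (hsl a ha) X fun K _ => x1 K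
    refine ⟨∅, by rw [card_empty]; exact aleph0_pos.trans hd.aleph0_lt, ?_⟩
    filter_upwards [h1, ev_diag ht fun a ha => ev_above hu (n1 a ha), ev_mem hu]
      with b b1 b2 b3 hb b4 _ c' c1 c2
    obtain ⟨E, e1, e2⟩ := b4.exists_club hd hb.1
    by_contra h3
    have h4 : ∀ L, ∃ x, (∃ x ∈ J, x ∈ L ∧ h x L ∉ c' L) → x ∈ J ∧ x ∈ L ∧ h x L ∉ c' L :=
      fun L => by
        by_cases e : ∃ x ∈ J, x ∈ L ∧ h x L ∉ c' L
        exacts [e.imp fun _ h _ => h, ⟨∅, fun h => absurd h e⟩]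
    choose G hG using h4
    obtain ⟨a, ha, h4⟩ := fr_press (S := S) hb
      (p := fun x L => G L = x ∧ x ∈ J ∧ x ∈ L ∧ h x L ∉ c' L) ((not_eventually.1 h3).mono
        fun L hL => by
          simp only [not_forall, exists_prop] at hL
          exact ⟨_, (hG L hL).2.1, rfl, hG L hL⟩)
    have hat := ht.1.mem_trans ha b3.2
    obtain ⟨h5, h6⟩ := x2 (img G (E.sep fun L => G L ∈ a ∧ G L ∈ J)) ⟨fun x hx => by
      obtain ⟨L, hL, rfl⟩ := mem_img.1 hx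
      exact (mem_sep.1 hL).2.2, ((card_img_le _ _).trans (card_mono sep_subset)).trans_lt e2⟩
    have h7 := hb.1.mem_trans (n2 a hat (img G (E.sep fun L => G L ∈ a ∧ G L ∈ J))
      (mem_powerset.2 fun x hx => by
        obtain ⟨L, hL, rfl⟩ := mem_img.1 hx
        exact (mem_sep.1 hL).2.1)) (b2 a ha)
    obtain ⟨L, ⟨x, l1, rfl, l2, l3, l4⟩, l5, l6, l7, l8, l9⟩ := (h4.and_eventually
      (((ev_iff hb).2 b1).and ((ev_above hb h7).and ((ev_club hb e1).and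
        ((c2 _ h5 h7).and (ev_mem hb)))))).exists
    exact l4 ((ho _ (hJ l2) L (ht.1.mem_trans l9.2 b3.2)).mem_of_subset_of_mem (c1 L l9.2)
      (l5 _ l3 _ l6 (h6 _ (mem_img.2 ⟨L, mem_sep.2 ⟨l7, l1, l2⟩, rfl⟩))) l8)

end Pool.Agent.MP_ecfd11_lc.H3U
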