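import Pool.Agent.MP_ecfd11_lc.H3U.Gap
import Pool.Agent.MP_ecfd11_lc.H3U.Few
import Pool.Agent.MP_ecfd11_lc.H13X.Diag

/-!
Almost everywhere on an atom, every ordinal definable subset of `V_L` is a trace.
-/

set_option synthInstance.maxSize 4000

namespace Pool.Agent.MP_ecfd11_lc.H3U

open Pool.Agent.MP_ecfd11_lc.H20 Pool.Agent.MP_ecfd11_lc.H13X

universe u

open ZFSet Cardinal Function Filter

theorem trace {d t S L0 : ZFSet.{u}} (hd : StronglyCompact d t) (hdL : d ∈ L0)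
    (hL0 : Exact1 L0) (hLt : L0 ∈ t) (hs : StronglyMeasurable Set.univ t)
    (hs' : StronglyMeasurable Set.univ (succCard t))
    (hsl : ∀ x ∈ V_ t.rank, card x < card t) (hS : Atom d t S)
    (hS' : ∀ L ∈ S, CofOmega Set.univ L) :
    ∃ B : ZFSet.{u} → ZFSet.{u}, (∀ x ∈ t, OD Set.univ (B x) ∧ B x ⊆ V_ t.rank) ∧
      Null t (S.sep fun L => ¬ ∀ A, OD Set.univ A → A ⊆ V_ L.rank →
        ∃ x ∈ L, A = B x ∩ V_ L.rank) := by
  have ht := hs.1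
  have hu := unc_of_regular ht
  have hN := hS.na ht
  have : Tm Set.univ On (fun _ => t) := Tm.ofOrd ht.1
  obtain ⟨O, o1⟩ : ∃ O, O = (powerset (vC Set.univ t)).sep fun A => OD Set.univ A := ⟨_, rfl⟩
  have hO0 : OD Set.univ O := o1 ▸ od_iff.2 inferInstance
  have hO : ∀ A, A ∈ O ↔ A ⊆ vC Set.univ t ∧ OD Set.univ A := fun A => by
    rw [o1, mem_sep, mem_powerset]
  obtain ⟨n, hn, r, r0, r1, r2⟩ := od_rank O fun A hA => ((hO A).1 hA).2
  have := Tm.one (C := Set.univ) (A := On) r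
  obtain ⟨B, b1, b2⟩ : ∃ B : ZFSet.{u} → ZFSet.{u}, (∀ x ∈ t, B x ∈ O) ∧
      ∀ A ∈ O, ∃ x ∈ t, B x = A := by
    obtain ⟨F, hF⟩ := exists_surj_of_card_le (a := t) (b := O) (by
      rw [o1, vC_ord ht.1]; exact few_od hs' ht hsl)
    classical
    refine ⟨fun x => if F x ∈ O then F x else ∅, fun x _ => ?_, fun A hA => ?_⟩
    · dsimp only
      split_ifs with h
      exacts [h, (hO _).2 ⟨empty_subset _, od_iff.2 inferInstance⟩]
    · obtain ⟨x, hx, rfl⟩ := hF A hA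
      exact ⟨x, hx, if_pos hA⟩
  have tr : ∀ x ∈ t, ∀ L ∈ t, B x ∩ vC Set.univ L ∈ O := fun x hx L hL => by
    have := od_iff.1 ((hO _).1 (b1 x hx)).2
    have : Tm Set.univ On (fun _ => L) := Tm.ofOrd (ht.1.mem hL)
    exact (hO _).2 ⟨fun z hz => ((hO _).1 (b1 x hx)).1 (mem_inter.1 hz).1,
      od_iff.2 inferInstance⟩
  refine ⟨B, fun x hx => ⟨((hO _).1 (b1 x hx)).2, vC_ord ht.1 ▸ ((hO _).1 (b1 x hx)).1⟩,
    (ev_iff hu).1 ?_⟩
  let Lt : ZFSet.{u} → ZFSet.{u} → Prop := fun x z =>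
    ∀ᶠ L in cf S hu, r (B x ∩ vC Set.univ L) ∈ r (B z ∩ vC Set.univ L)
  filter_upwards [gap hd hdL hL0 hLt hs hsl hS hS' hO0 hO hn r r1 r2 B b1 b2 fun _ _ => True,
    ev_diag ht fun z hz => by
      have := od_iff.1 ((hO _).1 (b1 z hz)).2
      exact gap hd hdL hL0 hLt hs hsl hS hS' hO0 hO hn r r1 r2 B b1 b2
        fun L A => r A ∈ r (B z ∩ vC Set.univ L),
    ev_diag (S := S) ht (p := fun x L => ∀ z ∈ L, Lt x z →
      r (B x ∩ vC Set.univ L) ∈ r (B z ∩ vC Set.univ L)) fun x _ => ev_diag ht fun z _ => by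
        by_cases e : Lt x z
        · filter_upwards [e] with L h1 _ using h1
        · exact Eventually.of_forall fun _ h1 => absurd h1 e,
    ev_mem hu] with L l1 l2 l3 l4 A a1 a2
  have lo := ht.1.mem l4.2
  rw [← vC_ord lo] at a2 ⊢
  have a3 : A ∈ O := (hO A).2 ⟨fun z hz => vC_mono lo ht.1 (ht.1.subset_of_mem l4.2) (a2 hz), a1⟩
  obtain ⟨x, x1, -, x2⟩ := l1 A a3 a2 trivial
  obtain ⟨z, ⟨z1, z2⟩, z3⟩ := (InvImage.wf (fun x => r (B x ∩ vC Set.univ L)) mem_wf).has_min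
    {x | x ∈ L ∧ r A ⊆ r (B x ∩ vC Set.univ L)} ⟨x, x1, x2⟩
  have z4 := tr z (ht.1.mem_trans z1 l4.2) L l4.2
  rcases (hn.mem (r1 A a3)).eq_or_mem_of_subset (hn.mem (r1 _ z4)) z2 with h | h
  · exact ⟨z, z1, r2 A a3 _ z4 h⟩
  · obtain ⟨w, w1, w2, w3⟩ := l2 z z1 A a3 a2 h
    exact absurd (l3 w w1 z z1 w2) (z3 w ⟨w1, w3⟩)

end Pool.Agent.MP_ecfd11_lc.H3U
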