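import Pool.Agent.MP_ecfd11_lc.H3U.Defs
import Pool.Agent.MP_ecfd11_lc.H3U.Lift
import Pool.Agent.MP_ecfd11_lc.H3U.Trace

/-!
Below a critical point, club many ordinals of countable cofinality have the property `Berk`.
-/

set_option synthInstance.maxSize 4000

namespace Pool.Agent.MP_ecfd11_lc.H3U

open Pool.Agent.MP_ecfd11_lc.H20 Pool.Agent.MP_ecfd11_lc.H13X

universe u

open ZFSet Cardinal Order Function

theorem Berk.old {L : ZFSet.{u}} (h : Berk L) : H46G.Berk L :=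
  ⟨h.1, fun n M f Y b hn hc => h.2 n M f Y b hn (Or.inl hc)⟩

theorem sm_of_cofOmega {d y : ZFSet.{u}} (hd : Regular Set.univ d) (hy : CofOmega Set.univ y) :
    Sm d y := by
  obtain ⟨-, F, -, f1, f2⟩ := hy
  refine ⟨img (app F) om, fun z hz => ?_,
    not_le.2 ((card_img_le _ _).trans_lt (hd.card_lt hd.2.1)), fun x hx => ?_⟩
  · obtain ⟨n, hn, rfl⟩ := mem_img.1 hz
    exact f1.app_mem' hn
  · obtain ⟨n, z, h4, h5⟩ := f2 x hx
    exact ⟨z, mem_img.2 ⟨n, (pair_mem_prod.1 (f1.1 h4)).1, f1.app_eq h4⟩, h5⟩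

theorem club_berk {m : Ordinal.{u}} {j : ZFSet.{u} → ZFSet.{u}} {t d a : ZFSet.{u}}
    (h : CE m j t) (hd : StronglyCompact d t) (hdt : d ∈ t) (hat : a ∈ t)
    (hs : ∀ l, a ∈ l → Regular Set.univ l → StronglyMeasurable Set.univ l) :
    ∃ c, Club t c ∧ ∀ l ∈ c, CofOmega Set.univ l → Berk l := by
  have h0 := h.ord.mem_trans hd.1.2.1 hdt
  have hl := h.regular h0
  have hu := unc_of_regular hl
  have sc : ∀ l : ZFSet.{u}, l.IsOrdinal → a ∈ l → om ∈ l →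
      StronglyMeasurable Set.univ (succCard l) := fun l h1 h2 h3 =>
    hs _ ((succCard_ord l).mem_trans h2 (mem_succCard.2 ⟨h1, le_rfl⟩))
      (regular_succCard (card_om ▸ card_mono (h1.subset_of_mem h3)))
  have ab : ∀ x ∈ t, Null t (t.sep fun l => x ∉ l) := fun x hx =>
    (hu.null_bdd hx).mono fun l h1 h2 => mem_insert_iff.2 ((h.ord.mem h2).eq_or_mem_of_subset
      (h.ord.mem hx) (((h.ord.mem hx).notMem_iff_subset (h.ord.mem h2)).1 (mem_sep.1 h1).2))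
  obtain ⟨c1, a1, a2⟩ := h.club_exact1 h0 (hs t hat hl)
  obtain ⟨c2, a3, a4⟩ := hu.null_union (hu.null_union (ab a hat) (ab d hdt))
    (null_diag hl (fun x l => ((2 : Cardinal.{u}) ^ card x).ord.toZFSet ∉ l) fun x hx =>
      ab _ (hl.mem_of_card_lt (isOrdinal_toZFSet _) (by
        rw [card_ord', ← card_powerset]
        refine h.card_lt (mem_vonNeumann.2 ?_)
        rw [rank_powerset]
        exact h.lim _ (rank_lt_of_mem hx))))
  replace a4 : ∀ l ∈ c2, a ∈ l ∧ d ∈ l ∧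
      ∀ x ∈ l, ((2 : Cardinal.{u}) ^ card x).ord.toZFSet ∈ l := fun l h1 => by
    have := fun h2 => a4 l h2 h1
    simpa only [mem_union, mem_sep, a3.1 h1, true_and, imp_false, not_or, not_not, not_exists,
      not_and, and_assoc] using this
  obtain ⟨L0, l1, l2⟩ := (stat_cofOmega hl).2 _ trivial (hu.club_inter a1 a3)
  obtain ⟨c3, a5, a6⟩ := club_nam h h0 fun R r0 r1 r2 => by
    obtain ⟨S, s1, s2⟩ := exists_atom hd.1 hdt (hd.refl hdt hl) (hs t hat hl) r0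
      (fun y hy => ⟨(r1 y hy).1, sm_of_cofOmega hd.1 (r1 y hy).2⟩) r2
    obtain ⟨B, b1⟩ := trace hd (a4 _ (mem_inter.1 l2).2).2.1
      (a2 _ (mem_inter.1 l2).1 (mem_sep.1 l1).2) (mem_sep.1 l1).1 (hs t hat hl)
      (sc t h.ord hat h0) (fun _ hx => h.card_lt hx) s1 fun L hL => (r1 L (s2 hL)).2
    exact ⟨S, B, s2, s1.2.2.1, s1.2.2.2, b1⟩
  refine ⟨_, hu.club_inter (hu.club_inter a1 a3) a5, fun l h1 h2 =>
    ⟨h2.1, fun n M f Y b hn hc hLM f0 f1 y0 y1 y2 hb => ?_⟩⟩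
  obtain ⟨h3, h4⟩ := mem_inter.1 h1
  obtain ⟨h3, h5⟩ := mem_inter.1 h3
  obtain ⟨h6, h7, h8⟩ := a4 l h5
  have h9 := h2.1.mem_trans hd.1.2.1 h7
  have hL := a2 l h3 h2
  rcases hc with hc | ⟨i, i0, i1⟩
  · exact (H46G.berk hL h9 (sc l h2.1 h6 h9)).2 n M f Y b hn hc hLM f0 f1 y0 y1 y2 hb
  · refine lift hL h9 (a6 l h4 h2) ?_ hn i0 i1 hLM f0 f1 y0 hb
    simpa only [card_ord'] using hL.card_lt _ (h8 _ (cov_mem_of_card_lt
      (isOrdinal_toZFSet (card Y).ord) h2.1 (by rwa [card_ord'])))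

end Pool.Agent.MP_ecfd11_lc.H3U
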