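import Pool.Agent.MP_ecfd11_lc.H13X.Club

/-!
Embeddings of `V_L` that act on the ordinal definable subsets of `V_L`.
-/

set_option synthInstance.maxSize 4000

namespace Pool.Agent.MP_ecfd11_lc.H3U

open Pool.Agent.MP_ecfd11_lc.H20 Pool.Agent.MP_ecfd11_lc.H13X

universe u

open ZFSet Cardinal Order Function

theorem null_diag {t : ZFSet.{u}} (hl : Regular Set.univ t) (P : ZFSet.{u} → ZFSet.{u} → Prop)
    (h : ∀ a ∈ t, Null t (t.sep (P a))) : Null t (t.sep fun L => ∃ a ∈ L, P a L) := by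
  by_contra h1
  have h2 : ∀ L ∈ t.sep fun L => ∃ a ∈ L, P a L, ∃ a ∈ L, P a L := fun L hL => (mem_sep.1 hL).2
  choose! F f1 f2 using h2
  obtain ⟨a, ha, h3⟩ := fodor hl h1 F fun x hx _ _ => f1 x hx
  exact h3 ((h a ha).mono fun y hy hy' =>
    mem_sep.2 ⟨hy', (mem_sep.1 hy).2 ▸ f2 y (mem_sep.1 hy).1⟩)

/-- The definable form of: some `e` preserves `B` at `L` above `g`. -/
def PresB (L B g : ZFSet.{u}) : Prop :=
  ∃ f k : ZFSet.{u}, g ∈ k ∧ k ∈ L ∧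
    (∀ x, x ∈ vC Set.univ k → app f x = x) ∧
    (∀ X : ZFSet.{u}, k ∈ X → (∀ x, x ∈ X → app f x ∈ X) → ∀ b, b ∈ L → ∃ x, x ∈ X ∧ b ∈ x) ∧
    (∀ x, x ∈ vC Set.univ L → ∀ y, y ∈ vC Set.univ L → pair x y ∈ vC Set.univ L) ∧
    (∀ x, x ∈ vC Set.univ L → app f x ∈ vC Set.univ L) ∧
    (∀ x, x ∈ vC Set.univ L → ∀ y, y ∈ vC Set.univ L →
      app f (pair x y) = pair (app f x) (app f y)) ∧
    ∀ x, x ∈ vC Set.univ L → (x ∈ B ↔ app f x ∈ B)

instance Df.presB (r s t : (ℕ → ZFSet.{u}) → ZFSet.{u}) [Tm Set.univ On r] [Tm Set.univ On s]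
    [Tm Set.univ On t] : Df Set.univ On (fun v => PresB (r v) (s v) (t v)) :=
  haveI : Df Set.univ On (fun v : ℕ → ZFSet.{u} => PresB (v 0) (v 1) (v 2)) := by
    unfold PresB; infer_instance
  Df.three PresB r s t

theorem presB_iff {L B g : ZFSet.{u}} (hL : L.IsOrdinal) :
    PresB L B g ↔ ∃ k e, g ∈ k ∧ Pres L B k e := by
  unfold PresB
  rw [vC_rank hL]
  constructor
  · rintro ⟨f, k, h0, h1, h2, h3, h4, h5, h6, h7⟩
    rw [vC_rank (hL.mem h1)] at h2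
    refine ⟨k, app f, h0, h1, h2, fun b hb => ?_, h4, h5, h6, h7⟩
    obtain ⟨x, hx, h8⟩ := h3 (range fun n : ℕ => (app f)^[n] k) (mem_range.2 ⟨0, rfl⟩)
      (fun x hx => by
        obtain ⟨n, rfl⟩ := mem_range.1 hx
        exact mem_range.2 ⟨n + 1, iterate_succ_apply' _ _ _⟩) b hb
    obtain ⟨n, rfl⟩ := mem_range.1 hx
    exact ⟨n, h8⟩
  · rintro ⟨k, e, h0, h⟩
    have h' : Pres L B k (app (gr e (V_ L.rank))) := h.congr fun _ hx => app_gr hx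
    refine ⟨_, k, h0, h'.mem, vC_rank (hL.mem h.mem) ▸ h'.fix, fun X h1 h2 b hb => ?_, h'.clo,
      h'.map, h'.com, h'.pre⟩
    obtain ⟨n, hn⟩ := h'.cof b hb
    refine ⟨_, ?_, hn⟩
    clear hn
    induction n with
    | zero => exact h1
    | succ n ih => rw [iterate_succ_apply']; exact h2 _ ih

/-- The relation `Q` on subsets of `V_L`, written in the names given by `β`. -/
noncomputable def nd (L Q β : ZFSet.{u}) : ZFSet.{u} :=
  (vC Set.univ L).sep fun w => (∃ a, a ∈ L ∧ w = pair ∅ a) ∨ ∃ x, x ∈ L ∧ ∃ y, y ∈ L ∧ ∃ p,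
    w = pair (pair p x) y ∧ pair p (pair (app β x) (app β y)) ∈ Q

/-- `A` is an ordinal definable subset of `V_L`. -/
def Os (L A : ZFSet.{u}) : Prop := OD Set.univ A ∧ A ⊆ vC Set.univ L

/-- Some naming of the definable subsets of `V_L` turns `Q` into a preserved set. -/
def Nam (L Q b : ZFSet.{u}) : Prop :=
  ∃ β, (∀ A, Os L A → ∃ x, x ∈ L ∧ app β x = A) ∧ (∀ x, x ∈ L → Os L (app β x)) ∧
    PresB L (nd L Q β) b

instance Df.nam (r s t : (ℕ → ZFSet.{u}) → ZFSet.{u}) [Tm Set.univ On r] [Tm Set.univ On s]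
    [Tm Set.univ On t] : Df Set.univ On (fun v => Nam (r v) (s v) (t v)) :=
  haveI : Df Set.univ On (fun v : ℕ → ZFSet.{u} => Nam (v 0) (v 1) (v 2)) := by
    unfold Nam Os nd; infer_instance
  Df.three Nam r s t

theorem pair_ne_empty (a b : ZFSet.{u}) : pair a b ≠ ∅ := fun e =>
  not_isOrdinal_pair a b (e ▸ isOrdinal_empty)

theorem mem_nd0 {L Q β a : ZFSet.{u}} :
    pair ∅ a ∈ nd L Q β ↔ pair ∅ a ∈ vC Set.univ L ∧ a ∈ L := by
  rw [nd, mem_sep]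
  refine and_congr_right fun _ => ⟨?_, fun h => Or.inl ⟨a, h, rfl⟩⟩
  rintro (⟨c, hc, e⟩ | ⟨x, -, y, -, p, e, -⟩)
  · exact (pair_inj.1 e).2 ▸ hc
  · exact absurd (pair_inj.1 e).1.symm (pair_ne_empty _ _)

theorem mem_nd1 {L Q β p x y : ZFSet.{u}} (hx : x ∈ L) (hy : y ∈ L) :
    pair (pair p x) y ∈ nd L Q β ↔ pair (pair p x) y ∈ vC Set.univ L ∧
      pair p (pair (app β x) (app β y)) ∈ Q := by
  rw [nd, mem_sep]
  refine and_congr_right fun _ => ⟨?_, fun h => Or.inr ⟨x, hx, y, hy, p, rfl, h⟩⟩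
  rintro (⟨c, -, e⟩ | ⟨x', -, y', -, p', e, h⟩)
  · exact absurd (pair_inj.1 e).1 (pair_ne_empty _ _)
  · obtain ⟨e1, rfl⟩ := pair_inj.1 e
    obtain ⟨rfl, rfl⟩ := pair_inj.1 e1
    exact h

/-- The embedding `e` and its action `H` on definable sets preserve a definable relation. -/
theorem nam_out {L b : ZFSet.{u}} (hL : L.IsOrdinal) (hN : ∀ Q, OD Set.univ Q → Nam L Q b)
    (h0 : ∅ ∈ b) (hb : b ∈ L) (P : ZFSet.{u} → ZFSet.{u} → ZFSet.{u} → Prop)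
    [Df Set.univ On (fun v => P (v 0) (v 1) (v 2))] :
    ∃ (k : ZFSet.{u}) (e H : ZFSet.{u} → ZFSet.{u}), b ∈ k ∧ Pres L L k e ∧
      (∀ A, Os L A → Os L (H A)) ∧ ∀ p ∈ V_ L.rank,
      ∀ A, Os L A → ∀ A', Os L A' → (P p A A' ↔ P (e p) (H A) (H A')) := by
  have : Tm Set.univ On (fun _ => L) := Tm.ofOrd hL
  have := Df.three' (C := Set.univ) P
  obtain ⟨β, b1, b2, b3⟩ := hN ((prod (vC Set.univ L) (prod (powerset (vC Set.univ L))
    (powerset (vC Set.univ L)))).sep fun z => P (fst z) (fst (snd z)) (snd (snd z)))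
    (od_iff.2 inferInstance)
  obtain ⟨k, e, h1, h2⟩ := (presB_iff hL).1 b3
  choose! N n1 n2 using b1
  have z0 : ∅ ∈ k := (hL.mem h2.mem).mem_trans h0 h1
  have z1 : (∅ : ZFSet.{u}) ∈ V_ L.rank := ord_mem_V (hL.mem_trans h0 hb)
  have z2 := h2.fix _ (ord_mem_V z0)
  have h3 : ∀ a ∈ V_ L.rank, (a ∈ L ↔ e a ∈ L) := fun a ha => by
    have := h2.pre _ (h2.clo _ z1 _ ha)
    rwa [h2.com _ z1 _ ha, z2, mem_nd0, mem_nd0, vC_rank hL, and_iff_right (h2.clo _ z1 _ ha),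
      and_iff_right (h2.clo _ z1 _ (h2.map _ ha))] at this
  have h4 : ∀ a ∈ L, e a ∈ L := fun a ha => (h3 a (ord_mem_V ha)).1 ha
  refine ⟨k, e, fun A => app β (e (N A)), h1, ⟨h2.mem, h2.fix, h2.cof, h2.clo, h2.map, h2.com, h3⟩,
    fun A hA => b2 _ (h4 _ (n1 A hA)), fun p hp A hA A' hA' => ?_⟩
  have key : ∀ p ∈ V_ L.rank, ∀ x ∈ L, ∀ y ∈ L, (pair (pair p x) y ∈ nd L ((prod (vC Set.univ L)
      (prod (powerset (vC Set.univ L)) (powerset (vC Set.univ L)))).sep fun z =>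
      P (fst z) (fst (snd z)) (snd (snd z))) β ↔
      P p (app β x) (app β y)) := fun p hp x hx y hy => by
    rw [mem_nd1 hx hy, mem_sep, fst_pair, snd_pair, fst_pair, snd_pair, pair_mem_prod,
      pair_mem_prod, mem_powerset, mem_powerset, and_iff_left (b2 y hy).2,
      and_iff_left (b2 x hx).2, vC_rank hL, and_iff_right hp,
      and_iff_right (h2.clo _ (h2.clo _ hp _ (ord_mem_V hx)) _ (ord_mem_V hy))]
  have x1 := ord_mem_V (n1 A hA)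
  have y1 := ord_mem_V (n1 A' hA')
  have := h2.pre _ (h2.clo _ (h2.clo _ hp _ x1) _ y1)
  rwa [h2.com _ (h2.clo _ hp _ x1) _ y1, h2.com _ hp _ x1, key p hp _ (n1 A hA) _ (n1 A' hA'),
    key _ (h2.map p hp) _ (h4 _ (n1 A hA)) _ (h4 _ (n1 A' hA')), n2 A hA, n2 A' hA'] at this

theorem club_nam {m : Ordinal.{u}} {j : ZFSet.{u} → ZFSet.{u}} {t : ZFSet.{u}} (h : CE m j t)
    (h0 : om ∈ t)
    (hT : ∀ R, OD Set.univ R → (∀ L ∈ R, L ∈ t ∧ CofOmega Set.univ L) → ¬ Null t R →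
      ∃ (S : ZFSet.{u}) (B : ZFSet.{u} → ZFSet.{u}), S ⊆ R ∧ ¬ Null t S ∧
        (∀ X, OD Set.univ X → Null t (S ∩ X) ∨ Null t (S \ X)) ∧
        (∀ x ∈ t, OD Set.univ (B x) ∧ B x ⊆ V_ t.rank) ∧
        Null t (S.sep fun L => ¬ ∀ A, OD Set.univ A → A ⊆ V_ L.rank →
          ∃ x ∈ L, A = B x ∩ V_ L.rank)) :
    ∃ c, Club t c ∧ ∀ L ∈ c, CofOmega Set.univ L → ∀ b ∈ L, ∀ Q, OD Set.univ Q → Nam L Q b := by
  have hl := h.regular h0
  have hu := unc_of_regular hl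
  have : Tm Set.univ On (fun _ => t) := Tm.ofOrd h.ord
  suffices H : ∀ b ∈ t, Null t (t.sep fun L =>
      CofOmega Set.univ L ∧ ∃ Q, OD Set.univ Q ∧ ¬ Nam L Q b) by
    obtain ⟨c, c1, c2⟩ := null_diag hl _ H
    exact ⟨c, c1, fun L hL l1 b hb Q hQ => by_contra fun hn =>
      c2 L (mem_sep.2 ⟨c1.1 hL, b, hb, l1, Q, hQ, hn⟩) hL⟩
  intro b hb
  by_contra hR
  have : Tm Set.univ On (fun _ => b) := Tm.ofOrd (h.ord.mem hb)
  obtain ⟨S, B, s0, s2, s3, b1, b2⟩ := hT _ (od_iff.2 inferInstance)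
    (fun L hL => ⟨(mem_sep.1 hL).1, (mem_sep.1 hL).2.1⟩) hR
  have s1 : ∀ L ∈ S, L ∈ t ∧ CofOmega Set.univ L := fun L hL =>
    ⟨(mem_sep.1 (s0 hL)).1, (mem_sep.1 (s0 hL)).2.1⟩
  obtain ⟨F, f0, f1⟩ := od_choice (C := Set.univ) S (fun L Q => ¬ Nam L Q b)
    fun L hL => (mem_sep.1 (s0 hL)).2.2
  have := Tm.one (C := Set.univ) (A := On) F
  have h1 : ∀ x ∈ t, ∀ y ∈ t, ∃ E, Null t (S.sep fun L => ¬ ∀ p ∈ V_ L.rank,
      (p ∈ E ↔ pair p (pair (B x ∩ V_ L.rank) (B y ∩ V_ L.rank)) ∈ F L)) := fun x hx y hy => by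
    have := od_iff.1 (b1 x hx).1
    have := od_iff.1 (b1 y hy).1
    obtain ⟨E, -, e2⟩ := coh_atom (fun L => (vC Set.univ L).sep fun p =>
      pair p (pair (B x ∩ vC Set.univ L) (B y ∩ vC Set.univ L)) ∈ F L) hl
      (fun _ hx => h.card_lt hx) (fun L hL => vC_rank (h.ord.mem hL) ▸ sep_subset) s1 s2 s3
    refine ⟨E, e2.mono fun L hL hL' => mem_sdiff.2 ⟨(mem_sep.1 hL).1, fun h2 =>
      (mem_sep.1 hL).2 fun p hp => ?_⟩⟩
    have := ZFSet.ext_iff.1 (mem_sep.1 h2).2.2 p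
    simpa only [vC_rank (h.ord.mem hL'), mem_inter, mem_sep, hp, and_true, true_and] using this
  choose! E e1 using h1
  have h2 := null_diag hl (fun x L => ∃ y ∈ L, L ∈ S ∧ ¬ ∀ p ∈ V_ L.rank,
      (p ∈ E x y ↔ pair p (pair (B x ∩ V_ L.rank) (B y ∩ V_ L.rank)) ∈ F L)) fun x hx =>
    null_diag hl _ fun y hy => (e1 x hx y hy).mono fun L hL _ => mem_sep.2 (mem_sep.1 hL).2
  obtain ⟨c, c1, c2⟩ := h.tree_club h0 (B := (V_ t.rank).sep fun w => (∃ a, a ∈ t ∧ w = pair ∅ a) ∨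
    ∃ x, x ∈ t ∧ ∃ y, y ∈ t ∧ ∃ p, w = pair (pair p x) y ∧ p ∈ E x y) sep_subset hb
  obtain ⟨L, l1, l2, l3⟩ := exists_not_null s2 (hu.null_union (hu.null_union b2 h2)
    (show Null t (t.sep fun x => x ∉ c) from ⟨c, c1, fun x hx => (mem_sep.1 hx).2⟩))
  simp only [mem_union, mem_sep, l1, l2, true_and, not_or, not_not, not_exists, not_and] at l3
  obtain ⟨⟨l3, l4⟩, l5⟩ := l3
  have hL := h.ord.mem l2
  have tr := isTransitive_vonNeumann L.rank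
  obtain ⟨k, e, k1, k2⟩ := c2 L l5 (s1 L l1).2
  have h3 : ∀ w ∈ V_ L.rank, (w ∈ nd L (F L) (gr (fun x => B x ∩ V_ L.rank) L) ↔
      w ∈ (V_ t.rank).sep fun w => (∃ a, a ∈ t ∧ w = pair ∅ a) ∨
        ∃ x, x ∈ t ∧ ∃ y, y ∈ t ∧ ∃ p, w = pair (pair p x) y ∧ p ∈ E x y) := fun w hw => by
    rw [nd, mem_sep, mem_sep, vC_rank hL, and_iff_right hw,
      and_iff_right (vonNeumann_subset_of_le (rank_lt_of_mem l2).le hw)]
    refine or_congr ⟨fun ⟨a, ha, e⟩ => ⟨a, h.ord.mem_trans ha l2, e⟩, fun ⟨a, ha, e⟩ =>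
      ⟨a, mem_of_mem_V (h.ord.mem ha) hL (snd_in tr (e ▸ hw)), e⟩⟩ ⟨?_, ?_⟩
    · rintro ⟨x, hx, y, hy, p, rfl, h4⟩
      rw [app_gr hx, app_gr hy] at h4
      exact ⟨x, h.ord.mem_trans hx l2, y, h.ord.mem_trans hy l2, p, rfl,
        (l4 x hx y hy p (fst_in tr (fst_in tr hw))).2 h4⟩
    · rintro ⟨x, hx, y, hy, p, rfl, h4⟩
      replace hx := mem_of_mem_V (h.ord.mem hx) hL (snd_in tr (fst_in tr hw))
      replace hy := mem_of_mem_V (h.ord.mem hy) hL (snd_in tr hw)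
      refine ⟨x, hx, y, hy, p, rfl, ?_⟩
      rw [app_gr hx, app_gr hy]
      exact (l4 x hx y hy p (fst_in tr (fst_in tr hw))).1 h4
  refine f1 L l1 trivial ⟨gr (fun x => B x ∩ V_ L.rank) L, fun A hA => ?_, fun x hx => ?_,
    (presB_iff hL).2 ⟨k, e, k1, k2.mem, k2.fix, k2.cof, k2.clo, k2.map, k2.com, fun w hw => ?_⟩⟩
  · obtain ⟨x, hx, rfl⟩ := l3 A hA.1 (vC_rank hL ▸ hA.2)
    exact ⟨x, hx, app_gr hx⟩
  · have : Tm Set.univ On (fun _ => L) := Tm.ofOrd hL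
    have := od_iff.1 (b1 x (h.ord.mem_trans hx l2)).1
    rw [app_gr hx, ← vC_rank hL]
    exact ⟨od_iff.2 inferInstance, fun z hz => (mem_inter.1 hz).2⟩
  · rw [h3 w hw, h3 _ (k2.map w hw), k2.pre w hw]

end Pool.Agent.MP_ecfd11_lc.H3U
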