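import Pool.Agent.MP_ecfd11_lc.H3U.Main

/-!
The property `Berk` covers the hereditarily ordinal definable part of `V_(l+1)`.
-/

namespace Pool.Agent.MP_ecfd11_lc.H3U

open Pool.Agent.MP_ecfd11_lc.H20 Pool.Agent.MP_ecfd11_lc.H13X

universe u

open ZFSet Cardinal Order Function

/-- `Berk` applies to `HOD ∩ V_(l+1)`. -/
theorem Berk.hod {l b Y : ZFSet.{u}} (h : Berk l) (hb : b ∈ l) (y0 : OD Set.univ Y) (y1 : Y ≠ ∅)
    (y2 : card Y < card l) :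
    ∃ (j : ZFSet.{u} → ZFSet.{u}) (k : ZFSet.{u}),
      (∀ A ∈ Y, Emb ((V_ (succ l.rank)).sep (HOD Set.univ)) A j) ∧ b ∈ k ∧ k ∈ l ∧
      (∀ a ∈ k, j a = a) ∧ (∀ a ∈ l, j a ∈ l) ∧ ∀ c ∈ l, ∃ m, c ∈ j^[m] k := by
  have : Tm Set.univ On (fun _ => l) := Tm.ofOrd h.1
  have : Tm Set.univ On (fun _ => b) := Tm.ofOrd (h.1.mem hb)
  have : Tm Set.univ On (fun _ => V_ l.rank) := vC_rank h.1 ▸ inferInstance
  have e0 : V_ (succ l.rank) = powerset (V_ l.rank) := by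
    ext x; rw [mem_vonNeumann, mem_powerset, subset_vonNeumann, lt_succ_iff]
  rw [e0]
  obtain ⟨M, hM⟩ : ∃ M, M = (powerset (V_ l.rank)).sep fun x => HOD Set.univ x := ⟨_, rfl⟩
  have : Tm Set.univ On (fun _ => M) := hM ▸ inferInstance
  obtain ⟨n, n0, hn⟩ := od_rank M fun x hx => (mem_sep.1 (hM ▸ hx)).2.self
  obtain ⟨c, c0, c1, c2⟩ := exists_quot (C := Set.univ) M n0 hn fun x => x
  have := Tm.one (C := Set.univ) (A := On) c
  obtain ⟨i, i0, i1⟩ := ((DInj.inv (C := Set.univ) (a := M) (b := img c M) c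
    (fun x hx y hy => (c2 x hx y hy).1) fun y hy => mem_img.1 hy).trans
    (DInj.of_subset (b := powerset (V_ l.rank)) (hM ▸ sep_subset))).exists_od c1
  exact hM ▸ h.2 _ M (gr (fun x => pair b (c x)) M) Y b c1 (Or.inr ⟨i, i0, i1⟩)
    (fun x hx => hM ▸ mem_sep.2 ⟨mem_powerset.2 fun y hy => ord_mem_V (h.1.mem_trans hy hx),
      hod_ord (h.1.mem hx)⟩) (od_iff.2 inferInstance)
    ⟨isFunc_gr fun x hx => pair_mem_prod.2 ⟨ord_mem_V hb, mem_img.2 ⟨x, hx, rfl⟩⟩,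
      fun x x' y h1 h2 => (c2 x (pair_mem_gr.1 h1).1 x' (pair_mem_gr.1 h2).1).1
        (pair_inj.1 ((pair_mem_gr.1 h1).2.trans (pair_mem_gr.1 h2).2.symm)).2⟩ y0 y1 y2 hb

end Pool.Agent.MP_ecfd11_lc.H3U
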