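import Pool.Agent.MP_ecfd11_lc.H3U.Lub
import Pool.Agent.MP_ecfd11_lc.H3U.Stop

/-!
Counting in HOD below a strongly measurable cardinal, and definable trees.
-/

set_option synthInstance.maxSize 4000

namespace Pool.Agent.MP_ecfd11_lc.H3U

open Pool.Agent.MP_ecfd11_lc.H20 Pool.Agent.MP_ecfd11_lc.H13X

universe u

open ZFSet Cardinal Function Filter

variable {S t d : ZFSet.{u}}

/-- A definable set of definable sets is definably enumerated by an ordinal. -/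
theorem od_enum {X : ZFSet.{u}} (h0 : OD Set.univ X) (h : ∀ x ∈ X, OD Set.univ x) :
    ∃ k : ZFSet.{u} → ZFSet.{u}, Tm Set.univ On (fun v => k (v 0)) ∧ (img k X).IsOrdinal ∧
      ∀ x ∈ X, ∀ y ∈ X, k x = k y → x = y := by
  have := od_iff.1 h0
  obtain ⟨n, hn, hr⟩ := od_rank X h
  obtain ⟨k, k0, k1, k2⟩ := exists_quot (C := Set.univ) X hn hr fun y => y
  exact ⟨k, k0, k1, fun x hx y hy => (k2 x hx y hy).1⟩

theorem few_sub (hs : StronglyMeasurable Set.univ t) {X : ZFSet.{u}} (h0 : OD Set.univ X)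
    (h : ∀ x ∈ X, OD Set.univ x) (hX : card X < card t) :
    card ((powerset X).sep fun A => OD Set.univ A) < card t := by
  have := od_iff.1 h0
  obtain ⟨k, k0, k1, k2⟩ := od_enum h0 h
  have := Tm.one (C := Set.univ) (A := On) k
  have hk := hs.1.mem_of_card_lt k1 ((card_img_le _ _).trans_lt hX)
  obtain ⟨r, r0, r1, r2⟩ := od_enum (X := (powerset X).sep fun A => OD Set.univ A)
    (od_iff.2 inferInstance) fun x hx => (mem_sep.1 hx).2
  refine (card_le_of_inj r (fun x hx => mem_img.2 ⟨x, hx, rfl⟩) r2).trans_lt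
    (hs.1.card_lt ((r1.mem_or_subset hs.1.1).resolve_right fun h1 => ?_))
  obtain ⟨F, f0, f1, f2⟩ := DInj.inv (C := Set.univ) (b := t) r r2 fun y hy => mem_img.1 (h1 hy)
  have := Tm.one (C := Set.univ) (A := On) F
  have h2 : ∀ x ∈ t, img k (F x) ⊆ img k X := fun x hx z hz => by
    obtain ⟨y, hy, rfl⟩ := mem_img.1 hz
    exact mem_img.2 ⟨y, mem_powerset.1 (mem_sep.1 (f1 x hx)).1 hy, rfl⟩
  obtain ⟨c, b, c1, c2, c3⟩ := few_values (C := Set.univ) hs.1.1 k1 (no_inj_of_sm hs hk)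
    (fun x => img k (F x)) h2
  refine (hs.1.card_lt c1).not_ge (card_le_of_inj c c2 fun x hx y hy e => f2 x hx y hy ?_)
  have h3 : ∀ x ∈ t, ∀ y ∈ t, img k (F x) = img k (F y) → ∀ z ∈ F x, z ∈ F y :=
    fun x hx y hy e z hz => by
      obtain ⟨w, hw, e'⟩ := mem_img.1 (e ▸ mem_img.2 ⟨z, hz, rfl⟩ : k z ∈ img k (F y))
      exact k2 w (mem_powerset.1 (mem_sep.1 (f1 y hy)).1 hw) z
        (mem_powerset.1 (mem_sep.1 (f1 x hx)).1 hz) e' ▸ hw
  have e' := (c3 x hx y hy).1 e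
  exact ZFSet.ext fun z => ⟨h3 x hx y hy e' z, h3 y hy x hx e'.symm z⟩

theorem few_hod (hs : StronglyMeasurable Set.univ t) {a : ZFSet.{u}} (ha : a ∈ t) :
    card ((powerset (vC Set.univ a)).sep fun A => HOD Set.univ A) < card t := by
  have ht := hs.1
  induction a using ZFSet.inductionOn with
  | _ a ih =>
  have ao := ht.1.mem ha
  have : Tm Set.univ On (fun _ => a) := Tm.ofOrd ao
  obtain ⟨b, b1, b2⟩ := ht.bddV (ht.card_lt ha) (fun i => (card ((powerset (vC Set.univ i)).sep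
    fun A => HOD Set.univ A)).ord.toZFSet) fun i hi => ht.mem_of_card_lt (isOrdinal_toZFSet _)
      (by rw [card_ord']; exact ih i hi (ht.1.mem_trans hi ha))
  refine lt_of_le_of_lt (card_mono fun A hA => ?_) (few_sub hs
    (X := (vC Set.univ a).sep fun A => HOD Set.univ A) (od_iff.2 inferInstance)
    (fun x hx => (mem_sep.1 hx).2.self) (lt_of_le_of_lt ((card_mono fun x hx => ?_).trans
      (card_sUnion_img_le (F := fun i => (powerset (vC Set.univ i)).sep fun A => HOD Set.univ A)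
        (x := a) (k := card b) fun i hi => ?_))
      (mul_lt_of_lt ht.aleph0_lt.le (ht.card_lt ha) (ht.card_lt b1))))
  · obtain ⟨h1, h2⟩ := mem_sep.1 hA
    exact mem_sep.2 ⟨mem_powerset.2 fun z hz => mem_sep.2 ⟨mem_powerset.1 h1 hz, h2.mem hz⟩,
      h2.self⟩
  · obtain ⟨h1, h2⟩ := mem_sep.1 hx
    have h3 : (rank x).toZFSet ∈ a := ((isOrdinal_toZFSet _).rank_lt_iff_mem ao).1
      (by rw [Ordinal.rank_toZFSet]; exact (mem_vC_ord ao).1 h1)
    refine mem_sUnion.2 ⟨_, mem_img.2 ⟨_, h3, rfl⟩, mem_sep.2 ⟨mem_powerset.2 fun z hz =>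
      (mem_vC_ord (isOrdinal_toZFSet _)).2 ?_, h2⟩⟩
    rw [Ordinal.rank_toZFSet]
    exact rank_lt_of_mem hz
  · have := card_mono ((ht.1.mem b1).subset_of_mem (b2 i hi))
    rwa [card_ord'] at this

theorem fr_piece' (ht : Regular Set.univ t) {X : ZFSet.{u}} (hX : card X < card t)
    (g : ZFSet.{u} → ZFSet.{u}) {p : ZFSet.{u} → Prop}
    (h : ∃ᶠ L in cf S (unc_of_regular ht), p L) (h' : ∀ L, p L → g L ∈ X) :
    ∃ y ∈ X, ∃ᶠ L in cf S (unc_of_regular ht), p L ∧ g L = y := by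
  by_contra h0
  simp only [not_exists, not_and, not_frequently] at h0
  obtain ⟨L, h1, h2⟩ := (h.and_eventually (ev_ball ht hX h0)).exists
  exact h2 _ (h' L h1) h1 rfl

/-- A definable tree whose levels definably inject into `m` has a node that does not split. -/
theorem stop_od (ht : Regular Set.univ t) {O m n : ZFSet.{u}} (hO : OD Set.univ O)
    (hO' : ∀ A ∈ O, OD Set.univ A) (Q : ZFSet.{u} → ZFSet.{u} → Prop)
    [Df Set.univ On (fun v => Q (v 0) (v 1))] (q0 : ∀ a ∈ t, ∀ y, Q a y → y ∈ O)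
    (q1 : ∀ a ∈ t, ∀ c ∈ t, a ⊆ c → ∀ y, Q c y → Q a (y ∩ vC Set.univ a))
    (q2 : ∀ a ∈ t, ∀ c ∈ t, a ⊆ c → ∀ y, Q a y → ∃ w, Q c w ∧ w ∩ vC Set.univ a = y)
    (q3 : ∀ a ∈ t, ∃ y, Q a y) (hm : m ∈ t) (q4 : ∀ a ∈ t, DInj Set.univ (O.sep (Q a)) m)
    (hn : n ∈ t) (q5 : ¬ DInj Set.univ n m) :
    ∃ a ∈ t, ∃ y, Q a y ∧ ∀ c ∈ t, a ⊆ c → ∀ w w', Q c w → Q c w' →
      w ∩ vC Set.univ a = y → w' ∩ vC Set.univ a = y → w = w' := by
  have := od_iff.1 hO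
  have : Tm Set.univ On (fun _ => t) := Tm.ofOrd ht.1
  have := Df.two (C := Set.univ) (A := On) Q
  by_contra h0
  obtain ⟨P, hP⟩ : ∃ P : ZFSet.{u} → ZFSet.{u} → ZFSet.{u} → Prop, P = fun a y c => a ⊆ c ∧
    ∃ w w', Q c w ∧ Q c w' ∧ w ∩ vC Set.univ a = y ∧ w' ∩ vC Set.univ a = y ∧ w ≠ w' := ⟨_, rfl⟩
  have : Df Set.univ On (fun v => P (v 0) (v 1) (v 2)) := by rw [hP]; infer_instance
  have := Df.three' (C := Set.univ) P
  have h1 : ∀ a y, ∃ c ∈ t, a ∈ t → Q a y → P a y c := fun a y => by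
    by_cases e : a ∈ t ∧ Q a y
    · by_contra h1
      refine h0 ⟨a, e.1, y, e.2, fun c hc h2 w w' w1 w2 w3 w4 => by_contra fun h3 =>
        h1 ⟨c, hc, fun _ _ => ?_⟩⟩
      rw [hP]
      exact ⟨h2, w, w', w1, w2, w3, w4, h3⟩
    · exact ⟨m, hm, fun h1 h2 => absurd ⟨h1, h2⟩ e⟩
  choose C c1 c2 using h1
  choose! N n1 n2 using fun a (ha : a ∈ t) =>
    ht.bddV ((q4 a ha).card_le.trans_lt (ht.card_lt hm)) (C a) fun y _ => c1 a y
  obtain ⟨E, hE⟩ : ∃ E, E = t.sep fun e => ∀ a, a ∈ e → ∀ y, Q a y → ∃ c, c ∈ e ∧ P a y c :=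
    ⟨_, rfl⟩
  have : Tm Set.univ On (fun _ => E) := hE ▸ inferInstance
  have e1 : E ⊆ t := hE ▸ sep_subset
  have e3 : ∀ e ∈ E, ∀ a ∈ e, ∀ y, Q a y → ∃ c ∈ e, P a y c := fun e he => by
    rw [hE] at he
    exact (mem_sep.1 he).2
  have e2 : ∀ b ∈ t, ∃ e ∈ E, b ∈ e := fun b hb => by
    obtain ⟨e, h1, h2, h3⟩ := ht.exists_closed N n1 hb
    refine ⟨e, hE ▸ mem_sep.2 ⟨h1, fun a ha y hy => ?_⟩, h2⟩
    have hat := ht.1.mem_trans ha h1
    exact ⟨C a y, (ht.1.mem h1).mem_trans (n2 a hat y (mem_sep.2 ⟨q0 a hat y hy, hy⟩)) (h3 a ha),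
      c2 a y hat hy⟩
  have eo : ∀ z ∈ E, z.IsOrdinal := fun z hz => ht.1.mem (e1 hz)
  obtain ⟨F, f0, f1, f2⟩ := DInj.inv (C := Set.univ) (a := E) (b := n) (fun x => colIn E x)
    (fun x hx y hy => colIn_inj eo hx hy) fun y hy => mem_img.1
      (((img_colIn_ord eo).mem_or_subset ht.1).resolve_left (fun h => by
        obtain ⟨b, b1, b2⟩ := ht.bddV ((card_le_of_inj (colIn E) (fun x hx => mem_img.2
          ⟨x, hx, rfl⟩) fun x hx y hy => colIn_inj eo hx hy).trans_lt (ht.card_lt h))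
          (fun x => x) e1
        obtain ⟨e, h1, h2⟩ := e2 b b1
        exact mem_asymm h2 (b2 e h1)) (ht.1.mem_trans hy hn))
  have := Tm.one (C := Set.univ) (A := On) F
  obtain ⟨b1, b2, b3⟩ := ht.bddV (ht.card_lt hn) F fun i hi => e1 (f1 i hi)
  obtain ⟨b, b4, b5⟩ := e2 b1 b2
  have hb := e1 b4
  have bo := eo b b4
  have : Tm Set.univ On (fun _ => b) := Tm.ofOrd bo
  obtain ⟨y, hy⟩ := q3 b hb
  have := od_iff.1 (hO' y (q0 b hb y hy))
  obtain ⟨w, w0, w1⟩ := od_choice (C := Set.univ) b (fun e w => Q b w ∧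
      w ∩ vC Set.univ e = y ∩ vC Set.univ e ∧ ∀ e', e' ∈ E → e ∈ e' →
        w ∩ vC Set.univ e' ≠ y ∩ vC Set.univ e') fun e he => by
    have het := ht.1.mem_trans he hb
    have h1 := q1 e het b hb (bo.subset_of_mem he) y hy
    obtain ⟨c0, c3, c4⟩ := e3 b b4 e he _ h1
    obtain ⟨c, ⟨c5, c6⟩, c7⟩ := exists_min_mem
      (p := fun c => c ∈ b ∧ P e (y ∩ vC Set.univ e) c) ⟨c3, c4⟩
    have co := bo.mem c5
    have hct := ht.1.mem_trans c5 hb
    have h2 := c6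
    rw [hP] at h2
    obtain ⟨h2, u, u', u1, u2, u3, u4, u5⟩ := h2
    obtain ⟨x, x1, x2, x3⟩ : ∃ x, Q c x ∧ x ∩ vC Set.univ e = y ∩ vC Set.univ e ∧
        x ≠ y ∩ vC Set.univ c := by
      by_cases h : u = y ∩ vC Set.univ c
      exacts [⟨u', u2, u4, fun h' => u5 (h.trans h'.symm)⟩, ⟨u, u1, u3, h⟩]
    obtain ⟨z, z1, z2⟩ := q2 c hct b hb (bo.subset_of_mem c5) x x1
    refine ⟨z, hO' z (q0 b hb z z1), z1,
      by rw [← x2, ← z2, inter_inter (vC_mono (bo.mem he) co h2)], fun e' h3 h4 h5 => x3 ?_⟩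
    obtain ⟨c', c8, c9⟩ := e3 e' h3 e h4 _ h1
    have h6 : c ⊆ e' := fun s hs => (eo e' h3).mem_trans (((eo e' h3).mem c8).notMem_iff_subset co
      |>.1 (fun h => c7 c' h ⟨bo.mem_trans h c5, c9⟩) hs) c8
    have h7 := vC_mono co (eo e' h3) h6
    rw [← z2, ← inter_inter h7, h5, inter_inter h7]
  replace w1 := fun e he => w1 e he trivial
  have := Tm.one (C := Set.univ) (A := On) w
  have h1 : ∀ i ∈ n, F i ∈ b := fun i hi => bo.mem_trans (b3 i hi) b5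
  refine q5 (DInj.trans ⟨fun i => w (F i), inferInstance, fun i hi => mem_sep.2
    ⟨q0 b hb _ (w1 _ (h1 i hi)).1, (w1 _ (h1 i hi)).1⟩, fun i hi j hj e => f2 i hi j hj ?_⟩
    (q4 b hb))
  dsimp only at e
  rcases (eo _ (f1 i hi)).mem_trichotomous (eo _ (f1 j hj)) with h | h | h
  exacts [absurd (e ▸ (w1 _ (h1 j hj)).2.1) ((w1 _ (h1 i hi)).2.2 _ (f1 j hj) h), h,
    absurd (e ▸ (w1 _ (h1 i hi)).2.1) ((w1 _ (h1 j hj)).2.2 _ (f1 i hi) h)]

end Pool.Agent.MP_ecfd11_lc.H3U
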