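import Pool.Agent.MP_ecfd11_lc.Df

/-!
Well-founded ultrapowers of a transitive class and their transitive collapse.
-/

namespace Pool.Agent.MP_ecfd11_lc.H3U

universe u v

open ZFSet Filter

theorem ultrapower {ι : Type v} (F : Filter ι) [F.NeBot] [CountableInterFilter F]
    {H : Set ZFSet.{u}} (hH : ∀ x ∈ H, ∀ y ∈ x, y ∈ H) (G : Set (ι → ZFSet.{u}))
    (g1 : ∀ p ∈ G, ∀ᶠ i in F, p i ∈ H)
    (dec : ∀ (φ : Fml) (p : ℕ → ι → ZFSet.{u}), (∀ n, p n ∈ G) →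
      (∀ᶠ i in F, Sat H φ fun n => p n i) ∨ ∀ᶠ i in F, ¬ Sat H φ fun n => p n i)
    (wit : ∀ (φ : Fml) (p : ℕ → ι → ZFSet.{u}), (∀ n, p n ∈ G) → ∃ q ∈ G, ∀ᶠ i in F,
      Sat H φ (cons (q i) fun n => p n i) → ∀ z ∈ H, Sat H φ (cons z fun n => p n i))
    (small : ∀ p ∈ G, ∃ (X : ZFSet.{u}) (r : ZFSet.{u} → ι → ZFSet.{u}), ∀ q ∈ G,
      (∀ᶠ i in F, q i ∈ p i) → ∃ x ∈ X, r x ∈ G ∧ ∀ᶠ i in F, r x i = q i) :
    ∃ c : (ι → ZFSet.{u}) → ZFSet.{u},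
      (∀ p ∈ G, ∀ z, z ∈ c p ↔ ∃ q ∈ G, (∀ᶠ i in F, q i ∈ p i) ∧ c q = z) ∧
      ∀ (φ : Fml) (p : ℕ → ι → ZFSet.{u}), (∀ n, p n ∈ G) →
        (Sat (c '' G) φ (fun n => c (p n)) ↔ ∀ᶠ i in F, Sat H φ fun n => p n i) := by
  let E : (ι → ZFSet.{u}) → (ι → ZFSet.{u}) → Prop := fun q p => q ∈ G ∧ ∀ᶠ i in F, q i ∈ p i
  have wf : WellFounded E := by
    rw [wellFounded_iff_isEmpty_descending_chain]
    refine ⟨fun ⟨P, hP⟩ => ?_⟩
    obtain ⟨i, hi⟩ := (eventually_countable_forall.2 fun n => (hP n).2).exists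
    exact (wellFounded_iff_isEmpty_descending_chain.1 mem_wf).false ⟨fun n => P n i, hi⟩
  choose! X r hr using small
  obtain ⟨c, hc⟩ : ∃ c : (ι → ZFSet.{u}) → ZFSet.{u}, ∀ p z,
      z ∈ c p ↔ ∃ x ∈ X p, E (r p x) p ∧ c (r p x) = z := by
    refine ⟨wf.fix fun p ih => range fun x : (X p).sep fun x => E (r p x) p =>
      ih (r p x) (mem_sep.1 x.2).2, fun p z => ?_⟩
    rw [WellFounded.fix_eq, mem_range]
    exact ⟨fun ⟨x, h⟩ => ⟨x, (mem_sep.1 x.2).1, (mem_sep.1 x.2).2, h⟩,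
      fun ⟨x, h1, h2, h3⟩ => ⟨⟨x, mem_sep.2 ⟨h1, h2⟩⟩, h3⟩⟩
  have c1 : ∀ p, p ∈ G → ∀ p' ∈ G, (∀ᶠ i in F, p i = p' i) → c p = c p' := fun p => by
    induction p using wf.induction with
    | _ p ih =>
      intro hp p' hp' e
      ext z
      rw [hc, hc]
      constructor
      · rintro ⟨x, -, h1, rfl⟩
        have h2 : ∀ᶠ i in F, r p x i ∈ p' i := by
          filter_upwards [h1.2, e] with i h3 h4 using h4 ▸ h3
        obtain ⟨y, y1, y2, y3⟩ := hr p' hp' _ h1.1 h2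
        exact ⟨y, y1, ⟨y2, by filter_upwards [h2, y3] with i h3 h4 using h4 ▸ h3⟩,
          (ih _ h1 h1.1 _ y2 (y3.mono fun _ h => h.symm)).symm⟩
      · rintro ⟨x, -, h1, rfl⟩
        have h2 : ∀ᶠ i in F, r p' x i ∈ p i := by
          filter_upwards [h1.2, e] with i h3 h4 using h4 ▸ h3
        obtain ⟨y, y1, y2, y3⟩ := hr p hp _ h1.1 h2
        have h3 : E (r p y) p := ⟨y2, by filter_upwards [h2, y3] with i h3 h4 using h4 ▸ h3⟩
        exact ⟨y, y1, h3, ih _ h3 y2 _ h1.1 y3⟩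
  have c2 : ∀ p ∈ G, ∀ z, z ∈ c p ↔ ∃ q ∈ G, (∀ᶠ i in F, q i ∈ p i) ∧ c q = z := fun p hp z => by
    rw [hc]
    refine ⟨fun ⟨x, _, h1, h2⟩ => ⟨_, h1.1, h1.2, h2⟩, ?_⟩
    rintro ⟨q, q1, q2, rfl⟩
    obtain ⟨y, y1, y2, y3⟩ := hr p hp q q1 q2
    exact ⟨y, y1, ⟨y2, by filter_upwards [q2, y3] with i h3 h4 using h4 ▸ h3⟩, c1 _ y2 _ q1 y3⟩
  have cm : ∀ {q : ι → ZFSet.{u}} {p : ℕ → ι → ZFSet.{u}}, q ∈ G → (∀ n, p n ∈ G) →
      ∀ n, (Nat.casesOn n q p : ι → ZFSet.{u}) ∈ G := fun hq hp n => by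
    cases n
    exacts [hq, hp _]
  have c3 : ∀ p, p ∈ G → ∀ p' ∈ G, c p = c p' → ∀ᶠ i in F, p i = p' i := fun p => by
    induction p using wf.induction with
    | _ p ih =>
      intro hp p' hp' e
      obtain ⟨q, q1, q2⟩ := wit (.and (.neg (.and (.mem 0 1) (.neg (.mem 0 2))))
        (.neg (.and (.mem 0 2) (.neg (.mem 0 1))))) (fun n => Nat.casesOn n p fun _ => p')
        (cm hp fun _ => hp')
      have h1 : ∀ᶠ i in F, (q i ∈ p i ↔ q i ∈ p' i) := by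
        rcases dec (.mem 0 1) (fun n => Nat.casesOn n q fun _ => p) (cm q1 fun _ => hp)
          with h1 | h1
        · obtain ⟨q', h2, h3, h4⟩ := (c2 p' hp' _).1 (e ▸ (c2 p hp _).2 ⟨q, q1, h1, rfl⟩)
          filter_upwards [h1, h3, ih q ⟨q1, h1⟩ q1 q' h2 h4.symm] with i h5 h6 h7 using
            iff_of_true h5 (h7 ▸ h6)
        · rcases dec (.mem 0 1) (fun n => Nat.casesOn n q fun _ => p') (cm q1 fun _ => hp')
            with h2 | h2
          · obtain ⟨q', h3, h4, h5⟩ := (c2 p hp _).1 (e ▸ (c2 p' hp' _).2 ⟨q, q1, h2, rfl⟩)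
            filter_upwards [h1, h4, ih q' ⟨h3, h4⟩ h3 q q1 h5] with i h6 h7 h8 using
              absurd (h8 ▸ h7 : q i ∈ p i) h6
          · filter_upwards [h1, h2] with i h3 h4 using iff_of_false h3 h4
      filter_upwards [q2, h1, g1 p hp, g1 p' hp'] with i h2 h3 h4 h5
      replace h2 := h2 ⟨fun h => h.2 (h3.1 h.1), fun h => h.2 (h3.2 h.1)⟩
      ext z
      exact ⟨fun h => not_not.1 fun h' => (h2 z (hH _ h4 z h)).1 ⟨h, h'⟩,
        fun h => not_not.1 fun h' => (h2 z (hH _ h5 z h)).2 ⟨h, h'⟩⟩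
  refine ⟨c, c2, fun φ => ?_⟩
  induction φ with
  | mem i j =>
    intro p hp
    refine (c2 _ (hp j) _).trans ⟨?_, fun h => ⟨_, hp i, h, rfl⟩⟩
    rintro ⟨q, q1, q2, q3⟩
    filter_upwards [q2, c3 q q1 _ (hp i) q3] with k h1 h2
    exact (h2 ▸ h1 : p i k ∈ p j k)
  | eq i j => exact fun p hp => ⟨c3 _ (hp i) _ (hp j), c1 _ (hp i) _ (hp j)⟩
  | neg φ ih =>
    intro p hp
    refine (not_congr (ih p hp)).trans ⟨(dec φ p hp).resolve_left, fun h1 h2 => ?_⟩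
    obtain ⟨i, h3, h4⟩ := (h1.and h2).exists
    exact h3 h4
  | and φ ψ ih1 ih2 => exact fun p hp => (and_congr (ih1 p hp) (ih2 p hp)).trans eventually_and.symm
  | all φ ih =>
    intro p hp
    have key : ∀ q ∈ G, (Sat (c '' G) φ (cons (c q) fun n => c (p n)) ↔
        ∀ᶠ i in F, Sat H φ (cons (q i) fun n => p n i)) := fun q hq => by
      have := ih (fun n => Nat.casesOn n q p) (cm hq hp)
      have e1 : (fun n => c (Nat.casesOn n q p)) = cons (c q) fun n => c (p n) :=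
        funext fun n => by cases n <;> rfl
      have e2 : ∀ i, (fun n => (Nat.casesOn n q p : ι → ZFSet.{u}) i) =
          cons (q i) fun n => p n i := fun i => funext fun n => by cases n <;> rfl
      simpa only [e1, e2] using this
    constructor
    · intro h
      obtain ⟨q, q1, q2⟩ := wit φ p hp
      filter_upwards [q2, (key q q1).1 (h _ ⟨q, q1, rfl⟩)] with i h1 h2 using h1 h2
    · rintro h _ ⟨q, hq, rfl⟩
      refine (key q hq).2 ?_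
      filter_upwards [h, g1 q hq] with i h1 h2 using h1 _ h2

end Pool.Agent.MP_ecfd11_lc.H3U
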