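import Pool.Agent.MP_ecfd11_lc.H3U.SConv
import Pool.Agent.MP_ecfd11_lc.H3U.SUlt

/-!
A countably complete embedding between levels of HOD extends to an embedding of HOD into a
transitive class.
-/

set_option synthInstance.maxSize 4000

namespace Pool.Agent.MP_ecfd11_lc.H3U

open Pool.Agent.MP_ecfd11_lc.H20 Pool.Agent.MP_ecfd11_lc.H13X

universe u

open ZFSet Cardinal Function Filter

/-- The set `HOD ∩ V_a`. -/
noncomputable def low (a : ZFSet.{u}) : ZFSet.{u} := (vC Set.univ a).sep (HOD Set.univ)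

/-- Countable completeness of the extender of `s`. -/
def Thread (a : ZFSet.{u}) (s : ZFSet.{u} → ZFSet.{u}) : Prop :=
  ∀ A y : ℕ → ZFSet.{u}, (∀ k, A k ∈ Lev a ∧ y k ∈ s (A k)) → ∃ z : ℕ → ZFSet.{u},
    (∀ k, z k ∈ A k) ∧ (∀ m n, y m = y n → z m = z n) ∧
      ∀ m n k, y m = pair (y n) (y k) → z m = pair (z n) (z k)

variable {a t x y A : ZFSet.{u}} {s : ZFSet.{u} → ZFSet.{u}}

theorem mem_low (ha : a.IsOrdinal) : x ∈ low a ↔ rank x < rank a ∧ HOD Set.univ x := by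
  rw [low, mem_sep, mem_vC_ord ha]

theorem low_tr (ha : a.IsOrdinal) (h1 : y ∈ x) (h2 : x ∈ low a) : y ∈ low a :=
  (mem_low ha).2 ⟨(rank_lt_of_mem h1).trans ((mem_low ha).1 h2).1, ((mem_low ha).1 h2).2.mem h1⟩

theorem sub_low (ha : a.IsOrdinal) (h : A ∈ Lev a) : A ⊆ low a := fun _ hz =>
  mem_sep.2 ⟨((mem_Lev ha).1 h).1 hz, ((mem_Lev ha).1 h).2.mem hz⟩

theorem lev_of_sub (ha : a.IsOrdinal) (h1 : A ⊆ low a) (h2 : Tm Set.univ On fun _ => A) :
    A ∈ Lev a :=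
  (mem_Lev ha).2 ⟨fun _ hz => (mem_sep.1 (h1 hz)).1,
    hereditarily_iff.2 ⟨od_iff.2 h2, fun _ hz => (mem_sep.1 (h1 hz)).2⟩⟩

theorem tm_low (ha : a.IsOrdinal) : Tm Set.univ On fun _ => low a := by
  have : Tm Set.univ On (fun _ => a) := Tm.ofOrd ha
  unfold low; infer_instance

theorem low_lev (ha : a.IsOrdinal) : low a ∈ Lev a := lev_of_sub ha subset_rfl (tm_low ha)

theorem low_upair (ha : a.IsOrdinal) (la : ∀ b ∈ a, ∃ c ∈ a, b ∈ c) (hx : x ∈ low a)
    (hy : y ∈ low a) : {x, y} ∈ low a := by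
  obtain ⟨x1, x2⟩ := (mem_low ha).1 hx
  obtain ⟨y1, y2⟩ := (mem_low ha).1 hy
  obtain ⟨b, b1, b2⟩ := exists_level ha la x1
  obtain ⟨c, c1, c2⟩ := exists_level ha la y1
  refine (mem_low ha).2 ⟨?_, hod_upair x2 y2⟩
  rw [rank_pair]
  exact max_lt ((Order.succ_le_of_lt b2).trans_lt (rank_lt_of_mem b1))
    ((Order.succ_le_of_lt c2).trans_lt (rank_lt_of_mem c1))

theorem low_pair (ha : a.IsOrdinal) (la : ∀ b ∈ a, ∃ c ∈ a, b ∈ c) (hx : x ∈ low a)
    (hy : y ∈ low a) : pair x y ∈ low a := by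
  have h := low_upair ha la hx hx
  rw [pair_eq_singleton] at h
  exact low_upair ha la h (low_upair ha la hx hy)

theorem Ext.low (he : Ext a t s) (ht : t.IsOrdinal) (hat : a ∈ t) : s (low a) = low t := by
  have ha := ht.mem hat
  ext z
  refine ⟨fun h => sub_low ht (he.1 _ (low_lev ha)) h, fun h => not_not.1 fun h1 => ?_⟩
  exact (he.2.1 (.all (.all (.neg (.and (.mem 0 1) (.neg (.mem 0 2)))))) (fun _ => H3U.low a)
    fun _ => low_lev ha).1 (fun x hx y _ h2 => h2.2 (sub_low ha hx h2.1)) _ (low_lev ht) z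
    ((lev_tr t).mem_trans h (low_lev ht)) ⟨h, h1⟩

theorem exists_filter (he : Ext a t s) (ht : t.IsOrdinal) (hat : a ∈ t)
    (lt : ∀ b ∈ t, ∃ c ∈ t, b ∈ c) (hc : Thread a s) :
    ∃ F : Filter (ZFSet.{u} → ZFSet.{u}), F.NeBot ∧ CountableInterFilter F ∧
      (∀ A ∈ Lev a, ∀ x ∈ s A, ∀ᶠ h in F, h x ∈ A) ∧
      ∀ x ∈ low t, ∀ y ∈ low t, ∀ᶠ h in F, h (pair x y) = pair (h x) (h y) := by
  have ha := ht.mem hat
  refine ⟨countableGenerate {X | ∃ A x y, A ∈ Lev a ∧ x ∈ s A ∧ y ∈ low t ∧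
    X = {h | h x ∈ A ∧ h (pair x y) = pair (h x) (h y)}}, ⟨fun e => ?_⟩, inferInstance,
    fun A hA x hx => ?_, fun x hx y hy => ?_⟩
  · obtain ⟨S, s1, s2, s3⟩ := mem_countableGenerate_iff.1 (empty_mem_iff_bot.2 e)
    rcases S.eq_empty_or_nonempty with rfl | h
    · exact s3 (a := id) (by simp)
    obtain ⟨g, rfl⟩ := s2.exists_eq_range h
    choose A x y h1 h2 h3 h4 using fun k => s1 (Set.mem_range_self k)
    let e := Denumerable.eqv (ℕ ⊕ ℕ ⊕ ℕ)
    obtain ⟨w, hw⟩ : ∃ w : ℕ → ZFSet.{u},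
      w = Sum.elim x (Sum.elim y fun k => pair (x k) (y k)) ∘ e.symm := ⟨_, rfl⟩
    have w1 : ∀ k, w (e (.inl k)) = x k := fun k => by simp [hw]
    have w2 : ∀ k, w (e (.inr (.inl k))) = y k := fun k => by simp [hw]
    have w3 : ∀ k, w (e (.inr (.inr k))) = pair (x k) (y k) := fun k => by simp [hw]
    obtain ⟨z, z1, z2, z3⟩ := hc (Sum.elim A (fun _ => low a) ∘ e.symm) w fun k => by
      obtain ⟨k, rfl⟩ := e.surjective k
      rcases k with k | k | k
      · simpa [w1] using And.intro (h1 k) (h2 k)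
      · simpa [w2, he.low ht hat] using And.intro (low_lev ha) (h3 k)
      · simpa [w3, he.low ht hat] using And.intro (low_lev ha)
          (low_pair ht lt (sub_low ht (he.1 _ (h1 k)) (h2 k)) (h3 k))
    have h5 : ∀ k, extend w z id (w k) = z k := FactorsThrough.extend_apply (fun m n => z2 m n) id
    refine s3 (a := extend w z id) ?_
    rintro _ ⟨k, rfl⟩
    rw [h4 k]
    refine ⟨?_, ?_⟩
    · rw [← w1, h5]
      simpa using z1 (e (.inl k))
    · rw [← w3, h5, ← w1, h5, ← w2, h5]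
      exact z3 _ _ _ (by rw [w1, w2, w3])
  · exact mem_countableGenerate_iff.2 ⟨{_}, Set.singleton_subset_iff.2
      ⟨A, x, x, hA, hx, sub_low ht (he.1 _ hA) hx, rfl⟩, Set.countable_singleton _,
      fun h h1 => (h1 _ rfl).1⟩
  · exact mem_countableGenerate_iff.2 ⟨{_}, Set.singleton_subset_iff.2
      ⟨_, x, y, low_lev ha, by rwa [he.low ht hat], hy, rfl⟩, Set.countable_singleton _,
      fun h h1 => (h1 _ rfl).2⟩

theorem tm_asg (n : ℕ) : Tm Set.univ On fun v : ℕ → ZFSet.{u} => asg (v 0) n := by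
  have : Tm Set.univ On fun v : ℕ → ZFSet.{u} => snd^[n] (v 0) := by
    induction n with
    | zero => exact Tm.var 0
    | succ n ih => simpa only [iterate_succ_apply'] using Tm.snd _ (ht := ih)
  exact Tm.fst _ (ht := this)

theorem df_sat (φ : Fml) (f : ℕ → ZFSet.{u} → ZFSet.{u})
    (hf : ∀ n, Tm Set.univ On fun v => f n (v 0)) :
    Df Set.univ On fun v => Sat {x | HOD Set.univ x} φ (cons (v 0) fun n => f n (v 1)) := by
  have := Df.sat (C := Set.univ) (A := On) φ (fun _ => {x | HOD Set.univ x})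
    (Df.hod fun v => v 0) (fun _ _ => Set.subset_univ _)
    (tcons (fun v => v 0) fun n v => f n (v 1))
    (Tm.tcons (Tm.var 0) fun n => have := hf n; Tm.one (f n) fun v => v 1)
  refine Df.of _ this fun v _ => sat_congr φ fun i _ => ?_
  cases i <;> rfl

theorem exists_class (he : Ext a t s) (ht : t.IsOrdinal) (hat : a ∈ t)
    (la : ∀ b ∈ a, ∃ c ∈ a, b ∈ c) (lt : ∀ b ∈ t, ∃ c ∈ t, b ∈ c) (hc : Thread a s) :
    ∃ (N : Set ZFSet.{u}) (j : ZFSet.{u} → ZFSet.{u}), (∀ x ∈ N, ∀ y ∈ x, y ∈ N) ∧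
      (∀ x, HOD Set.univ x → j x ∈ N) ∧
      (∀ (φ : Fml) (v : ℕ → ZFSet.{u}), (∀ n, HOD Set.univ (v n)) →
        (Sat {x | HOD Set.univ x} φ v ↔ Sat N φ fun n => j (v n))) ∧
      (∀ x ∈ Lev a, j x = s x) ∧ (∀ x ∈ vonNeumann t.rank, HOD Set.univ x → x ∈ N) ∧
      ∀ x ∈ vonNeumann (t.rank + 1), x ∈ N → HOD Set.univ x := by
  classical
  have ha := ht.mem hat
  obtain ⟨F, _, _, f1, f2⟩ := exists_filter he ht hat lt hc
  have hD := tm_low ha
  have hL := low_lev ha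
  have e0 := he.low ht hat
  have f3 : ∀ x ∈ low t, ∀ᶠ h in F, h x ∈ low a := fun x hx => f1 _ hL x (e0 ▸ hx)
  have f4 : ∀ A ∈ Lev a, ∀ x ∈ low t, x ∉ s A → ∀ᶠ h in F, h x ∉ A := fun A hA x hx h1 => by
    have := od_iff.1 ((mem_Lev ha).1 hA).2.self
    have h2 : low a \ A ∈ Lev a :=
      lev_of_sub ha (fun _ hz => (ZFSet.mem_sdiff.1 hz).1) inferInstance
    have h3 := he.tf3 hat (fun D A B => ∀ x, x ∈ D → x ∈ A ∨ x ∈ B) hL hA h2 fun x hx => by
      rw [ZFSet.mem_sdiff]; tauto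
    filter_upwards [f1 _ h2 x ((h3 x (e0 ▸ hx)).resolve_left h1)] with h h4 using
      (ZFSet.mem_sdiff.1 h4).2
  have f5 : ∀ A ∈ Lev a, ∀ x ∈ low t, (∀ᶠ h in F, h x ∈ A) → x ∈ s A := fun A hA x hx h1 =>
    by_contra fun h2 => by
      obtain ⟨h, h3, h4⟩ := (h1.and (f4 A hA x hx h2)).exists
      exact h4 h3
  have f6 : ∀ (n : ℕ) (x : ℕ → ZFSet.{u}), (∀ i, x i ∈ low t) →
      ∃ l ∈ low t, ∀ᶠ h in F, ∀ i < n, asg (h l) i = h (x i) := fun n => by
    induction n with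
    | zero => exact fun x hx => ⟨_, hx 0, .of_forall fun _ _ h => absurd h (Nat.not_lt_zero _)⟩
    | succ n ih =>
      intro x hx
      obtain ⟨l, l1, l2⟩ := ih (fun i => x (i + 1)) fun _ => hx _
      refine ⟨_, low_pair ht lt (hx 0) l1, ?_⟩
      filter_upwards [l2, f2 _ (hx 0) l l1] with h h1 h2 i hi
      rw [h2, asg_pair]
      cases i with
      | zero => rfl
      | succ i => exact h1 i (Nat.lt_of_succ_lt_succ hi)
  obtain ⟨G, hG⟩ : ∃ G : Set ((ZFSet.{u} → ZFSet.{u}) → ZFSet.{u}), ∀ p, p ∈ G ↔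
      ∃ (f : ZFSet.{u} → ZFSet.{u}) (x : ZFSet.{u}), Tm Set.univ On (fun v => f (v 0)) ∧
        x ∈ low t ∧ (∀ᶠ h in F, HOD Set.univ (f (h x))) ∧ p = fun h => f (h x) :=
    ⟨_, fun _ => Iff.rfl⟩
  have g1 : ∀ p ∈ G, ∀ᶠ h in F, HOD Set.univ (p h) := fun p hp => by
    obtain ⟨f, x, -, -, h, rfl⟩ := (hG p).1 hp
    exact h
  have g2 : ∀ (n : ℕ) (p : ℕ → (ZFSet.{u} → ZFSet.{u}) → ZFSet.{u}), (∀ i, p i ∈ G) →
      ∃ (f : ℕ → ZFSet.{u} → ZFSet.{u}) (l : ZFSet.{u}),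
        (∀ i, Tm Set.univ On fun v => f i (v 0)) ∧ l ∈ low t ∧
          ∀ᶠ h in F, ∀ i < n, p i h = f i (h l) := fun n p hp => by
    choose f x h1 h2 _ h3 using fun i => (hG _).1 (hp i)
    obtain ⟨l, l1, l2⟩ := f6 n x h2
    refine ⟨fun i y => f i (asg y i), l, fun i => ?_, l1, ?_⟩
    · have := h1 i
      exact Tm.one (f i) _ (hs := tm_asg i)
    · filter_upwards [l2] with h h4 i hi
      rw [h3 i, h4 i hi]
  have g3 : ∀ x ∈ low t, (fun h : ZFSet.{u} → ZFSet.{u} => h x) ∈ G := fun x hx =>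
    (hG _).2 ⟨id, x, Tm.var 0, hx, (f3 x hx).mono fun _ h => ((mem_low ha).1 h).2, rfl⟩
  have t0 : a ∈ low t := (mem_low ht).2 ⟨rank_lt_of_mem hat, hod_ord ha⟩
  have g4 : ∀ x, HOD Set.univ x → (fun _ : ZFSet.{u} → ZFSet.{u} => x) ∈ G := fun x hx =>
    (hG _).2 ⟨fun _ => x, a, od_iff.1 hx.self, t0, .of_forall fun _ => hx, rfl⟩
  obtain ⟨c, c1, c2⟩ := ultrapower F (H := {x | HOD Set.univ x}) (fun x hx y hy => hx.mem hy) G g1
    (fun φ p hp => by
      obtain ⟨f, l, h1, h2, h3⟩ := g2 (fv φ) p hp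
      have h4 : Df Set.univ On fun v => Sat {x | HOD Set.univ x} φ fun n => f n (v 0) :=
        Df.sat φ (fun _ => {x | HOD Set.univ x}) (Df.hod fun v => v 0)
          (fun _ _ => Set.subset_univ _) (fun n v => f n (v 0)) h1
      have h5 := lev_of_sub ha (A := (low a).sep fun y => Sat {x | HOD Set.univ x} φ
        fun n => f n y) sep_subset (Tm.sep _ _ (h := h4))
      by_cases h6 : l ∈ s ((low a).sep fun y => Sat {x | HOD Set.univ x} φ fun n => f n y)
      · left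
        filter_upwards [h3, f1 _ h5 l h6] with h h7 h8 using
          (sat_congr φ h7).2 (mem_sep.1 h8).2
      · right
        filter_upwards [h3, f4 _ h5 l h2 h6, f3 l h2] with h h7 h8 h9 h10 using
          h8 (mem_sep.2 ⟨h9, (sat_congr φ h7).1 h10⟩))
    (fun φ p hp => by
      obtain ⟨f, l, h1, h2, h3⟩ := g2 (fv φ) p hp
      obtain ⟨Q, hQ⟩ : ∃ Q : ZFSet.{u} → ZFSet.{u} → Prop,
        Q = fun z y => Sat {x | HOD Set.univ x} φ (cons z fun n => f n y) := ⟨_, rfl⟩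
      have : Df Set.univ On fun v => Q (v 0) (v 1) := hQ ▸ df_sat φ f h1
      have := Df.two (C := Set.univ) (A := On) Q
      obtain ⟨k, k1, k2⟩ := od_choice (C := Set.univ) (low a)
        (fun y z => HOD Set.univ z ∧ (Q z y → ∀ w, HOD Set.univ w → Q w y)) fun y _ => by
          by_cases h : ∀ w, HOD Set.univ w → Q w y
          · exact ⟨∅, (hod_ord isOrdinal_empty).self, hod_ord isOrdinal_empty, fun _ => h⟩
          · obtain ⟨w, h⟩ := not_forall.1 h
            obtain ⟨h4, h5⟩ := Classical.not_imp.1 h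
            exact ⟨w, h4.self, h4, fun h6 => absurd h6 h5⟩
      refine ⟨fun h => k (h l), (hG _).2 ⟨k, l, k1, h2,
        (f3 l h2).mono fun h h4 => (k2 _ h4 trivial).1, rfl⟩, ?_⟩
      filter_upwards [h3, f3 l h2] with h h4 h5 h6 z hz
      have h7 : ∀ z, Q z (h l) ↔ Sat {x | HOD Set.univ x} φ (cons z fun n => p n h) := fun z => by
        rw [hQ]
        refine sat_congr φ fun i hi => ?_
        cases i with
        | zero => rfl
        | succ i => exact (h4 i (Nat.lt_of_succ_lt hi)).symm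
      exact (h7 z).1 ((k2 _ h5 trivial).2 ((h7 _).2 h6) z hz))
    (fun p hp => by
      obtain ⟨f, x, h1, h2, -, rfl⟩ := (hG p).1 hp
      refine ⟨prod (low t) (powerset (prod (low a) (⋃₀ img f (low a)))),
        fun z h => app (snd z) (h (fst z)), fun q hq h3 => ?_⟩
      have h0 := g1 q hq
      obtain ⟨g, y, h4, h5, -, rfl⟩ := (hG q).1 hq
      have := Tm.one (C := Set.univ) (A := On) f
      have := Tm.one (C := Set.univ) (A := On) g
      have h6 : ∀ᶠ h in F,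
          app (gr g ((low a).sep fun l => g l ∈ (⋃₀ img f (low a) : ZFSet.{u}))) (h y) = g (h y) := by
        filter_upwards [h3, f3 x h2, f3 y h5] with h h6 h7 h8 using
          app_gr (mem_sep.2 ⟨h8, mem_sUnion.2 ⟨_, mem_img.2 ⟨_, h7, rfl⟩, h6⟩⟩)
      refine ⟨pair y (gr g ((low a).sep fun l => g l ∈ (⋃₀ img f (low a) : ZFSet.{u}))),
        pair_mem_prod.2 ⟨h5, mem_powerset.2 fun z hz => ?_⟩, ?_, ?_⟩
      · obtain ⟨l, hl, rfl⟩ := mem_img.1 hz
        exact pair_mem_prod.2 (mem_sep.1 hl)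
      · refine (hG _).2 ⟨app (gr g ((low a).sep fun l => g l ∈ (⋃₀ img f (low a) : ZFSet.{u}))),
          y, inferInstance, h5, ?_, by simp only [fst_pair, snd_pair]⟩
        filter_upwards [h0, h6] with h h7 h8 using h8 ▸ h7
      · simpa only [fst_pair, snd_pair] using h6)
  have c3 : ∀ p ∈ G, ∀ q ∈ G, (∀ᶠ h in F, p h = q h) → c p = c q := fun p hp q hq h => by
    have := c2 (.eq 0 1) (fun n => Nat.casesOn n p fun _ => q) fun n => by
      cases n; exacts [hp, hq]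
    exact this.2 h
  have v1 : ∀ q ∈ G, (∀ᶠ h in F, q h ∈ low a) → ∃ z ∈ low t, ∀ᶠ h in F, q h = h z :=
    fun q hq h1 => by
      obtain ⟨g, y, h2, h3, -, rfl⟩ := (hG q).1 hq
      have := Tm.one (C := Set.univ) (A := On) g
      have h4 := lev_of_sub ha (A := (low a).sep fun l => g l ∈ low a) sep_subset inferInstance
      have h5 := lev_of_sub ha (A := gr g ((low a).sep fun l => g l ∈ low a)) (fun z hz => by
        obtain ⟨l, hl, rfl⟩ := mem_img.1 hz
        exact low_pair ha la (mem_sep.1 hl).1 (mem_sep.1 hl).2) inferInstance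
      obtain ⟨z, hz⟩ := he.tf3 hat (fun A f _ => ∀ l, l ∈ A → ∃ w, pair l w ∈ f) h4 h5 h5
        (fun l hl => ⟨_, pair_mem_gr.2 ⟨hl, rfl⟩⟩) y (f5 _ h4 y h3 (by
          filter_upwards [h1, f3 y h3] with h h6 h7 using mem_sep.2 ⟨h7, h6⟩))
      have h6 : z ∈ low t :=
        snd_in (fun _ h _ h' => low_tr ht h' h) (sub_low ht (he.1 _ h5) hz)
      refine ⟨z, h6, ?_⟩
      filter_upwards [f1 _ h5 _ hz, f2 y h3 z h6] with h h7 h8 using
        (pair_mem_gr.1 (h8 ▸ h7)).2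
  have v2 : ∀ x ∈ low t, ∀ z ∈ low t, (∀ᶠ h in F, h z ∈ h x) ↔ z ∈ x := fun x hx z hz => by
    have h1 := lev_of_sub ha (A := (low a).sep fun l => fst l ∈ snd l) sep_subset inferInstance
    have h2 := he.tf3 hat (fun D A _ => ∀ v w, pair v w ∈ D → (pair v w ∈ A ↔ v ∈ w)) hL h1 h1
      (fun v w h => by simp only [mem_sep, fst_pair, snd_pair, h, true_and]) z x
      (e0 ▸ low_pair ht lt hz hx)
    refine ⟨fun h => h2.1 (f5 _ h1 _ (low_pair ht lt hz hx) ?_), fun h => ?_⟩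
    · filter_upwards [h, f2 z hz x hx, f3 _ (low_pair ht lt hz hx)] with h h3 h4 h5 using
        mem_sep.2 ⟨h5, by rwa [h4, fst_pair, snd_pair]⟩
    · filter_upwards [f1 _ h1 _ (h2.2 h), f2 z hz x hx] with h h3 h4
      simpa only [h4, fst_pair, snd_pair] using (mem_sep.1 h3).2
  have p1 : ∀ x, x ∈ low t → c (fun h => h x) = x := fun x => by
    induction x using ZFSet.inductionOn with
    | _ x ih =>
      intro hx
      ext z
      rw [c1 _ (g3 x hx)]
      constructor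
      · rintro ⟨q, q1, q2, rfl⟩
        obtain ⟨w, w1, w2⟩ := v1 q q1 (by
          filter_upwards [q2, f3 x hx] with h h1 h2 using low_tr ha h1 h2)
        have h1 : w ∈ x := (v2 x hx w w1).1 (by
          filter_upwards [q2, w2] with h h1 h2 using h2 ▸ h1)
        rwa [c3 q q1 _ (g3 w w1) w2, ih w h1 w1]
      · exact fun h => ⟨_, g3 z (low_tr ht h hx), (v2 x hx z (low_tr ht h hx)).2 h,
          ih z h (low_tr ht h hx)⟩
  have p2 : ∀ A ∈ Lev a, c (fun _ => A) = s A := fun A hA => by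
    ext z
    rw [c1 _ (g4 A ((mem_Lev ha).1 hA).2)]
    constructor
    · rintro ⟨q, q1, q2, rfl⟩
      obtain ⟨w, w1, w2⟩ := v1 q q1 (q2.mono fun _ h => sub_low ha hA h)
      rw [c3 q q1 _ (g3 w w1) w2, p1 w w1]
      exact f5 A hA w w1 (by filter_upwards [q2, w2] with h h1 h2 using h2 ▸ h1)
    · exact fun h => ⟨_, g3 z (sub_low ht (he.1 _ hA) h), f1 A hA z h,
        p1 z (sub_low ht (he.1 _ hA) h)⟩
  have p3 : ∀ x ∈ c '' G, ∀ y ∈ x, y ∈ c '' G := by
    rintro _ ⟨p, hp, rfl⟩ y hy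
    obtain ⟨q, q1, -, q2⟩ := (c1 p hp y).1 hy
    exact ⟨q, q1, q2⟩
  have p4 : ∀ p ∈ G, ∀ q ∈ G, c p ⊆ c q → ∀ᶠ h in F, p h ⊆ q h := fun p hp q hq h1 => by
    have h2 := c2 (.all (.neg (.and (.mem 0 1) (.neg (.mem 0 2)))))
      (fun n => Nat.casesOn n p fun _ => q) fun n => by cases n; exacts [hp, hq]
    filter_upwards [h2.1 fun y _ h => h.2 (h1 h.1), g1 p hp] with h h3 h4 y hy using
      not_not.1 fun h5 => h3 y (h4.mem hy) ⟨hy, h5⟩
  have p5 : ∀ x, rank x < rank t → x ∈ c '' G → x ∈ low t := fun x => by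
    induction x using ZFSet.inductionOn with
    | _ x ih =>
      rintro hx ⟨q, hq, rfl⟩
      have h1 := isOrdinal_toZFSet (rank (c q))
      have h2 : low (rank (c q)).toZFSet ∈ low t := (mem_low ht).2
        ⟨(rank_le_iff.2 fun y hy => by simpa using ((mem_low h1).1 hy).1).trans_lt hx,
          ((mem_Lev h1).1 (low_lev h1)).2⟩
      obtain ⟨w, w1, w2⟩ := v1 q hq (by
        filter_upwards [p4 q hq _ (g3 _ h2) fun y hy => by
          rw [p1 _ h2]
          exact (mem_low h1).2 ⟨by simpa using rank_lt_of_mem hy, ((mem_low ht).1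
            (ih y hy ((rank_lt_of_mem hy).trans hx) (p3 _ ⟨q, hq, rfl⟩ y hy))).2⟩,
          g1 q hq, f3 _ h2] with h h4 h5 h6 using
          (mem_low ha).2 ⟨(rank_mono h4).trans_lt ((mem_low ha).1 h6).1, h5⟩)
      rwa [c3 q hq _ (g3 w w1) w2, p1 w w1]
  refine ⟨c '' G, fun x => c fun _ => x, p3, fun x hx => ⟨_, g4 x hx, rfl⟩, fun φ v hv => ?_,
    p2, fun x hx h => ?_, ?_⟩
  · rw [c2 φ (fun n _ => v n) fun n => g4 _ (hv n), eventually_const]
  · have h1 := (mem_low ht).2 ⟨mem_vonNeumann.1 hx, h⟩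
    exact ⟨_, g3 x h1, p1 x h1⟩
  · rintro _ hx ⟨q, hq, rfl⟩
    have h1 : c q ⊆ low t := fun y hy => p5 y ((rank_lt_of_mem hy).trans_le
      (Order.lt_add_one_iff.1 (mem_vonNeumann.1 hx))) (p3 _ ⟨q, hq, rfl⟩ y hy)
    obtain ⟨g, y, h2, h3, -, rfl⟩ := (hG q).1 hq
    have := Tm.one (C := Set.univ) (A := On) g
    have h4 := lev_of_sub ha (A := (low a).sep fun l => snd l ∈ g (fst l)) sep_subset inferInstance
    have := od_iff.1 ((mem_Lev ht).1 (he.1 _ h4)).2.self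
    have := od_iff.1 ((mem_low ht).1 h3).2.self
    have := tm_low ht
    refine ((mem_Lev ht).1 (lev_of_sub ht h1 (Tm.of (fun _ => (low t).sep fun w =>
      pair y w ∈ s ((low a).sep fun l => snd l ∈ g (fst l))) inferInstance fun _ _ => ?_))).2
    ext w
    rw [mem_sep]
    refine ⟨fun h => (c1 _ hq w).2 ⟨_, g3 w h.1, ?_, p1 w h.1⟩, fun h => ⟨h1 h, ?_⟩⟩
    · filter_upwards [f1 _ h4 _ h.2, f2 y h3 w h.1] with h h5 h6
      simpa only [h6, fst_pair, snd_pair] using (mem_sep.1 h5).2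
    · have h5 := c2 (.mem 0 1) (fun n => Nat.casesOn n (fun h => h w) fun _ h => g (h y))
        fun n => by cases n; exacts [g3 w (h1 h), hq]
      refine f5 _ h4 _ (low_pair ht lt h3 (h1 h)) ?_
      filter_upwards [h5.1 (by rwa [← p1 w (h1 h)] at h), f2 y h3 w (h1 h),
        f3 _ (low_pair ht lt h3 (h1 h))] with h h6 h7 h8 using
        mem_sep.2 ⟨h8, by rwa [h7, fst_pair, snd_pair]⟩

theorem unc_of_not_cof (ha : a.IsOrdinal) (la : ∀ b ∈ a, ∃ c ∈ a, b ∈ c) (hx : x ∈ a)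
    (h : ¬ CofOmega Set.univ a) : Unc a := by
  classical
  refine ⟨ha, fun y y1 y2 => by_contra fun h1 => h ?_⟩
  obtain ⟨F, hF⟩ := exists_surj_of_card_le y2
  refine ⟨ha, gr (fun n => if F n ∈ a then F n else x) om, trivial, isFunc_gr fun n _ => ?_,
    fun b hb => ?_⟩
  · split_ifs with h2
    exacts [h2, hx]
  · obtain ⟨c, c1, c2⟩ := la b hb
    obtain ⟨z, h2⟩ := not_forall.1 fun h2 => h1 ⟨c, c1, h2⟩
    obtain ⟨z1, z2⟩ := Classical.not_imp.1 h2
    obtain ⟨n, n1, rfl⟩ := hF z z1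
    exact ⟨n, _, pair_mem_gr.2 ⟨n1, if_pos (y1 z1)⟩,
      ((ha.mem (y1 z1)).notMem_iff_subset (ha.mem c1)).1 z2 c2⟩

end Pool.Agent.MP_ecfd11_lc.H3U
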