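import Pool.Agent.MP_ecfd11_lc.H20.Defs

/-!
The levels of HOD.
-/

namespace Pool.Agent.MP_ecfd11_lc.H3U

universe u

open ZFSet

/-- The set `HOD ∩ V_(a+1)`. -/
noncomputable def Lev (a : ZFSet.{u}) : ZFSet.{u} :=
  (vonNeumann (a.rank + 1)).sep (HOD Set.univ)

/-- `s : HOD ∩ V_(a+1) → HOD ∩ V_(l+1)` is elementary, fixes every ordinal below `a` and sends
`a` to `l`. -/
def Ext (a l : ZFSet.{u}) (s : ZFSet.{u} → ZFSet.{u}) : Prop :=
  (∀ x ∈ Lev a, s x ∈ Lev l) ∧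
    (∀ (φ : Fml) (v : ℕ → ZFSet.{u}), (∀ n, v n ∈ Lev a) →
      (Sat (Lev a) φ v ↔ Sat (Lev l) φ fun n => s (v n))) ∧
    (∀ x ∈ a, s x = x) ∧ s a = l

/-- `j : M → N` is elementary. -/
def Elem (M N : Set ZFSet.{u}) (j : ZFSet.{u} → ZFSet.{u}) : Prop :=
  (∀ x ∈ M, j x ∈ N) ∧ ∀ (φ : Fml) (v : ℕ → ZFSet.{u}), (∀ n, v n ∈ M) →
    (Sat M φ v ↔ Sat N φ fun n => j (v n))

/-- `N` is a transitive class with `HOD ∩ V_l ⊆ N` and `N ∩ V_(l+1) ⊆ HOD`. -/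
def Near (l : ZFSet.{u}) (N : Set ZFSet.{u}) : Prop :=
  (∀ x ∈ N, ∀ y ∈ x, y ∈ N) ∧ (∀ x ∈ vonNeumann l.rank, HOD Set.univ x → x ∈ N) ∧
    ∀ x ∈ vonNeumann (l.rank + 1), x ∈ N → HOD Set.univ x

/-- `s` is the restriction to `HOD ∩ V_(a+1)` of an elementary embedding `j : HOD → N`, and of an
elementary self-embedding `p : W → W` of a class `W` into which HOD embeds elementarily; `N` and
`W` are transitive and agree with HOD below rank `l`. -/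
def Lifts (a l : ZFSet.{u}) (s : ZFSet.{u} → ZFSet.{u}) : Prop :=
  ∃ (N W : Set ZFSet.{u}) (j i p : ZFSet.{u} → ZFSet.{u}), Near l N ∧ Near l W ∧
    Elem {x | HOD Set.univ x} N j ∧ Elem {x | HOD Set.univ x} W i ∧ Elem W W p ∧
    ∀ x ∈ Lev a, j x = s x ∧ p x = s x

/-- `HOD ∩ V_(l+1)` is the increasing union of the ranges of elementary embeddings
`s a : HOD ∩ V_(a+1) → HOD ∩ V_(l+1)` with critical point `a`, where `a` runs through a club subset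
of `l`.  If `e ^ ω < l` for all `e < l`, then `s a` lifts to class embeddings whenever the
cofinality of `a` is not `ω`. -/
def Limit (l : ZFSet.{u}) : Prop :=
  ∃ (c : ZFSet.{u}) (s : ZFSet.{u} → ZFSet.{u} → ZFSet.{u}), Club l c ∧
    (∀ a ∈ c, Ext a l (s a) ∧
      (∀ b ∈ c, a ∈ b → ∀ x ∈ Lev a, ∃ y ∈ Lev b, s b y = s a x) ∧
      ((∀ e ∈ l, card e ^ Cardinal.aleph0 < card l) → ¬ CofOmega Set.univ a →
        Lifts a l (s a))) ∧
    ∀ z ∈ Lev l, ∃ a ∈ c, ∃ x ∈ Lev a, s a x = z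

end Pool.Agent.MP_ecfd11_lc.H3U
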