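import Pool.Agent.MP_ecfd11_lc.H3U.SMain

/-!
Countable threads reflect below almost every point of uncountable cofinality.
-/

set_option synthInstance.maxSize 4000

namespace Pool.Agent.MP_ecfd11_lc.H3U

open Pool.Agent.MP_ecfd11_lc.H20 Pool.Agent.MP_ecfd11_lc.H13X

universe u

open ZFSet Cardinal Function Filter

/-- The filter is complete for families indexed by a type of size less than `t`. -/
theorem ev_type {S t : ZFSet.{u}} (ht : Regular Set.univ t) {κ : Type u} (hκ : #κ < card t)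
    {p : κ → ZFSet.{u} → Prop} (h : ∀ k, ∀ᶠ L in cf S (unc_of_regular ht), p k L) :
    ∀ᶠ L in cf S (unc_of_regular ht), ∀ k, p k L := by
  have hx : card (#κ).ord.toZFSet = #κ := card_ord' _
  obtain ⟨e⟩ : Nonempty (Shrink.{u} ((#κ).ord.toZFSet : ZFSet.{u}) ≃ κ) := Cardinal.eq.1 hx
  filter_upwards [ev_ball (S := S) ht (hx.trans_lt hκ)
    (p := fun i L => ∀ hi : i ∈ (#κ).ord.toZFSet, p (e (equivShrink _ ⟨i, hi⟩)) L)
    fun i hi => (h (e (equivShrink _ ⟨i, hi⟩))).mono fun _ h1 _ => h1] with L hL k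
  have := hL ((equivShrink _).symm (e.symm k)).1 ((equivShrink _).symm (e.symm k)).2
    ((equivShrink _).symm (e.symm k)).2
  simpa using this

theorem thread_card {t e : ZFSet.{u}} (ht : Regular Set.univ t)
    (hw : ∀ e ∈ t, card e ^ ℵ₀ < card t) (he : e ∈ t) :
    #((ℕ → Shrink.{u} e) × Set (ℕ × ℕ) × Set (ℕ × ℕ × ℕ)) < card t := by
  have h1 : (𝔠 : Cardinal.{u}) < card t := by
    have := hw _ ht.2.1
    rwa [card_om, aleph0_power_aleph0] at this
  have h2 : #((ℕ → Shrink.{u} e) × Set (ℕ × ℕ) × Set (ℕ × ℕ × ℕ)) = card e ^ ℵ₀ * 𝔠 := by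
    simp [card]
  rw [h2]
  exact mul_lt_of_lt ht.aleph0_lt.le (hw e he) h1

theorem ev_seq {S t : ZFSet.{u}} (ht : Regular Set.univ t) (z : ℕ → ZFSet.{u})
    (hz : ∀ k, z k ∈ vC Set.univ t) :
    ∀ᶠ L in cf S (unc_of_regular ht), ∀ k, z k ∈ vC Set.univ L := by
  have hu := unc_of_regular ht
  refine ev_nat hu fun k => ?_
  obtain ⟨a, a1, a2⟩ := exists_level ht.1 (fun b hb => hu.succ hb) ((mem_vC_ord ht.1).1 (hz k))
  filter_upwards [ev_above (S := S) hu a1, ev_mem (S := S) hu] with L l1 l2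
  exact (mem_vC_ord (ht.1.mem l2.2)).2 (a2.trans (rank_lt_of_mem l1))

theorem ev_thread {S t : ZFSet.{u}} (ht : Regular Set.univ t)
    (hw : ∀ e ∈ t, card e ^ ℵ₀ < card t) (B : ZFSet.{u} → ZFSet.{u})
    (b1 : ∀ x ∈ t, B x ⊆ vC Set.univ t) :
    ∀ᶠ L in cf S (unc_of_regular ht), Unc L → ∀ i y : ℕ → ZFSet.{u},
      (∀ k, i k ∈ L ∧ y k ∈ B (i k)) → ∃ z : ℕ → ZFSet.{u},
        (∀ k, z k ∈ B (i k) ∩ vC Set.univ L) ∧ (∀ m n, y m = y n → z m = z n) ∧
          ∀ m n k, y m = pair (y n) (y k) → z m = pair (z n) (z k) := by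
  let Th : ∀ e : ZFSet.{u}, (ℕ → Shrink.{u} e) × Set (ℕ × ℕ) × Set (ℕ × ℕ × ℕ) →
      (ℕ → ZFSet.{u}) → Prop := fun e q z =>
    (∀ k, z k ∈ B ((equivShrink e).symm (q.1 k)).1) ∧ (∀ m n, (m, n) ∈ q.2.1 → z m = z n) ∧
      ∀ m n k, (m, n, k) ∈ q.2.2 → z m = pair (z n) (z k)
  have key : ∀ e ∈ t, ∀ᶠ L in cf S (unc_of_regular ht), ∀ q, (∃ z, Th e q z) →
      ∃ z, Th e q z ∧ ∀ k, z k ∈ vC Set.univ L := fun e he =>
    ev_type ht (thread_card ht hw he) fun q => by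
      by_cases h : ∃ z, Th e q z
      · obtain ⟨z, hz⟩ := h
        filter_upwards [ev_seq (S := S) ht z fun k =>
          b1 _ (ht.1.mem_trans ((equivShrink e).symm (q.1 k)).2 he) (hz.1 k)] with L hL _
        exact ⟨z, hz, hL⟩
      · exact Eventually.of_forall fun _ h1 => absurd h1 h
  filter_upwards [ev_diag ht key] with L hL hu i y hy
  obtain ⟨c, c1, c2⟩ := hu.2 (range fun n : ULift.{u} ℕ => i n.down)
    (fun x hx => by obtain ⟨n, rfl⟩ := mem_range.1 hx; exact (hy _).1)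
    (by rw [card_om]; simpa using lift_card_range_le (f := fun n : ULift.{u} ℕ => i n.down))
  have c3 : ∀ k, i k ∈ c := fun k => c2 _ (mem_range.2 ⟨⟨k⟩, rfl⟩)
  obtain ⟨z, ⟨z1, z2, z3⟩, z4⟩ := hL c c1 (fun k => equivShrink c ⟨i k, c3 k⟩,
    {x | y x.1 = y x.2}, {x | y x.1 = pair (y x.2.1) (y x.2.2)})
    ⟨y, fun k => by simpa using (hy k).2, fun _ _ h => h, fun _ _ _ h => h⟩
  exact ⟨z, fun k => mem_inter.2 ⟨by simpa using z1 k, z4 k⟩, fun m n h => z2 m n h,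
    fun m n k h => z3 m n k h⟩

end Pool.Agent.MP_ecfd11_lc.H3U
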