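import Pool.Agent.MP_ecfd11_lc.H3U.SSelf
import Pool.Agent.MP_ecfd11_lc.H3U.SThread

/-!
The system of embeddings below a strongly measurable cardinal.
-/

set_option synthInstance.maxSize 4000

namespace Pool.Agent.MP_ecfd11_lc.H3U

open Pool.Agent.MP_ecfd11_lc.H20 Pool.Agent.MP_ecfd11_lc.H13X

universe u

open ZFSet Cardinal Function Filter

variable {t d : ZFSet.{u}}

theorem not_null_sm {b S : ZFSet.{u}} (h : Unc b) (hd : Regular Set.univ d)
    (hS : ∀ g ∈ b, Sm d g → g ∈ S) : ¬ Null b S := by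
  rintro ⟨c, c1, c2⟩
  choose! N n1 n2 using c1.2.1
  have h2 : ∀ n : ℕ, N^[n] ∅ ∈ b := fun n => by
    induction n with
    | zero => exact h.empty_mem
    | succ n ih => rw [iterate_succ_apply']; exact c1.1 (n1 _ ih)
  let Z : ZFSet.{u} := range fun n : ULift.{u} ℕ => N^[n.down] ∅
  have hZ : card Z ≤ card om := by
    rw [card_om]
    simpa using lift_card_range_le (f := fun n : ULift.{u} ℕ => N^[n.down] ∅)
  have hZb : ∀ x ∈ Z, x ∈ b := fun x hx => by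
    obtain ⟨n, rfl⟩ := mem_range.1 hx; exact h2 _
  obtain ⟨e, he, h3⟩ := h.2 Z hZb hZ
  have ho : (⋃₀ Z : ZFSet.{u}).IsOrdinal := isOrdinal_sUnion fun y hy => h.1.mem (hZb y hy)
  have h5 : ∀ n : ℕ, N^[n] ∅ ∈ N^[n + 1] ∅ := fun n => by
    rw [iterate_succ_apply']; exact n2 _ (h2 n)
  have h4 : ∀ n : ℕ, N^[n] ∅ ∈ (⋃₀ Z : ZFSet.{u}) := fun n =>
    mem_sUnion.2 ⟨_, mem_range.2 ⟨⟨n + 1⟩, rfl⟩, h5 n⟩
  have h6 : (⋃₀ Z : ZFSet.{u}) ∈ b := ho.mem_of_subset_of_mem h.1 (fun z hz => by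
    obtain ⟨y, hy, hz⟩ := mem_sUnion.1 hz
    exact (h.1.mem he).mem_trans hz (h3 y hy)) he
  refine c2 _ (hS _ h6 ⟨Z, fun x hx => ?_, not_le.2 (hZ.trans_lt (hd.card_lt hd.2.1)),
    fun x hx => mem_sUnion.1 hx⟩) (c1.2.2 _ h6 ⟨_, h4 0⟩ fun x hx => ?_)
  · obtain ⟨n, rfl⟩ := mem_range.1 hx
    exact h4 _
  · obtain ⟨y, hy, hx⟩ := mem_sUnion.1 hx
    obtain ⟨n, rfl⟩ := mem_range.1 hy
    exact ⟨N^[n.down + 1] ∅, by rw [iterate_succ_apply']; exact n1 _ (h2 _),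
      (h.1.mem (h2 _)).mem_trans hx (h5 _), h4 _⟩

/-- The traces fill the levels at all points of a club. -/
theorem trace_all (ht : Regular Set.univ t) (hd : Regular Set.univ d)
    (B : ZFSet.{u} → ZFSet.{u}) (b1 : ∀ x ∈ t, B x ⊆ vC Set.univ t)
    (hT : ∀ᶠ L in cf (t.sep (Sm d)) (unc_of_regular ht),
      ∀ A ∈ Lev L, ∃ x ∈ L, A = B x ∩ vC Set.univ L) :
    ∀ᶠ L in cf t (unc_of_regular ht), ∀ A ∈ Lev L, ∃ x ∈ L, A = B x ∩ vC Set.univ L := by
  have hu := unc_of_regular ht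
  have lev : ∀ {b S : ZFSet.{u}} (hb : Unc b), ∀ z ∈ vC Set.univ b,
      ∀ᶠ L in cf S hb, z ∈ vC Set.univ L := fun hb z hz => by
    obtain ⟨a, a1, a2⟩ := exists_level hb.1 (fun b h => hb.succ h) ((mem_vC_ord hb.1).1 hz)
    filter_upwards [ev_above hb a1, ev_mem hb] with L l1 l2 using
      (mem_vC_ord (hb.1.mem l2.2)).2 (a2.trans (rank_lt_of_mem l1))
  have inj : ∀ᶠ L in cf (t.sep (Sm d)) hu, ∀ x ∈ L, ∀ y ∈ L,
      B x ∩ vC Set.univ L = B y ∩ vC Set.univ L → B x = B y :=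
    ev_diag ht fun x hx => ev_diag ht fun y hy => by
      by_cases h : B x = B y
      · exact Eventually.of_forall fun _ _ => h
      obtain ⟨z, hz⟩ := not_forall.1 fun h' => h (ZFSet.ext h')
      have h1 : z ∈ vC Set.univ t := by
        by_cases h1 : z ∈ B x
        exacts [b1 _ hx h1, b1 _ hy (by tauto)]
      filter_upwards [lev hu z h1] with L l1 h2
      exact absurd (by simpa only [mem_inter, l1, and_true] using ZFSet.ext_iff.1 h2 z) hz
  filter_upwards [ev_refl ht (hT.and inj), ev_lim hu ht, ev_above hu hu.empty_mem, ev_mem hu,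
    (ev_iff (S := t) hu (p := fun L => Sm d L →
      ∀ A ∈ Lev L, ∃ x ∈ L, A = B x ∩ vC Set.univ L)).2 (Null.mono ((ev_iff hu).1 hT)
        fun x hx _ => mem_sep.2 ⟨mem_sep.2 ⟨(mem_sep.1 hx).1,
          (Classical.not_imp.1 (mem_sep.1 hx).2).1⟩, (Classical.not_imp.1 (mem_sep.1 hx).2).2⟩)]
    with L l1 l2 l3 l4 l5 A hA
  by_cases h0 : CofOmega Set.univ L
  · exact l5 (sm_of_cof hd h0) A hA
  have hL := unc_of_not_cof (ht.1.mem l4.2) l2 l3 h0
  have := neBot hL (not_null_sm (S := t.sep (Sm d)) hL hd fun g h1 h2 =>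
    mem_sep.2 ⟨ht.1.mem_trans h1 l4.2, h2⟩)
  obtain ⟨a, ha, h5⟩ := fr_press (S := t.sep (Sm d)) hL
    (p := fun x L' => A ∩ vC Set.univ L' = B x ∩ vC Set.univ L')
    (Eventually.frequently (by
      filter_upwards [(ev_iff hL).2 l1, ev_mem hL] with L' h1 h2 using
        h1.1 _ (inter_Lev hL.1 hA (hL.1.mem h2.2))))
  obtain ⟨L0, ⟨x0, x1, x2⟩, x3, x4, x5⟩ := (h5.and_eventually
    (((ev_iff hL).2 l1).and ((ev_above hL ha).and (ev_mem hL)))).exists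
  have o0 := hL.1.mem x5.2
  have key : ∀ z ∈ vC Set.univ L, (z ∈ A ↔ z ∈ B x0) := fun z hz => by
    obtain ⟨L1, ⟨y0, y1, y2⟩, y3, y4, y5⟩ := (h5.and_eventually
      ((lev hL z hz).and ((ev_above hL x5.2).and (ev_mem hL)))).exists
    have o1 := hL.1.mem y5.2
    have h6 := vC_mono o0 o1 (o1.subset_of_mem y4)
    rw [x3.2 x0 (o0.mem_trans x1 x4) y0 (o0.mem_trans y1 x4) (by
      rw [← x2, ← inter_inter (x := B y0) h6, ← y2, inter_inter h6])]
    simpa only [mem_inter, y3, and_true] using ZFSet.ext_iff.1 y2 z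
  refine ⟨x0, hL.1.mem_trans x1 ha, ZFSet.ext fun z => ?_⟩
  rw [mem_inter]
  exact ⟨fun h => ⟨(key z (((mem_Lev hL.1).1 hA).1 h)).1 h, ((mem_Lev hL.1).1 hA).1 h⟩,
    fun h => (key z h.2).2 h.1⟩

theorem main (hd : StronglyCompact d t) (hdt : d ∈ t) (hs : StronglyMeasurable Set.univ t)
    (hc : card (Lev t) ≤ card t) : Limit t := by
  have ht := hs.1
  have hu := unc_of_regular ht
  have ord : ∀ x : ZFSet.{u}, x.IsOrdinal → x ⊆ t → x ∈ Lev t := fun x hx h => (mem_Lev ht.1).2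
    ⟨fun z hz => (mem_vC_ord ht.1).2 (rank_lt_of_mem (h hz)), hod_ord hx⟩
  obtain ⟨B, b1, b2⟩ : ∃ B : ZFSet.{u} → ZFSet.{u}, (∀ x ∈ t, B x ∈ Lev t) ∧
      ∀ A ∈ Lev t, ∃ x ∈ t, B x = A := by
    obtain ⟨F, hF⟩ := exists_surj_of_card_le hc
    classical
    refine ⟨fun x => if F x ∈ Lev t then F x else t, fun x _ => ?_, fun A hA => ?_⟩
    · dsimp only
      split_ifs with h
      exacts [h, ord t ht.1 subset_rfl]
    · obtain ⟨x, hx, rfl⟩ := hF A hA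
      exact ⟨x, hx, if_pos hA⟩
  have hT := trace_all ht hd.1 B (fun x hx => ((mem_Lev ht.1).1 (b1 x hx)).1)
    (cover hd hdt hs fun S h1 => trace' hd hdt hs h1 B b1 b2)
  have h1 : ∀ x : ZFSet.{u}, x.IsOrdinal → x ⊆ t →
      ∀ᶠ L in cf t hu, ∃ y ∈ L, B y = x := fun x h1 h2 => by
    obtain ⟨y, y1, y2⟩ := b2 x (ord x h1 h2)
    filter_upwards [ev_above hu y1] with L h using ⟨y, h, y2⟩
  have h0 : ∀ᶠ L in cf t hu, (∀ e ∈ t, card e ^ ℵ₀ < card t) → Unc L →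
      ∀ i y : ℕ → ZFSet.{u}, (∀ k, i k ∈ L ∧ y k ∈ B (i k)) → ∃ z : ℕ → ZFSet.{u},
        (∀ k, z k ∈ B (i k) ∩ vC Set.univ L) ∧ (∀ m n, y m = y n → z m = z n) ∧
          ∀ m n k, y m = pair (y n) (y k) → z m = pair (z n) (z k) := by
    by_cases h : ∀ e ∈ t, card e ^ ℵ₀ < card t
    · exact (ev_thread ht h B fun x hx => ((mem_Lev ht.1).1 (b1 x hx)).1).mono fun _ h _ => h
    · exact Eventually.of_forall fun _ h' => absurd h' h
  have h6 : ∀ᶠ L in cf t hu, ∀ x ∈ L, B x ∈ vC Set.univ t → B x ∈ vC Set.univ L :=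
    ev_diag ht fun x _ => by
      by_cases h : B x ∈ vC Set.univ t
      · exact (ev_seq ht (fun _ => B x) fun _ => h).mono fun _ h _ => h 0
      · exact Eventually.of_forall fun _ h' => absurd h' h
  obtain ⟨c, c1, c2⟩ := (ev_iff hu).1 ((h0.and ((ev_lim hu ht).and h6)).and (hT.and
    ((h1 t ht.1 subset_rfl).and ((ev_diag ht
    fun x hx => h1 x (ht.1.mem hx) (ht.1.subset_of_mem hx)).and (ev_nat hu
      (p := fun n L => ∀ φ, enc φ = n → ∀ v : ℕ → ZFSet.{u}, (∀ i, v i ∈ L) →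
        (Sat (Lev L) φ (fun i => B (v i) ∩ vC Set.univ L) ↔ Sat (Lev t) φ fun i => B (v i)))
      fun n => by
        by_cases e : ∃ φ, enc φ = n
        · obtain ⟨φ, rfl⟩ := e
          filter_upwards [ev_diag_fin ht (fv φ) _ (fun v w L e h => by
            rwa [← sat_congr φ (v := fun i => B (v i) ∩ vC Set.univ L)
              (w := fun i => B (w i) ∩ vC Set.univ L) fun i hi => by simp only [e i hi],
              ← sat_congr φ (v := fun i => B (v i)) (w := fun i => B (w i))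
                fun i hi => by simp only [e i hi]])
            (los ht B b1 b2 hT φ)] with L h ψ e
          rwa [enc_inj ψ φ e]
        · exact Eventually.of_forall fun _ φ h => absurd ⟨φ, h⟩ e)))))
  replace c2 := fun a (h1 : a ∈ c) => not_not.1 fun h => c2 a (mem_sep.2 ⟨c1.1 h1, h⟩) h1
  have c0 := fun a h1 => (c2 a h1).1
  replace c2 := fun a h1 => (c2 a h1).2
  have h2 : ∀ a A : ZFSet.{u}, ∃ x, (∃ x ∈ a, A = B x ∩ vC Set.univ a) →
      x ∈ a ∧ A = B x ∩ vC Set.univ a := fun a A => by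
    by_cases e : ∃ x ∈ a, A = B x ∩ vC Set.univ a
    exacts [e.imp fun _ h _ => h, ⟨∅, fun h => absurd h e⟩]
  choose X hX using h2
  have h3 : ∀ a ∈ c, ∀ x ∈ a, B (X a (B x ∩ vC Set.univ a)) = B x :=
    fun a a1 x hx => by
      obtain ⟨x1, x2⟩ := hX a _ ⟨x, hx, rfl⟩
      exact ((c2 a a1).2.2.2 _ (.eq 0 1) rfl (cons (X a (B x ∩ vC Set.univ a)) fun _ => x)
        fun i => by cases i; exacts [x1, hx]).1 x2.symm
  have h5 : ∀ a ∈ c, Ext a t fun A => B (X a A) := fun a a1 => by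
    obtain ⟨l1, ⟨y, y1, y2⟩, l2, l3⟩ := c2 a a1
    have hat := c1.1 a1
    have ao := ht.1.mem hat
    refine ⟨fun x hx => b1 _ (ht.1.mem_trans (hX a x (l1 x hx)).1 hat), fun φ v hv => ?_,
      fun x hx => ?_, ?_⟩
    · rw [← l3 _ φ rfl (fun i => X a (v i)) fun i => (hX a _ (l1 _ (hv i))).1]
      exact sat_congr φ fun i _ => (hX a _ (l1 _ (hv i))).2
    · obtain ⟨z, z1, z2⟩ := l2 x hx
      have := h3 a a1 z z1
      rwa [z2, show x ∩ vC Set.univ a = x from ZFSet.ext fun w => mem_inter.trans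
        (and_iff_left_of_imp fun hw => (mem_vC_ord ao).2
          (rank_lt_of_mem (ao.mem_trans hw hx)))] at this
    · have := h3 a a1 y y1
      rwa [y2, show t ∩ vC Set.univ a = a from ZFSet.ext fun w => mem_inter.trans
        ⟨fun hw => ((ht.1.mem hw.1).rank_lt_iff_mem ao).1 ((mem_vC_ord ao).1 hw.2),
          fun hw => ⟨ht.1.mem_trans hw hat, (mem_vC_ord ao).2 (rank_lt_of_mem hw)⟩⟩] at this
  refine ⟨c, fun a A => B (X a A), c1, fun a a1 => ⟨h5 a a1,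
    fun b e1 e3 x hx => ?_, fun e1 e2 => ?_⟩, fun A hA => ?_⟩
  · have bo := ht.1.mem (c1.1 e1)
    have h4 := bo.mem_trans (hX a x ((c2 a a1).1 x hx)).1 e3
    exact ⟨_, inter_Lev ht.1 (b1 _ (ht.1.mem_trans h4 (c1.1 e1))) bo, h3 b e1 _ h4⟩
  · obtain ⟨l1, ⟨y, y1, -⟩, -⟩ := c2 a a1
    have la := (c0 a a1).2.1
    have ao := ht.1.mem (c1.1 a1)
    have th : Thread a fun A => B (X a A) := fun A w h => by
      obtain ⟨z, z1, z2⟩ := (c0 a a1).1 e1 (unc_of_not_cof ao la y1 e2)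
        (fun k => X a (A k)) w fun k => ⟨(hX a _ (l1 _ (h k).1)).1, (h k).2⟩
      exact ⟨z, fun k => (hX a _ (l1 _ (h k).1)).2 ▸ z1 k, z2⟩
    obtain ⟨N, j, n1, n2, n3, n4, n5⟩ :=
      exists_class (h5 a a1) ht.1 (c1.1 a1) la (fun b hb => hu.succ hb) th
    obtain ⟨E, hE⟩ := exists_st (h5 a a1) ht.1 (c1.1 a1) la (fun b hb => hu.succ hb) th
      fun v hv => by
        have h7 := (lev_tr a).mem_trans hv (low_lev ao)
        obtain ⟨x1, x2⟩ := hX a v (l1 v h7)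
        have h8 := (h5 a a1).tf3 (c1.1 a1) (fun x y _ => x ∈ y) h7 (low_lev ao) h7 hv
        rw [(h5 a a1).low ht.1 (c1.1 a1)] at h8
        have h9 := (mem_vC_ord ao).1 ((c0 a a1).2.2 _ x1 (mem_sep.1 h8).1)
        refine Eq.trans (ZFSet.ext fun z => ?_) x2.symm
        exact (mem_inter.trans (and_iff_left_of_imp fun hz =>
          (mem_vC_ord ao).2 ((rank_lt_of_mem hz).trans h9))).symm
    obtain ⟨W, i, p, w1, w2, w3, w4, w5, w6, w7⟩ := hE.exists_self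
    exact ⟨N, W, j, i, p, ⟨n1, n5⟩, ⟨w1, w7⟩, ⟨n2, n3⟩, ⟨w2, w3⟩, ⟨w4, w5⟩,
      fun x hx => ⟨n4 x hx, w6 x hx⟩⟩
  · obtain ⟨x, hx, rfl⟩ := b2 A hA
    obtain ⟨a, a1, a2⟩ := c1.2.1 x hx
    exact ⟨a, a1, _, inter_Lev ht.1 hA (ht.1.mem (c1.1 a1)), h3 a a1 x a2⟩

end Pool.Agent.MP_ecfd11_lc.H3U
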