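import Pool.Agent.MP_ecfd11_lc.H3U.SBase
import Pool.Agent.MP_ecfd11_lc.H3U.ReflB

/-!
There is no gap between the traces of the sets in `HOD ∩ V_(t+1)`.
-/

set_option synthInstance.maxSize 4000

namespace Pool.Agent.MP_ecfd11_lc.H3U

open Pool.Agent.MP_ecfd11_lc.H20 Pool.Agent.MP_ecfd11_lc.H13X

universe u

open ZFSet Cardinal Function Filter

section

variable {S t d : ZFSet.{u}}

/-- The diagonal supremum of a linearly ordered family stays a least upper bound below almost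
every point of small cofinality. -/
theorem lub_local' (ht : Regular Set.univ t) (hd : Regular Set.univ d) (hdt : d ∈ t)
    {J : ZFSet.{u}} (hJ : J ⊆ t)
    (h : ZFSet.{u} → ZFSet.{u} → ZFSet.{u}) (ho : ∀ x ∈ t, ∀ L ∈ t, (h x L).IsOrdinal)
    (tot : ∀ x ∈ J, ∀ y ∈ J, (∀ᶠ L in cf S (unc_of_regular ht), h x L ⊆ h y L) ∨
      ∀ᶠ L in cf S (unc_of_regular ht), h y L ⊆ h x L) :
    ∃ x0, card x0 < card d ∧ ∀ᶠ b in cf t (unc_of_regular ht), ∀ hb : Unc b, Sm d b →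
      (∀ y, y ⊆ b → card y ≤ card x0 → ∃ c ∈ b, ∀ z ∈ y, z ∈ c) →
      ∀ c' : ZFSet.{u} → ZFSet.{u}, (∀ L ∈ b, (c' L).IsOrdinal) →
      (∀ x ∈ J, x ∈ b → ∀ᶠ L in cf S hb, h x L ∈ c' L) →
      ∀ᶠ L in cf S hb, ∀ x ∈ J, x ∈ L → h x L ∈ c' L := by
  have hu := unc_of_regular ht
  let Le : ZFSet.{u} → ZFSet.{u} → Prop := fun x y => ∀ᶠ L in cf S hu, h x L ⊆ h y L
  have h1 := ev_refl (S := S) ht (p := fun L => ∀ x ∈ L, ∀ y ∈ L, Le x y → h x L ⊆ h y L)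
    (ev_diag ht fun x _ => ev_diag ht fun y _ => by
      by_cases e : Le x y
      · filter_upwards [e] with L h1 _ using h1
      · exact Eventually.of_forall fun _ h1 => absurd h1 e)
  by_cases h2 : ∃ K, K ⊆ J ∧ card K < card d ∧ ∀ x ∈ J, ∃ k ∈ K, Le x k
  · obtain ⟨K, k1, k2, k3⟩ := h2
    obtain ⟨a, ha, k4⟩ := ht.bddV (k2.trans (ht.card_lt hdt)) (fun x => x) fun x hx => hJ (k1 hx)
    refine ⟨K, k2, ?_⟩
    filter_upwards [h1, ev_above hu ha, ev_mem hu] with b b1 b2 b3 hb _ b4 c' c1 c2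
    filter_upwards [(ev_iff hb).2 b1, ev_above hb b2, ev_mem hb, ev_diag' (S := S) hb
      (k := Order.succ (card K)) (X := K) (fun y y1 y2 => b4 y y1 (Order.lt_succ_iff.1 y2))
      (fun e _ => Order.lt_succ_iff.2 (card_mono fun x hx => (mem_inter.1 hx).1))
      fun k hk => c2 k (k1 hk) (hb.1.mem_trans (k4 k hk) b2)] with L l1 l2 l3 l4 x hx hxL
    obtain ⟨k, hk, h3⟩ := k3 x hx
    have h4 := (hb.1.mem l3.2).mem_trans (k4 k hk) l2
    exact (ho x (hJ hx) L (ht.1.mem_trans l3.2 b3.2)).mem_of_subset_of_mem (c1 L l3.2)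
      (l1 x hxL k h4 h3) (l4 k hk h4)
  · have h3 : ∀ a, ∃ c ∈ t, a ∈ t → ∀ K, K ⊆ J → K ⊆ a → card K < card d →
        ∃ x ∈ J, x ∈ c ∧ ∀ k ∈ K, Le k x := fun a => by
      by_cases e : ∃ x ∈ J, ∀ k ∈ J, k ∈ a → Le k x
      · obtain ⟨x, x1, x2⟩ := e
        exact ⟨_, ht.succ_mem (hJ x1), fun _ K k1 k2 _ =>
          ⟨x, x1, mem_insert _ _, fun k hk => x2 k (k1 hk) (k2 hk)⟩⟩
      by_cases ha : a ∈ t
      swap
      · exact ⟨d, hdt, fun h => absurd h ha⟩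
      refine ⟨a, ha, fun _ K k1 _ k3 => ?_⟩
      obtain ⟨x, x1, x2⟩ : ∃ x ∈ J, ∀ k ∈ K, Le k x := by
        by_contra h3
        refine h2 ⟨K, k1, k3, fun x hx => by_contra fun h4 => h3 ⟨x, hx, fun k hk =>
          (tot k (k1 hk) x hx).resolve_right fun h5 => h4 ⟨k, hk, h5⟩⟩⟩
      obtain ⟨z, z1, z2, z3⟩ : ∃ z ∈ J, z ∈ a ∧ ¬ Le z x := by
        by_contra h3
        exact e ⟨x, x1, fun k h4 h5 => by_contra fun h6 => h3 ⟨k, h4, h5, h6⟩⟩
      refine ⟨z, z1, z2, fun k hk => ?_⟩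
      filter_upwards [x2 k hk, (tot z z1 x x1).resolve_left z3] with L l1 l2 using l1.trans l2
    choose N n1 n2 using h3
    refine ⟨∅, by rw [card_empty]; exact aleph0_pos.trans hd.aleph0_lt, ?_⟩
    filter_upwards [h1, ev_diag ht fun a _ => ev_above hu (n1 a), ev_mem hu]
      with b b1 b2 b3 hb b4 _ c' c1 c2
    obtain ⟨E, e1, e2⟩ := b4.exists_club hd hb.1
    by_contra h3
    have h4 : ∀ L, ∃ x, (∃ x ∈ J, x ∈ L ∧ h x L ∉ c' L) → x ∈ J ∧ x ∈ L ∧ h x L ∉ c' L :=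
      fun L => by
        by_cases e : ∃ x ∈ J, x ∈ L ∧ h x L ∉ c' L
        exacts [e.imp fun _ h _ => h, ⟨∅, fun h => absurd h e⟩]
    choose G hG using h4
    obtain ⟨a, ha, h4⟩ := fr_press (S := S) hb
      (p := fun x L => G L = x ∧ x ∈ J ∧ x ∈ L ∧ h x L ∉ c' L) ((not_eventually.1 h3).mono
        fun L hL => by
          simp only [not_forall, exists_prop] at hL
          exact ⟨_, (hG L hL).2.1, rfl, hG L hL⟩)
    have hat := ht.1.mem_trans ha b3.2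
    obtain ⟨z, h5, h8, h6⟩ := n2 a hat (img G (E.sep fun L => G L ∈ a ∧ G L ∈ J))
      (fun x hx => by
        obtain ⟨L, hL, rfl⟩ := mem_img.1 hx
        exact (mem_sep.1 hL).2.2) (fun x hx => by
        obtain ⟨L, hL, rfl⟩ := mem_img.1 hx
        exact (mem_sep.1 hL).2.1) (((card_img_le _ _).trans (card_mono sep_subset)).trans_lt e2)
    have h7 := hb.1.mem_trans h8 (b2 a ha)
    obtain ⟨L, ⟨x, l1, rfl, l2, l3, l4⟩, l5, l6, l7, l8, l9⟩ := (h4.and_eventually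
      (((ev_iff hb).2 b1).and ((ev_above hb h7).and ((ev_club hb e1).and
        ((c2 _ h5 h7).and (ev_mem hb)))))).exists
    exact l4 ((ho _ (hJ l2) L (ht.1.mem_trans l9.2 b3.2)).mem_of_subset_of_mem (c1 L l9.2)
      (l5 _ l3 _ l6 (h6 _ (mem_img.2 ⟨L, mem_sep.2 ⟨l7, l1, l2⟩, rfl⟩))) l8)

end

theorem sm_lim {d L : ZFSet.{u}} (h : Sm d L) : ∀ b ∈ L, ∃ c ∈ L, b ∈ c := fun b hb => by
  obtain ⟨y, y1, -, y2⟩ := h
  obtain ⟨z, z1, z2⟩ := y2 b hb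
  exact ⟨z, y1 z1, z2⟩

theorem gap' {d t S O n : ZFSet.{u}} (hd : StronglyCompact d t) (hdt : d ∈ t)
    (hs : StronglyMeasurable Set.univ t) (hS : Atom d t S)
    (hO0 : OD Set.univ O)
    (hO : ∀ A, A ∈ O ↔ A ⊆ vC Set.univ t ∧ HOD Set.univ A) (hn : n.IsOrdinal)
    (r : ZFSet.{u} → ZFSet.{u}) [r0 : Tm Set.univ On (fun v => r (v 0))] (r1 : ∀ A ∈ O, r A ∈ n)
    (r2 : ∀ A ∈ O, ∀ A' ∈ O, r A = r A' → A = A') (B : ZFSet.{u} → ZFSet.{u})
    (b1 : ∀ x ∈ t, B x ∈ O) (b2 : ∀ A ∈ O, ∃ x ∈ t, B x = A)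
    (Φ : ZFSet.{u} → ZFSet.{u} → Prop) [Df Set.univ On (fun v => Φ (v 0) (v 1))] :
    ∀ᶠ L in cf S (unc_of_regular hs.1), ∀ A ∈ O, A ⊆ vC Set.univ L → Φ L A → ∃ x ∈ L,
      (∀ᶠ L' in cf S (unc_of_regular hs.1), Φ L' (B x ∩ vC Set.univ L')) ∧
        r A ⊆ r (B x ∩ vC Set.univ L) := by
  have ht := hs.1
  have hu := unc_of_regular ht
  obtain ⟨L0, hLt, hL0, nc⟩ : ∃ a ∈ t, CofOmega Set.univ a ∧ ¬ ∃ y, OD Set.univ y ∧ y ⊆ a ∧
      (∀ b, b ∈ a → ∃ x, x ∈ y ∧ b ∈ x) ∧ img (fun x => colIn y x) y ∈ d := by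
    obtain ⟨-, m, hm, hm', -, h2⟩ := hs
    by_contra h0
    exact h2 (solovay ht hdt hm hm' (CofOmega Set.univ) (stat_cofOmega ht) fun a ha ha' =>
      by_contra fun h => h0 ⟨a, ha, ha', h⟩)
  have od : ∀ A ∈ O, OD Set.univ A := fun A hA => ((hO A).1 hA).2.self
  have hN := hS.na ht
  have := od_iff.1 hO0
  have := od_iff.1 hS.1
  have : Tm Set.univ On (fun _ => t) := Tm.ofOrd ht.1
  have : Tm Set.univ On (fun _ => L0) := Tm.ofOrd hL0.1
  have := Tm.one (C := Set.univ) (A := On) r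
  have := Df.two (C := Set.univ) (A := On) Φ
  have tr : ∀ A ∈ O, ∀ L ∈ t, A ∩ vC Set.univ L ∈ O := fun A hA L hL => by
    have := od_iff.1 (od A hA)
    have : Tm Set.univ On (fun _ => L) := Tm.ofOrd (ht.1.mem hL)
    exact (hO _).2 ⟨fun z hz => ((hO A).1 hA).1 (mem_inter.1 hz).1, hereditarily_iff.2
      ⟨od_iff.2 inferInstance, fun z hz => ((hO A).1 hA).2.mem (mem_inter.1 hz).1⟩⟩
  have ro : ∀ A ∈ O, ∀ L ∈ t, (r (A ∩ vC Set.univ L)).IsOrdinal := fun A hA L hL =>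
    hn.mem (r1 _ (tr A hA L hL))
  obtain ⟨J, hJ⟩ : ∃ J : ZFSet.{u}, ∀ x, x ∈ J ↔
      x ∈ t ∧ ∀ᶠ L in cf S hu, Φ L (B x ∩ vC Set.univ L) := ⟨t.sep _, fun _ => mem_sep⟩
  obtain ⟨c, c1, c2⟩ : ∃ c : ZFSet.{u} → ZFSet.{u}, (∀ L ∈ t, (c L).IsOrdinal) ∧
      ∀ L ∈ t, ∀ y : ZFSet.{u}, y.IsOrdinal →
        (c L ⊆ y ↔ ∀ x ∈ J, x ∈ L → r (B x ∩ vC Set.univ L) ∈ y) := by
    refine ⟨fun L => ⋃₀ img (fun x => insert (r (B x ∩ vC Set.univ L))
      (r (B x ∩ vC Set.univ L))) (J ∩ L), fun L hL => isOrdinal_sUnion fun y hy => ?_,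
      fun L hL y hy => ⟨fun h x x1 x2 => h (mem_sUnion.2 ⟨_, mem_img.2
        ⟨x, mem_inter.2 ⟨x1, x2⟩, rfl⟩, mem_insert _ _⟩), fun h z hz => ?_⟩⟩
    · obtain ⟨x, hx, rfl⟩ := mem_img.1 hy
      exact isOrdinal_succ (ro _ (b1 x ((hJ x).1 (mem_inter.1 hx).1).1) L hL)
    · obtain ⟨_, h1, h2⟩ := mem_sUnion.1 hz
      obtain ⟨x, hx, rfl⟩ := mem_img.1 h1
      have h3 := h x (mem_inter.1 hx).1 (mem_inter.1 hx).2
      exact (mem_insert_iff.1 h2).elim (fun e => e ▸ h3) fun h4 => hy.mem_trans h4 h3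
  have c3 : ∀ L ∈ t, ∀ x ∈ J, x ∈ L → r (B x ∩ vC Set.univ L) ∈ c L := fun L hL =>
    (c2 L hL _ (c1 L hL)).1 subset_rfl
  obtain ⟨G, hG⟩ : ∃ G : ZFSet.{u} → ZFSet.{u} → ZFSet.{u} → Prop, G = fun L y A =>
    A ∈ O ∧ A ⊆ vC Set.univ L ∧ y ⊆ r A ∧ Φ L A ∧
      ∀ A', A' ∈ O → A' ⊆ vC Set.univ L → y ⊆ r A' → Φ L A' → r A' ∉ r A := ⟨_, rfl⟩
  have : Df Set.univ On (fun v => G (v 0) (v 1) (v 2)) := by rw [hG]; infer_instance
  have := Df.three' (C := Set.univ) G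
  have g0 : ∀ L, ∃ A, ∀ A', G L (c L) A' → A' = A := fun L => by
    by_cases e : ∃ A, G L (c L) A
    · obtain ⟨A, hA⟩ := e
      refine ⟨A, fun A' hA' => ?_⟩
      rw [hG] at hA hA'
      obtain ⟨a1, a2, a3, a4, a5⟩ := hA
      obtain ⟨e1, e2, e3, e4, e5⟩ := hA'
      rcases (hn.mem (r1 A' e1)).mem_trichotomous (hn.mem (r1 A a1)) with h | h | h
      exacts [absurd h (a5 A' e1 e2 e3 e4), r2 A' e1 A a1 h, absurd h (e5 A a1 a2 a3 a4)]
    · exact ⟨∅, fun A h => absurd ⟨A, h⟩ e⟩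
  choose g g1 using g0
  have key : ∀ L (q : ZFSet.{u} → Prop),
      (G L (c L) (g L) ∧ q (g L)) ↔ ∃ A, G L (c L) A ∧ q A := fun L q =>
    ⟨fun h => ⟨_, h⟩, fun ⟨A, h⟩ => g1 L A h.1 ▸ h⟩
  have g2 : ∀ L, G L (c L) (g L) → g L ∈ O ∧ g L ⊆ vC Set.univ L ∧ c L ⊆ r (g L) ∧ Φ L (g L) :=
    fun L h => by
      rw [hG] at h
      exact ⟨h.1, h.2.1, h.2.2.1, h.2.2.2.1⟩
  have clt : Cl t S c := cl_of_lub hu hS.1 hS.2.2.1 hN hO0 od
    (fun A L => r (A ∩ vC Set.univ L)) ro c1 fun c' h1 h2 => by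
      filter_upwards [ev_diag (S := S) ht (p := fun x L => x ∈ J → r (B x ∩ vC Set.univ L) ∈ c' L)
        fun x hx => by
          by_cases e : x ∈ J
          · filter_upwards [h2 _ (b1 x hx) (by
              filter_upwards [ev_above hu hx, ev_mem hu] with L l1 l2 using c3 L l2.2 x e l1)]
              with L l1 _ using l1
          · exact Eventually.of_forall fun _ h => absurd h e, ev_mem hu] with L l1 l2
      exact (c2 L l2.2 _ (h1 L l2.2)).2 fun x x1 x2 => l1 x x2 x1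
  by_contra h0
  have hD : ∃ᶠ L in cf S hu, G L (c L) (g L) :=
    ((not_eventually.1 h0).and_eventually (ev_mem hu)).mono fun L ⟨l1, l2⟩ => by
      simp only [not_forall, not_exists, not_and, exists_prop] at l1
      obtain ⟨A, a1, a2, a3, a4⟩ := l1
      obtain ⟨A', ⟨e1, e2, e3, e4⟩, e5⟩ := (InvImage.wf r mem_wf).has_min
        {A | A ∈ O ∧ A ⊆ vC Set.univ L ∧ c L ⊆ r A ∧ Φ L A} ⟨A, a1, a2,
          (c2 L l2.2 _ (hn.mem (r1 A a1))).2 fun x x1 x2 => ((ro _ (b1 x ((hJ x).1 x1).1) L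
            l2.2).mem_or_subset (hn.mem (r1 A a1))).resolve_right (a4 x x2 ((hJ x).1 x1).2), a3⟩
      have h1 : G L (c L) A' := by
        rw [hG]
        exact ⟨e1, e2, e3, e4, fun A a1 a2 a3 a4 => e5 A ⟨a1, a2, a3, a4⟩⟩
      exact g1 L A' h1 ▸ h1
  obtain ⟨x0, x1, x2⟩ := lub_local' (S := S) ht hd.1 hdt
    (J := J) (fun x hx => ((hJ x).1 hx).1) (fun x L => r (B x ∩ vC Set.univ L))
    (fun x hx => ro _ (b1 x hx)) fun x hx y hy => by
      have hx' := b1 x ((hJ x).1 hx).1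
      have hy' := b1 y ((hJ y).1 hy).1
      have := od_iff.1 (od _ hx')
      have := od_iff.1 (od _ hy')
      refine (ev_or hu hN fun L => r (B x ∩ vC Set.univ L) ⊆ r (B y ∩ vC Set.univ L)).imp_right
        fun h => ?_
      filter_upwards [h, ev_mem hu] with L l1 l2 using
        ((ro _ hx' L l2.2).subset_total (ro _ hy' L l2.2)).resolve_left l1
  obtain ⟨T, t0, hT⟩ : ∃ T, OD Set.univ T ∧ ∀ a ∈ t, ∀ y, pair a y ∈ T ↔
      ∃ᶠ L in cf S hu, G L (c L) (g L) ∧ g L ∩ vC Set.univ a = y := by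
    refine ⟨_, clt.od hu hS.1 (I := prod t O) (od_iff.2 inferInstance)
      fun z L w => ∃ A, G L w A ∧ A ∩ vC Set.univ (fst z) = snd z, fun a ha y => ?_⟩
    have e : ∀ L, (G L (c L) (g L) ∧ g L ∩ vC Set.univ a = y) ↔
      ∃ A, G L (c L) A ∧ A ∩ vC Set.univ a = y := fun L => key L fun A => A ∩ vC Set.univ a = y
    simp only [mem_sep, fst_pair, snd_pair, pair_mem_prod, ← e, ha, true_and]
    refine and_iff_right_of_imp fun h => ?_
    obtain ⟨L, l1, rfl⟩ := h.exists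
    exact tr _ (g2 L l1).1 a ha
  have := od_iff.1 t0
  have t1 : ∀ a ∈ t, ∀ y, pair a y ∈ T → y ∈ O := fun a ha y hy => by
    obtain ⟨L, l1, rfl⟩ := ((hT a ha y).1 hy).exists
    exact tr _ (g2 L l1).1 a ha
  have pc : ∀ a ∈ t, ∀ p : ZFSet.{u} → Prop, (∃ᶠ L in cf S hu, G L (c L) (g L) ∧ p L) →
      ∃ y, ∃ᶠ L in cf S hu, (G L (c L) (g L) ∧ p L) ∧ g L ∩ vC Set.univ a = y :=
    fun a ha p h => (fr_piece' ht (few_hod hs ha) (fun L => g L ∩ vC Set.univ a) h fun L hL =>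
      mem_sep.2 ⟨mem_powerset.2 fun z hz => (mem_inter.1 hz).2,
        ((hO _).1 (tr _ (g2 L hL.1).1 a ha)).2⟩).imp fun _ h => h.2
  have hm := union_mem ht.1 hLt ht.2.1
  obtain ⟨n0, n1, n2⟩ := exists_not_dInj (C := Set.univ) ht.1 (ht.1.mem hm)
    (fun z hz => mem_union.2 (Or.inr hz)) (no_inj_of_sm hs hm)
  obtain ⟨a, ha, y, y1, y3⟩ := stop_od ht hO0 od (fun a y => pair a y ∈ T) t1
    (fun a ha e he h y hy => (hT a ha _).2 (((hT e he y).1 hy).mono fun L hL => ⟨hL.1, by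
      rw [← hL.2, inter_inter (vC_mono (ht.1.mem ha) (ht.1.mem he) h)]⟩))
    (fun a ha e he h y hy => by
      obtain ⟨w, hw⟩ := pc e he _ ((hT a ha y).1 hy)
      obtain ⟨L, l1, l2⟩ := hw.exists
      exact ⟨w, (hT e he w).2 (hw.mono fun L hL => ⟨hL.1.1, hL.2⟩), by
        rw [← l2, inter_inter (vC_mono (ht.1.mem ha) (ht.1.mem he) h), l1.2]⟩)
    (fun a ha => (pc a ha (fun _ => True) (hD.mono fun L hL => ⟨hL, trivial⟩)).imp fun y hy =>
      (hT a ha y).2 (hy.mono fun L hL => ⟨hL.1.1, hL.2⟩)) hm (fun a ha => by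
    have : Tm Set.univ On (fun _ => a) := Tm.ofOrd (ht.1.mem ha)
    obtain ⟨k, k0, k1, k2⟩ := od_enum (X := O.sep fun y => pair a y ∈ T)
      (od_iff.2 inferInstance) fun y hy => od y (mem_sep.1 hy).1
    have := Tm.one (C := Set.univ) (A := On) k
    refine ⟨k, k0, fun y hy => mem_union.2 (Or.inl (hL0.1.mem_trans (mem_img.2 ⟨y, hy, rfl⟩)
      ((k1.mem_or_subset hL0.1).resolve_right fun h1 => ?_))), k2⟩
    obtain ⟨P, hP⟩ : ∃ P : ZFSet.{u} → ZFSet.{u} → ZFSet.{u} → Prop, P = fun i L z =>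
      ∃ A, G L z A ∧ k (A ∩ vC Set.univ a) = i := ⟨_, rfl⟩
    have : Df Set.univ On (fun v => P (v 0) (v 1) (v 2)) := by rw [hP]; infer_instance
    obtain ⟨-, F, -, f1, f2⟩ := hL0
    have hom : card om < card d := hd.1.card_lt hd.1.2.1
    obtain ⟨b, ⟨s1, hb, s2, s3⟩, s4, s5, s6⟩ := (((fr_iff hu).2 (refl_big hd hdt ht x0
      (img (app F) om) (fun i => S.sep fun L => P i L (c L)) x1
      ((card_img_le _ _).trans_lt hom) fun i hi => by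
        obtain ⟨m, hm, rfl⟩ := mem_img.1 hi
        obtain ⟨y, y1, y2⟩ := mem_img.1 (h1 (f1.app_mem' hm))
        refine ⟨fun L hL => (hS.2.1 L (mem_sep.1 hL).1).2, (fr_iff hu).1
          (((hT a ha y).1 (mem_sep.1 y1).2).mono fun L hL => ?_)⟩
        rw [hP]
        exact ⟨_, hL.1, hL.2 ▸ y2⟩)).and_eventually (x2.and ((ev_mem hu).and
          ((ev_iff hu (p := fun b => Sm d b → NA S b)).2 ((hS.glue hd.1 hdt (hd.refl hdt ht)
            hs).mono fun b hb hb' => mem_sep.2 ⟨hb', Classical.not_imp.1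
              (mem_sep.1 hb).2⟩))))).exists
    have sub : ∀ L ∈ b, L ∈ t := fun L hL => ht.1.mem_trans hL s5.2
    have clb : Cl b S c := cl_of_lub hb hS.1 (fun h => s3 _ (mem_img.2 ⟨∅, empty_mem_om, rfl⟩)
        (h.mono fun L hL _ => (mem_sep.1 hL).1)) (s6 s1) hO0 od
      (fun A L => r (A ∩ vC Set.univ L)) (fun A hA L hL => ro A hA L (sub L hL))
      (fun L hL => c1 L (sub L hL)) fun c' h1 h2 => by
        filter_upwards [s4 hb s1 s2 c' h1 fun x hx hxb => h2 _ (b1 x (sub x hxb)) (by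
          filter_upwards [ev_above hb hxb, ev_mem hb] with L l1 l2 using
            c3 L (sub L l2.2) x hx l1), ev_mem hb] with L l1 l2
        exact (c2 L (sub L l2.2) _ (h1 L l2.2)).2 l1
    obtain ⟨E, e1, e2⟩ := s1.exists_club hd.1 hb.1
    have ho := img_colIn_ord (b := L0.sep fun i => ∃ᶠ L in cf S hb, P i L (c L))
      fun x hx => ht.1.mem (ht.1.mem_trans (mem_sep.1 hx).1 hLt)
    refine nc ⟨_, clb.od hb hS.1 (od_iff.2 inferInstance) P, sep_subset, fun x hx => ?_,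
      hd.1.mem_of_card_lt ho ((card_img_le _ _).trans_lt ?_)⟩
    · obtain ⟨m, z, h4, h5⟩ := f2 x hx
      exact ⟨z, mem_sep.2 ⟨(pair_mem_prod.1 (f1.1 h4)).2, (fr_iff hb).2 (s3 _ (mem_img.2
        ⟨m, (pair_mem_prod.1 (f1.1 h4)).1, f1.app_eq h4⟩))⟩, h5⟩
    · choose! Y y1 y2 using fun i (hi : i ∈ L0.sep fun i => ∃ᶠ L in cf S hb, P i L (c L)) =>
        ((mem_sep.1 hi).2.and_eventually (ev_club hb e1)).exists
      refine (card_le_of_inj Y y2 fun i hi j hj e => ?_).trans_lt e2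
      have h4 := y1 i hi
      have h5 := y1 j hj
      rw [hP] at h4 h5
      obtain ⟨A, h4, rfl⟩ := h4
      obtain ⟨A', h5, h6⟩ := h5
      rw [← h6, g1 _ A h4, g1 _ A' h5, e]) n1 n2
  have : Tm Set.univ On (fun _ => a) := Tm.ofOrd (ht.1.mem ha)
  have := od_iff.1 (od y (t1 a ha y y1))
  rw [hT a ha] at y1
  have y2 : ∀ z ∈ vC Set.univ t,
      (∃ᶠ L in cf S hu, (G L (c L) (g L) ∧ g L ∩ vC Set.univ a = y) ∧ z ∈ g L) →
      ∀ᶠ L in cf S hu, G L (c L) (g L) ∧ g L ∩ vC Set.univ a = y → z ∈ g L := fun z hz h1 => by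
    by_contra h2
    obtain ⟨e0, e1, e2⟩ := exists_level ht.1 (fun b hb => hu.succ hb) ((mem_vC_ord ht.1).1 hz)
    obtain ⟨e, e3, e4, e5⟩ := exists_bound2 ht.1 ha e1
    have e6 := vC_mono (ht.1.mem e1) (ht.1.mem e3) e5 ((mem_vC_ord (ht.1.mem e1)).2 e2)
    have e7 := vC_mono (ht.1.mem ha) (ht.1.mem e3) e4
    obtain ⟨w, w1⟩ := pc e e3 (fun L => g L ∩ vC Set.univ a = y ∧ z ∈ g L)
      (h1.mono fun L hL => ⟨hL.1.1, hL.1.2, hL.2⟩)
    obtain ⟨w', w2⟩ := pc e e3 (fun L => g L ∩ vC Set.univ a = y ∧ z ∉ g L)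
      ((not_eventually.1 h2).mono fun L hL => ⟨(Classical.not_imp.1 hL).1.1,
        (Classical.not_imp.1 hL).1.2, (Classical.not_imp.1 hL).2⟩)
    obtain ⟨L, l1, l2⟩ := w1.exists
    obtain ⟨L', l3, l4⟩ := w2.exists
    have h3 := y3 e e3 e4 w w' ((hT e e3 w).2 (w1.mono fun L hL => ⟨hL.1.1, hL.2⟩))
      ((hT e e3 w').2 (w2.mono fun L hL => ⟨hL.1.1, hL.2⟩))
      (by rw [← l2, inter_inter e7, l1.2.1]) (by rw [← l4, inter_inter e7, l3.2.1])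
    exact l3.2.2 (mem_inter.1 (l4 ▸ h3 ▸ l2 ▸ mem_inter.2 ⟨l1.2.2, e6⟩ :
      z ∈ g L' ∩ vC Set.univ e)).1
  obtain ⟨x, hx, e⟩ := b2 _ ((hO _).2 ⟨sep_subset, hereditarily_iff.2
    ⟨clt.od hu hS.1 (I := vC Set.univ t) (od_iff.2 inferInstance)
      fun z L w => ∃ A, G L w A ∧ A ∩ vC Set.univ a = y ∧ z ∈ A, fun z hz => by
        obtain ⟨L, A, a1, -, a2⟩ := (mem_sep.1 hz).2.exists
        rw [hG] at a1
        exact ((hO A).1 a1.1).2.mem a2⟩⟩)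
  have h1 : ∀ z ∈ vC Set.univ t, ∀ᶠ L in cf S hu,
      G L (c L) (g L) ∧ g L ∩ vC Set.univ a = y → (z ∈ g L ↔ z ∈ B x) := fun z hz => by
    have h1 : z ∈ B x ↔
        ∃ᶠ L in cf S hu, (G L (c L) (g L) ∧ g L ∩ vC Set.univ a = y) ∧ z ∈ g L := by
      simp only [e, mem_sep, hz, true_and, and_assoc,
        key _ fun A => A ∩ vC Set.univ a = y ∧ z ∈ A]
    by_cases h2 : z ∈ B x
    · filter_upwards [y2 z hz (h1.1 h2)] with L l1 l2 using iff_of_true (l1 l2) h2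
    · filter_upwards [not_frequently.1 fun h => h2 (h1.2 h)] with L l1 l2 using
        iff_of_false (fun h => l1 ⟨l2, h⟩) h2
  have h2 : ∃ᶠ L in cf S hu, G L (c L) (g L) ∧ g L = B x ∩ vC Set.univ L :=
    (y1.and_eventually ((ev_diag ht fun a' ha' => ev_ball ht (few_hod hs ha')
      (p := fun z L => z ∈ vC Set.univ a' → G L (c L) (g L) ∧ g L ∩ vC Set.univ a = y →
        (z ∈ g L ↔ z ∈ B x)) fun z _ => by
          by_cases hz : z ∈ vC Set.univ a'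
          · filter_upwards [h1 z (vC_mono (ht.1.mem ha') ht.1 (ht.1.subset_of_mem ha') hz)]
              with L h _ using h
          · exact Eventually.of_forall fun _ h => absurd h hz).and (ev_mem hu))).mono
      fun L ⟨l1, l2, l3⟩ => ⟨l1.1, ZFSet.ext fun z => by
        have l4 := ht.1.mem l3.2
        have l5 : HOD Set.univ z → z ∈ vC Set.univ L → (z ∈ g L ↔ z ∈ B x) := fun h hz => by
          obtain ⟨a', a1, a2⟩ := exists_level l4 (sm_lim (hS.2.1 L l3.1).2) ((mem_vC_ord l4).1 hz)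
          exact l2 a' a1 z (mem_sep.2 ⟨mem_powerset.2 fun s hs => (mem_vC_ord (l4.mem a1)).2
            ((rank_lt_of_mem hs).trans a2), h⟩) ((mem_vC_ord (l4.mem a1)).2 a2) l1
        rw [mem_inter]
        exact ⟨fun h => ⟨(l5 (((hO _).1 (g2 L l1.1).1).2.mem h) ((g2 L l1.1).2.1 h)).1 h,
          (g2 L l1.1).2.1 h⟩, fun h => (l5 (((hO _).1 (b1 x hx)).2.mem h.1) h.2).2 h.1⟩⟩
  have := od_iff.1 (od _ (b1 x hx))
  have h3 : x ∈ J := (hJ x).2 ⟨hx, (ev_or hu hN fun L => Φ L (B x ∩ vC Set.univ L)).resolve_right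
    fun h => by
      obtain ⟨L, l1, l2⟩ := (h2.and_eventually h).exists
      exact l2 (l1.2 ▸ (g2 L l1.1).2.2.2)⟩
  obtain ⟨L, l1, l2, l3⟩ := (h2.and_eventually ((ev_above hu hx).and (ev_mem hu))).exists
  exact mem_irrefl _ ((l1.2 ▸ (g2 L l1.1).2.2.1) (c3 L l3.2 x h3 l2))

end Pool.Agent.MP_ecfd11_lc.H3U
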