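import Pool.Agent.MP_ecfd11_lc.H3U.STree

/-!
The calculus of the finite iterates of a countably complete extender over HOD.
-/

set_option synthInstance.maxSize 4000

namespace Pool.Agent.MP_ecfd11_lc.H3U

open Pool.Agent.MP_ecfd11_lc.H20 Pool.Agent.MP_ecfd11_lc.H13X

universe u

open ZFSet Cardinal Function Filter

variable {a t A c : ZFSet.{u}} {s : ZFSet.{u} → ZFSet.{u}}
  {E : Filter (ℕ → ZFSet.{u} → ZFSet.{u})} {m n : ℕ}
  {p q w x y z : (ℕ → ZFSet.{u} → ZFSet.{u}) → ZFSet.{u}}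

theorem Le.zero (h : Le E t 0 p) : ∃ c, OD Set.univ c ∧ ∀ᶠ H in E, p H = c := by
  obtain ⟨_, ⟨c, h1, rfl⟩, h2⟩ := h
  exact ⟨c, h1, h2⟩

namespace St

variable (h : St a t s E)
include h

theorem ha : a.IsOrdinal := h.ht.mem h.hat

theorem sub {v : ZFSet.{u}} (hv : v ∈ low a) : v ∈ low t := (mem_low h.ht).2
  ⟨((mem_low h.ha).1 hv).1.trans (rank_lt_of_mem h.hat), ((mem_low h.ha).1 hv).2⟩

theorem lev {v : ZFSet.{u}} (hv : v ∈ Lev a) : v ∈ low t := (mem_low h.ht).2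
  ⟨(Order.lt_add_one_iff.1 (mem_vonNeumann.1 (mem_sep.1 hv).1)).trans_lt (rank_lt_of_mem h.hat),
    (mem_sep.1 hv).2⟩

theorem t0 : a ∈ low t := (mem_low h.ht).2 ⟨rank_lt_of_mem h.hat, hod_ord h.ha⟩

theorem tms (hA : A ∈ Lev a) : Tm Set.univ On fun _ => s A :=
  od_iff.1 ((mem_Lev h.ht).1 (h.he.1 _ hA)).2.self

theorem k0 (hy : Le E t n y) (h1 : ∀ᶠ H in E, y H ∈ low t) : ∀ᶠ H in E, H n (y H) ∈ low a :=
  h.k1 hy (low_lev h.ha) (by rwa [h.he.low h.ht h.hat])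

theorem const (hc : OD Set.univ c) : Le E t n fun _ => c := by
  induction n generalizing c with
  | zero => exact Lv.le ⟨c, hc, rfl⟩
  | succ n ih =>
    have := od_iff.1 hc
    exact ((ih (hod_ord h.ha).self).step (.of_forall fun _ => h.t0)).comp fun _ => c

theorem mono (hp : Le E t n p) : Le E t (n + 1) p := by
  cases n with
  | zero =>
    obtain ⟨c, h1, h2⟩ := hp.zero
    exact (h.const h1).congr h2
  | succ n =>
    obtain ⟨f, y, h1, h2, h3, h4⟩ := hp.form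
    have h5 := h.k0 h2 h3
    refine (((h2.step h3).step (h5.mono fun _ => h.sub)).comp f).congr ?_
    filter_upwards [h4, h.k3 (h2.step h3) h5] with H h6 h7 using by rw [h6, h7]

theorem mono_le (hp : Le E t m p) (hm : m ≤ n) : Le E t n p := by
  induction n, hm using Nat.le_induction with
  | base => exact hp
  | succ n _ ih => exact h.mono ih

theorem pair (hp : Le E t n p) (hq : Le E t n q) : Le E t n fun H => pair (p H) (q H) := by
  induction n generalizing p q with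
  | zero =>
    obtain ⟨c, h1, h2⟩ := hp.zero
    obtain ⟨e, h3, h4⟩ := hq.zero
    have := od_iff.1 h1
    have := od_iff.1 h3
    refine (h.const (c := ZFSet.pair c e) (od_iff.2 inferInstance)).congr ?_
    filter_upwards [h2, h4] with H h5 h6 using by rw [h5, h6]
  | succ n ih =>
    obtain ⟨f, x, h1, h2, h3, h4⟩ := hp.form
    obtain ⟨g, y, h5, h6, h7, h8⟩ := hq.form
    have := Tm.one (C := Set.univ) (A := On) f
    have := Tm.one (C := Set.univ) (A := On) g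
    refine (((ih h2 h6).step (by
      filter_upwards [h3, h7] with H e1 e2 using low_pair h.ht h.lt e1 e2)).comp
        fun l => ZFSet.pair (f (fst l)) (g (snd l))).congr ?_
    filter_upwards [h4, h8, h.k2 h2 h6 h3 h7] with H e1 e2 e3
    rw [e1, e2, e3, fst_pair, snd_pair]

theorem k5 (hy : Le E t n y) (h1 : ∀ᶠ H in E, y H ∈ low t) (hA : A ∈ Lev a)
    (h2 : ∀ᶠ H in E, y H ∉ s A) : ∀ᶠ H in E, H n (y H) ∉ A := by
  have := od_iff.1 ((mem_Lev h.ha).1 hA).2.self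
  have := tm_low h.ha
  have h3 : low a \ A ∈ Lev a :=
    lev_of_sub h.ha (fun _ hz => (ZFSet.mem_sdiff.1 hz).1) inferInstance
  have h4 := h.he.tf3 h.hat (fun D A B => ∀ x, x ∈ D → x ∈ A ∨ x ∈ B) (low_lev h.ha) hA h3
    fun x hx => by rw [ZFSet.mem_sdiff]; tauto
  rw [h.he.low h.ht h.hat] at h4
  filter_upwards [h.k1 hy h3 (by
    filter_upwards [h1, h2] with H e1 e2 using (h4 _ e1).resolve_left e2)] with H e using
    (ZFSet.mem_sdiff.1 e).2

theorem dec (hp : Le E t n p) (Φ : ZFSet.{u} → Prop) [hΦ : Df Set.univ On fun v => Φ (v 0)] :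
    (∀ᶠ H in E, Φ (p H)) ∨ ∀ᶠ H in E, ¬ Φ (p H) := by
  induction n generalizing p Φ with
  | zero =>
    obtain ⟨c, -, h1⟩ := hp.zero
    by_cases e : Φ c
    · exact Or.inl (h1.mono fun _ h2 => h2 ▸ e)
    · exact Or.inr (h1.mono fun _ h2 => h2 ▸ e)
  | succ n ih =>
    obtain ⟨f, y, h1, h2, h3, h4⟩ := hp.form
    have := tm_low h.ha
    have h5 := lev_of_sub h.ha (A := (low a).sep fun l => Φ (f l)) sep_subset
      (Tm.sep _ _ (h := Df.one Φ fun v => f (v 0)))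
    have := h.tms h5
    refine (ih h2 fun z => z ∈ s ((low a).sep fun l => Φ (f l))).imp (fun e => ?_) fun e => ?_
    · filter_upwards [h4, h.k1 h2 h5 e] with H e1 e2 using e1 ▸ (mem_sep.1 e2).2
    · filter_upwards [h4, h.k5 h2 h3 h5 e, h.k0 h2 h3] with H e1 e2 e3 e4 using
        e2 (mem_sep.2 ⟨e3, e1 ▸ e4⟩)

theorem k4 (hy : Le E t n y) (h1 : ∀ᶠ H in E, y H ∈ low t) (hA : A ∈ Lev a)
    (h2 : ∀ᶠ H in E, H n (y H) ∈ A) : ∀ᶠ H in E, y H ∈ s A := by
  have := h.tms hA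
  have := h.ne
  refine (h.dec hy fun z => z ∈ s A).resolve_right fun e => ?_
  obtain ⟨H, e1, e2⟩ := (h2.and (h.k5 hy h1 hA e)).exists
  exact e2 e1

theorem v1 (hq : Le E t (n + 1) q) (h0 : ∀ᶠ H in E, q H ∈ low a) :
    ∃ z, Le E t n z ∧ (∀ᶠ H in E, z H ∈ low t) ∧ ∀ᶠ H in E, q H = H n (z H) := by
  obtain ⟨g, y, h1, h2, h3, h4⟩ := hq.form
  have := tm_low h.ha
  have := Tm.one (C := Set.univ) (A := On) g
  have h5 := lev_of_sub h.ha (A := (low a).sep fun l => g l ∈ low a) sep_subset inferInstance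
  have h6 := lev_of_sub h.ha (A := gr g ((low a).sep fun l => g l ∈ low a)) (fun z hz => by
    obtain ⟨l, hl, rfl⟩ := mem_img.1 hz
    exact low_pair h.ha h.la (mem_sep.1 hl).1 (mem_sep.1 hl).2) inferInstance
  have := h.tms h6
  have h7 := h.he.tf3 h.hat (fun A f _ => ∀ l, l ∈ A → ∃ w, ZFSet.pair l w ∈ f) h5 h6 h6
    fun l hl => ⟨_, pair_mem_gr.2 ⟨hl, rfl⟩⟩
  have h8 := h.he.tf3 h.hat (fun f _ _ => ∀ l w, ZFSet.pair l w ∈ f →
    ∀ v, ZFSet.pair l v ∈ f → v = w) h6 h6 h6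
    fun l w e1 v e2 => (pair_mem_gr.1 e2).2.symm.trans (pair_mem_gr.1 e1).2
  have h9 : ∀ᶠ H in E, ZFSet.pair (y H) (app (s (gr g ((low a).sep fun l => g l ∈ low a))) (y H)) ∈
      s (gr g ((low a).sep fun l => g l ∈ low a)) := by
    filter_upwards [h.k4 h2 h3 h5 (by
      filter_upwards [h0, h4, h.k0 h2 h3] with H e1 e2 e3 using mem_sep.2 ⟨e3, e2 ▸ e1⟩)] with H e
    obtain ⟨v, hv⟩ := h7 _ e
    rwa [app_eq hv (h8 _ _ hv)]
  have h10 := h2.comp (app (s (gr g ((low a).sep fun l => g l ∈ low a))))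
  have h11 := h9.mono fun H e => snd_in (fun _ e1 _ e2 => low_tr h.ht e2 e1)
    (sub_low h.ht (h.he.1 _ h6) e)
  refine ⟨_, h10, h11, ?_⟩
  filter_upwards [h4, h.k1 (h.pair h2 h10) h6 h9, h.k2 h2 h10 h3 h11] with H e1 e2 e3 using
    e1.trans (pair_mem_gr.1 (e3 ▸ e2)).2

theorem v2 (hz : Le E t n z) (hx : Le E t n x) (h1 : ∀ᶠ H in E, z H ∈ low t)
    (h2 : ∀ᶠ H in E, x H ∈ low t) :
    (∀ᶠ H in E, H n (z H) ∈ H n (x H)) ↔ ∀ᶠ H in E, z H ∈ x H := by
  have := tm_low h.ha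
  have h3 := lev_of_sub h.ha (A := (low a).sep fun l => fst l ∈ snd l) sep_subset inferInstance
  have h4 := h.he.tf3 h.hat (fun D A _ => ∀ v w, ZFSet.pair v w ∈ D →
    (ZFSet.pair v w ∈ A ↔ v ∈ w)) (low_lev h.ha) h3 h3
    fun v w h => by simp only [mem_sep, fst_pair, snd_pair, h, true_and]
  rw [h.he.low h.ht h.hat] at h4
  have h5 : ∀ᶠ H in E, ZFSet.pair (z H) (x H) ∈ low t := by
    filter_upwards [h1, h2] with H e1 e2 using low_pair h.ht h.lt e1 e2
  refine ⟨fun e => ?_, fun e => ?_⟩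
  · filter_upwards [h5, h.k4 (h.pair hz hx) h5 h3 (by
      filter_upwards [e, h.k2 hz hx h1 h2, h.k0 (h.pair hz hx) h5] with H e1 e2 e3 using
        mem_sep.2 ⟨e3, by rwa [e2, fst_pair, snd_pair]⟩)] with H e1 e2 using (h4 _ _ e1).1 e2
  · filter_upwards [h.k1 (h.pair hz hx) h3 (by
      filter_upwards [e, h5] with H e1 e2 using (h4 _ _ e2).2 e1), h.k2 hz hx h1 h2] with H e1 e2
    simpa only [e2, fst_pair, snd_pair] using (mem_sep.1 e1).2

theorem down (hq : Le E t m q) (hw : Le E t n w) (h1 : ∀ᶠ H in E, w H ∈ low a)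
    (h2 : ∀ᶠ H in E, q H ∈ w H) : Le E t n q := by
  induction m with
  | zero => exact h.mono_le hq (Nat.zero_le n)
  | succ m ih =>
    rcases le_or_gt (m + 1) n with e | e
    · exact h.mono_le hq e
    have h3 := h.mono_le hw (Nat.le_of_lt_succ e)
    obtain ⟨z, z1, z2, z3⟩ := h.v1 hq (by
      filter_upwards [h1, h2] with H e1 e2 using low_tr h.ha e2 e1)
    have h4 := (h.v2 z1 h3 z2 (h1.mono fun _ => h.sub)).1 (by
      filter_upwards [h2, z3, h.k3 h3 h1] with H e1 e2 e3 using by rwa [e3, ← e2])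
    refine ih (z1.congr ?_)
    filter_upwards [z3, h.k3 z1 (by
      filter_upwards [h1, h4] with H e1 e2 using low_tr h.ha e2 e1)] with H e1 e2 using
      e1.trans e2

theorem shift (hp : Le E t n p) : Le E t (n + 1) fun H => p fun i => H (i + 1) := by
  induction n generalizing p with
  | zero =>
    obtain ⟨c, h1, h2⟩ := hp.zero
    exact (h.const h1).congr (h.sh _ h2)
  | succ n ih =>
    obtain ⟨f, y, h1, h2, h3, h4⟩ := hp.form
    exact (((ih h2).step (h.sh _ h3)).comp f).congr (h.sh _ h4)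

theorem rep (n : ℕ) (Z : ZFSet.{u}) : ∃ (X : ZFSet.{u})
    (r : ZFSet.{u} → (ℕ → ZFSet.{u} → ZFSet.{u}) → ZFSet.{u}), ∀ p, Le E t n p →
      (∀ᶠ H in E, p H ∈ Z) → ∃ k ∈ X, ∀ᶠ H in E, r k H = p H := by
  have := h.ne
  induction n generalizing Z with
  | zero =>
    refine ⟨Z, fun k _ => k, fun p hp h1 => ?_⟩
    obtain ⟨c, -, h2⟩ := hp.zero
    obtain ⟨H, e1, e2⟩ := (h1.and h2).exists
    exact ⟨c, e2 ▸ e1, h2.mono fun _ e => e.symm⟩
  | succ n ih =>
    obtain ⟨X, r, hr⟩ := ih (low t)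
    refine ⟨prod X (powerset (prod (low a) Z)), fun k H => app (snd k) (H n (r (fst k) H)),
      fun p hp h1 => ?_⟩
    obtain ⟨f, y, -, h2, h3, h4⟩ := hp.form
    obtain ⟨k, k1, k2⟩ := hr y h2 h3
    refine ⟨ZFSet.pair k (gr f ((low a).sep fun l => f l ∈ Z)),
      pair_mem_prod.2 ⟨k1, mem_powerset.2 fun z hz => ?_⟩, ?_⟩
    · obtain ⟨l, hl, rfl⟩ := mem_img.1 hz
      exact pair_mem_prod.2 (mem_sep.1 hl)
    · filter_upwards [h1, h4, k2, h.k0 h2 h3] with H e1 e2 e3 e4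
      rw [fst_pair, snd_pair, e3, app_gr (mem_sep.2 ⟨e4, e2 ▸ e1⟩), e2]

theorem merge (N : ℕ) (p : ℕ → (ℕ → ZFSet.{u} → ZFSet.{u}) → ZFSet.{u})
    (hp : ∀ i, ∃ n, Le E t n (p i)) :
    ∃ m l, Le E t m l ∧ ∀ᶠ H in E, ∀ i < N, p i H = asg (l H) i := by
  induction N generalizing p with
  | zero =>
    obtain ⟨n, h1⟩ := hp 0
    exact ⟨n, _, h1, .of_forall fun _ _ e => absurd e (Nat.not_lt_zero _)⟩
  | succ N ih =>
    obtain ⟨m, l, h1, h2⟩ := ih (fun i => p (i + 1)) fun _ => hp _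
    obtain ⟨n, h3⟩ := hp 0
    refine ⟨max n m, _, h.pair (h.mono_le h3 (le_max_left _ _)) (h.mono_le h1 (le_max_right _ _)),
      h2.mono fun H e i hi => ?_⟩
    rw [asg_pair]
    cases i with
    | zero => rfl
    | succ i => exact e i (Nat.lt_of_succ_lt_succ hi)

end St

end Pool.Agent.MP_ecfd11_lc.H3U
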