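import Pool.Agent.MP_ecfd11_lc.H3U.SGap
import Pool.Agent.MP_ecfd11_lc.H3U.SDefs

/-!
Elementary embeddings between levels of HOD.
-/

set_option synthInstance.maxSize 4000

namespace Pool.Agent.MP_ecfd11_lc.H3U

open Pool.Agent.MP_ecfd11_lc.H20 Pool.Agent.MP_ecfd11_lc.H13X

universe u

open ZFSet Cardinal Function Filter

variable {S t d : ZFSet.{u}}

theorem mem_Lev {a x : ZFSet.{u}} (ha : a.IsOrdinal) :
    x ∈ Lev a ↔ x ⊆ vC Set.univ a ∧ HOD Set.univ x := by
  rw [Lev, mem_sep, mem_vonNeumann, vC_ord ha, subset_vonNeumann, Order.lt_add_one_iff]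

theorem inter_Lev (ht : t.IsOrdinal) {A L : ZFSet.{u}} (hA : A ∈ Lev t) (hL : L.IsOrdinal) :
    A ∩ vC Set.univ L ∈ Lev L := by
  have h := ((mem_Lev ht).1 hA).2
  have := od_iff.1 h.self
  have : Tm Set.univ On (fun _ => L) := Tm.ofOrd hL
  exact (mem_Lev hL).2 ⟨fun z hz => (mem_inter.1 hz).2, hereditarily_iff.2
    ⟨od_iff.2 inferInstance, fun z hz => h.mem (mem_inter.1 hz).1⟩⟩

theorem trace' (hd : StronglyCompact d t) (hdt : d ∈ t) (hs : StronglyMeasurable Set.univ t)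
    (hS : Atom d t S) (B : ZFSet.{u} → ZFSet.{u})
    (b1 : ∀ x ∈ t, B x ∈ Lev t) (b2 : ∀ A ∈ Lev t, ∃ x ∈ t, B x = A) :
    ∀ᶠ L in cf S (unc_of_regular hs.1), ∀ A ∈ Lev L, ∃ x ∈ L, A = B x ∩ vC Set.univ L := by
  have ht := hs.1
  have hu := unc_of_regular ht
  have : Tm Set.univ On (fun _ => t) := Tm.ofOrd ht.1
  have hO : ∀ A, A ∈ Lev t ↔ A ⊆ vC Set.univ t ∧ HOD Set.univ A := fun A => mem_Lev ht.1
  have hO0 : OD Set.univ (Lev t) := od_iff.2 (Tm.of (fun _ => (powerset (vC Set.univ t)).sep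
    fun A => HOD Set.univ A) inferInstance fun _ _ => ZFSet.ext fun A => by
      rw [hO, mem_sep, mem_powerset])
  obtain ⟨n, hn, r, r0, r1, r2⟩ := od_rank (Lev t) fun A hA => ((hO A).1 hA).2.self
  have := Tm.one (C := Set.univ) (A := On) r
  have up : ∀ L ∈ t, ∀ A ∈ Lev L, A ∈ Lev t := fun L hL A hA =>
    (hO A).2 ⟨fun z hz => vC_mono (ht.1.mem hL) ht.1 (ht.1.subset_of_mem hL)
      (((mem_Lev (ht.1.mem hL)).1 hA).1 hz), ((mem_Lev (ht.1.mem hL)).1 hA).2⟩
  let Lt : ZFSet.{u} → ZFSet.{u} → Prop := fun x z =>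
    ∀ᶠ L in cf S hu, r (B x ∩ vC Set.univ L) ∈ r (B z ∩ vC Set.univ L)
  filter_upwards [gap' hd hdt hs hS hO0 hO hn r r1 r2 B b1 b2 fun _ _ => True,
    ev_diag ht fun z hz => by
      have := od_iff.1 ((hO _).1 (b1 z hz)).2.self
      exact gap' hd hdt hs hS hO0 hO hn r r1 r2 B b1 b2
        fun L A => r A ∈ r (B z ∩ vC Set.univ L),
    ev_diag (S := S) ht (p := fun x L => ∀ z ∈ L, Lt x z →
      r (B x ∩ vC Set.univ L) ∈ r (B z ∩ vC Set.univ L)) fun x _ => ev_diag ht fun z _ => by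
        by_cases e : Lt x z
        · filter_upwards [e] with L h1 _ using h1
        · exact Eventually.of_forall fun _ h1 => absurd h1 e,
    ev_mem hu] with L l1 l2 l3 l4 A a1
  have lo := ht.1.mem l4.2
  have a2 := ((mem_Lev lo).1 a1).1
  have a3 := up L l4.2 A a1
  obtain ⟨x, x1, -, x2⟩ := l1 A a3 a2 trivial
  obtain ⟨z, ⟨z1, z2⟩, z3⟩ := (InvImage.wf (fun x => r (B x ∩ vC Set.univ L)) mem_wf).has_min
    {x | x ∈ L ∧ r A ⊆ r (B x ∩ vC Set.univ L)} ⟨x, x1, x2⟩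
  have z4 := up L l4.2 _ (inter_Lev ht.1 (b1 z (ht.1.mem_trans z1 l4.2)) lo)
  rcases (hn.mem (r1 A a3)).eq_or_mem_of_subset (hn.mem (r1 _ z4)) z2 with h | h
  · exact ⟨z, z1, r2 A a3 _ z4 h⟩
  · obtain ⟨w, w1, w2, w3⟩ := l2 z z1 A a3 a2 h
    exact absurd (l3 w w1 z z1 w2) (z3 w ⟨w1, w3⟩)

theorem sm_of_cof (hd : Regular Set.univ d) {y : ZFSet.{u}} (h : CofOmega Set.univ y) :
    Sm d y := by
  obtain ⟨-, F, -, f1, f2⟩ := h
  refine ⟨img (app F) om, fun z hz => ?_,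
    not_le.2 ((card_img_le _ _).trans_lt (hd.card_lt hd.2.1)), fun x hx => ?_⟩
  · obtain ⟨n, hn, rfl⟩ := mem_img.1 hz
    exact f1.app_mem' hn
  · obtain ⟨n, z, h4, h5⟩ := f2 x hx
    exact ⟨z, mem_img.2 ⟨n, (pair_mem_prod.1 (f1.1 h4)).1, f1.app_eq h4⟩, h5⟩

/-- Few atoms cover almost all points of small cofinality. -/
theorem cover (hd : StronglyCompact d t) (hdt : d ∈ t) (hs : StronglyMeasurable Set.univ t)
    {p : ZFSet.{u} → Prop} (h : ∀ S, Atom d t S → ∀ᶠ L in cf S (unc_of_regular hs.1), p L) :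
    ∀ᶠ L in cf (t.sep (Sm d)) (unc_of_regular hs.1), p L := by
  have ht := hs.1
  have hu := unc_of_regular ht
  have hr := hd.refl hdt ht
  have : Tm Set.univ On (fun _ => t) := Tm.ofOrd ht.1
  have : Tm Set.univ On (fun _ => d) := Tm.ofOrd hd.1.1
  obtain ⟨A, hA⟩ : ∃ A, A = (powerset t).sep fun S => Atom d t S := ⟨_, rfl⟩
  have : Tm Set.univ On (fun _ => A) := hA ▸ inferInstance
  have a1 : ∀ S, S ∈ A ↔ Atom d t S := fun S => by
    rw [hA, mem_sep, mem_powerset]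
    exact and_iff_right_of_imp fun h y hy => (h.2.1 y hy).1
  obtain ⟨k, k0, k1, k2⟩ := od_enum (X := A) (od_iff.2 this) fun S hS => ((a1 S).1 hS).1
  have := Tm.one (C := Set.univ) (A := On) k
  have ko : ∀ S ∈ A, (k S).IsOrdinal := fun S hS => k1.mem (mem_img.2 ⟨S, hS, rfl⟩)
  obtain ⟨Z, hZ⟩ : ∃ Z, Z = A.sep fun S => ∀ S', S' ∈ A → k S' ∈ k S → Null t (S ∩ S') :=
    ⟨_, rfl⟩
  have : Tm Set.univ On (fun _ => Z) := hZ ▸ inferInstance
  have z1 : ∀ S, S ∈ Z ↔ S ∈ A ∧ ∀ S' ∈ A, k S' ∈ k S → Null t (S ∩ S') := fun S => by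
    rw [hZ, mem_sep]
  have z2 : card Z < card t := by
    obtain ⟨r, r0, r1, r2⟩ := od_enum (X := Z) (od_iff.2 this)
      fun S hS => ((a1 S).1 ((z1 S).1 hS).1).1
    obtain ⟨a, ha, h1⟩ := exists_sat hd.1 hdt hr hs
    have ao := ht.1.mem ha
    have : Tm Set.univ On (fun _ => a) := Tm.ofOrd ao
    refine (card_le_of_inj r (fun x hx => mem_img.2 ⟨x, hx, rfl⟩) r2).trans_lt
      (ht.card_lt (ht.1.mem_trans ((r1.mem_or_subset ao).resolve_right fun h2 => ?_) ha))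
    obtain ⟨F, f0, f1, f2⟩ := DInj.inv (C := Set.univ) (b := a) r r2 fun y hy => mem_img.1 (h2 hy)
    have := Tm.one (C := Set.univ) (A := On) F
    refine h1 (fun i => (F i).sep fun y => ∀ j, j ∈ a → j ≠ i → y ∉ F j) inferInstance
      (fun i hi => ?_) fun i hi j hj y y1 y2 => by_contra fun e =>
        (mem_sep.1 y2).2 i hi e (mem_sep.1 y1).1
    obtain ⟨i1, i2⟩ := (z1 _).1 (f1 i hi)
    have i3 := (a1 _).1 i1
    refine ⟨fun y hy => (i3.2.1 y (mem_sep.1 hy).1).2, (fr_iff hu).1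
      (have := neBot hu i3.2.2.1; Eventually.frequently (ev_ball ht (ht.card_lt ha)
        fun j hj => ?_))⟩
    by_cases e : j = i
    · exact Eventually.of_forall fun _ h => absurd e h
    obtain ⟨j1, j2⟩ := (z1 _).1 (f1 j hj)
    have h3 : Null t (F i ∩ F j) := by
      rcases (ko _ i1).mem_trichotomous (ko _ j1) with h | h | h
      · exact (j2 _ i1 h).mono fun x hx _ =>
          mem_inter.2 ⟨(mem_inter.1 hx).2, (mem_inter.1 hx).1⟩
      · exact absurd (f2 j hj i hi (k2 _ j1 _ i1 h.symm)) e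
      · exact i2 _ j1 h
    exact (ev_iff hu).2 (h3.mono fun x hx _ => mem_inter.2 ⟨(mem_sep.1 hx).1,
      by_contra fun h => (mem_sep.1 hx).2 fun _ => h⟩)
  have z3 : ∀ᶠ L in cf (t.sep (Sm d)) hu, L ∈ (⋃₀ Z : ZFSet.{u}) := by
    by_contra h1
    obtain ⟨S, s1, s2⟩ := exists_atom hd.1 hdt hr hs
      (S := (t.sep fun L => Sm d L).sep fun L => ¬ L ∈ (⋃₀ Z : ZFSet.{u}))
      (od_iff.2 inferInstance) (fun y hy => mem_sep.1 (mem_sep.1 hy).1) h1
    obtain ⟨R, ⟨r1, r2⟩, r3⟩ := (InvImage.wf k mem_wf).has_min {R | R ∈ A ∧ ¬ Null t (R ∩ S)}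
      ⟨S, (a1 S).2 s1, fun h =>
        s1.2.2.1 (h.mono fun x hx _ => mem_inter.2 ⟨hx, hx⟩)⟩
    have r4 : R ∈ Z := (z1 R).2 ⟨r1, fun R' h2 h3 => (hu.null_union
      ((((a1 R).1 r1).2.2.2 S s1.1).resolve_left r2)
      (by_contra fun h4 => r3 R' ⟨h2, h4⟩ h3 : Null t (R' ∩ S))).mono fun x hx _ => by
        simp only [mem_inter, mem_union, ZFSet.mem_sdiff] at hx ⊢
        tauto⟩
    obtain ⟨x, x1, -⟩ := exists_not_null r2 hu.null_empty
    exact (mem_sep.1 (s2 (mem_inter.1 x1).2)).2 (mem_sUnion.2 ⟨R, r4, (mem_inter.1 x1).1⟩)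
  filter_upwards [z3, ev_ball (S := t.sep (Sm d)) ht z2
    (p := fun S L => L ∈ S → p L) fun S hS => (ev_iff hu).2 (Null.mono ((ev_iff hu).1
      (h S ((a1 S).1 ((z1 S).1 hS).1))) fun x hx _ =>
        mem_sep.2 (Classical.not_imp.1 (mem_sep.1 hx).2))] with L l1 l2
  obtain ⟨S, h1, h2⟩ := mem_sUnion.1 l1
  exact l2 S h1 h2

theorem ev_diag_fin (ht : Regular Set.univ t) (n : ℕ)
    (p : (ℕ → ZFSet.{u}) → ZFSet.{u} → Prop)
    (h1 : ∀ v w L, (∀ i < n, v i = w i) → p v L → p w L)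
    (h2 : ∀ v, (∀ i, v i ∈ t) → ∀ᶠ L in cf S (unc_of_regular ht), p v L) :
    ∀ᶠ L in cf S (unc_of_regular ht), ∀ v, (∀ i, v i ∈ L) → p v L := by
  induction n generalizing p with
  | zero =>
    filter_upwards [h2 (fun _ => ∅) fun _ => ht.empty_mem] with L h v _ using
      h1 _ _ L (fun i hi => absurd hi (Nat.not_lt_zero i)) h
  | succ n ih =>
    filter_upwards [ev_diag ht fun x hx => ih (fun v => p (cons x v))
      (fun v w L e => h1 _ _ L fun i hi => by
        cases i with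
        | zero => rfl
        | succ i => exact e i (Nat.lt_of_succ_lt_succ hi)) fun v hv => h2 _ fun i => by
        cases i with
        | zero => exact hx
        | succ i => exact hv i] with L h v hv
    exact h1 _ _ L (fun i _ => by cases i <;> rfl) (h _ (hv 0) (fun i => v (i + 1)) fun i => hv _)

/-- An injection of the formulas into the natural numbers. -/
def enc : Fml → ℕ
  | .mem i j => Nat.pair 0 (Nat.pair i j)
  | .eq i j => Nat.pair 1 (Nat.pair i j)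
  | .neg φ => Nat.pair 2 (enc φ)
  | .and φ ψ => Nat.pair 3 (Nat.pair (enc φ) (enc ψ))
  | .all φ => Nat.pair 4 (enc φ)

theorem enc_inj (φ ψ : Fml) (h : enc φ = enc ψ) : φ = ψ := by
  induction φ generalizing ψ with
  | mem i j => cases ψ <;> simp_all [enc]
  | eq i j => cases ψ <;> simp_all [enc]
  | neg φ ih => cases ψ <;> simp [enc] at h; rw [ih _ h]
  | and φ χ ih1 ih2 => cases ψ <;> simp [enc] at h; rw [ih1 _ h.1, ih2 _ h.2]
  | all φ ih => cases ψ <;> simp [enc] at h; rw [ih _ h]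

theorem ev_lim (hu : Unc t) (ht : Regular Set.univ t) :
    ∀ᶠ L in cf S (unc_of_regular ht), ∀ b ∈ L, ∃ c ∈ L, b ∈ c :=
  ev_diag ht fun b hb => by
    filter_upwards [ev_above hu (hu.succ_mem hb)] with L h using ⟨_, h, mem_insert _ _⟩

theorem los (ht : Regular Set.univ t)
    (B : ZFSet.{u} → ZFSet.{u}) (b1 : ∀ x ∈ t, B x ∈ Lev t) (b2 : ∀ A ∈ Lev t, ∃ x ∈ t, B x = A)
    (hT : ∀ᶠ L in cf S (unc_of_regular ht), ∀ A ∈ Lev L, ∃ x ∈ L, A = B x ∩ vC Set.univ L)
    (φ : Fml) (v : ℕ → ZFSet.{u}) (hv : ∀ i, v i ∈ t) : ∀ᶠ L in cf S (unc_of_regular ht),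
      (Sat (Lev L) φ (fun i => B (v i) ∩ vC Set.univ L) ↔ Sat (Lev t) φ fun i => B (v i)) := by
  have hu := unc_of_regular ht
  have lev : ∀ z ∈ vC Set.univ t, ∀ᶠ L in cf S hu, z ∈ vC Set.univ L := fun z hz => by
    obtain ⟨a, a1, a2⟩ := exists_level ht.1 (fun b hb => hu.succ hb) ((mem_vC_ord ht.1).1 hz)
    filter_upwards [ev_above hu a1, ev_mem hu] with L l1 l2 using
      (mem_vC_ord (ht.1.mem l2.2)).2 (a2.trans (rank_lt_of_mem l1))
  have sub : ∀ x ∈ t, B x ⊆ vC Set.univ t := fun x hx => ((mem_Lev ht.1).1 (b1 x hx)).1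
  induction φ generalizing v with
  | mem i j =>
    simp only [Sat]
    by_cases h : B (v i) ∈ vC Set.univ t
    · filter_upwards [lev _ h, ev_mem hu] with L l1 l2
      have e : B (v i) ∩ vC Set.univ L = B (v i) := ZFSet.ext fun z => mem_inter.trans
        (and_iff_left_of_imp fun hz => (mem_vC_ord (ht.1.mem l2.2)).2
          ((rank_lt_of_mem hz).trans ((mem_vC_ord (ht.1.mem l2.2)).1 l1)))
      rw [e, mem_inter, and_iff_left l1]
    · have h1 : ∀ a ∈ t, ∃ z ∈ B (v i), rank a ≤ rank z := fun a ha => by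
        by_contra h1
        push Not at h1
        exact h ((mem_vC_ord ht.1).2 ((rank_le_iff.2 h1).trans_lt (rank_lt_of_mem ha)))
      filter_upwards [ev_diag (S := S) ht (p := fun a L => ∃ z ∈ B (v i), rank a ≤ rank z ∧
        z ∈ vC Set.univ L) fun a ha => by
          obtain ⟨z, z1, z2⟩ := h1 a ha
          filter_upwards [lev z (sub _ (hv i) z1)] with L l1 using ⟨z, z1, z2, l1⟩,
        ev_mem hu, ev_lim hu ht] with L l1 l2 l0
      refine iff_of_false (fun h2 => ?_) fun h2 => h (sub _ (hv j) h2)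
      have l3 := ht.1.mem l2.2
      obtain ⟨a, a1, a2⟩ := exists_level l3 l0
        ((mem_vC_ord l3).1 (mem_inter.1 h2).2)
      obtain ⟨z, z1, z2, z3⟩ := l1 a a1
      exact ((rank_lt_of_mem (mem_inter.2 ⟨z1, z3⟩)).trans a2).not_ge z2
  | eq i j =>
    simp only [Sat]
    by_cases h : B (v i) = B (v j)
    · exact Eventually.of_forall fun L => iff_of_true (by rw [h]) h
    · obtain ⟨z, hz⟩ := not_forall.1 fun h' => h (ZFSet.ext h')
      have h1 : z ∈ vC Set.univ t := by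
        by_cases h1 : z ∈ B (v i)
        exacts [sub _ (hv i) h1, sub _ (hv j) (by tauto)]
      filter_upwards [lev z h1] with L l1
      refine iff_of_false (fun h2 => hz ?_) h
      simpa only [mem_inter, l1, and_true] using ZFSet.ext_iff.1 h2 z
  | neg φ ih => filter_upwards [ih v hv] with L h using not_congr h
  | and φ ψ ih1 ih2 => filter_upwards [ih1 v hv, ih2 v hv] with L h1 h2 using and_congr h1 h2
  | all φ ih =>
    have h1 : ∀ x ∈ t, ∀ᶠ L in cf S hu,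
        (Sat (Lev L) φ (cons (B x ∩ vC Set.univ L) fun i => B (v i) ∩ vC Set.univ L) ↔
          Sat (Lev t) φ (cons (B x) fun i => B (v i))) := fun x hx => by
      filter_upwards [ih (cons x v) fun i => by
        cases i with
        | zero => exact hx
        | succ i => exact hv i] with L h
      have e1 : (fun i => B (cons x v i) ∩ vC Set.univ L) =
          cons (B x ∩ vC Set.univ L) fun i => B (v i) ∩ vC Set.univ L :=
        funext fun i => by cases i <;> rfl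
      have e2 : (fun i => B (cons x v i)) = cons (B x) fun i => B (v i) :=
        funext fun i => by cases i <;> rfl
      rwa [e1, e2] at h
    by_cases h : Sat (Lev t) (.all φ) fun i => B (v i)
    · filter_upwards [ev_diag ht h1, hT, ev_mem hu] with L l1 l2 l3
      refine iff_of_true (fun A hA => ?_) h
      obtain ⟨x, hx, rfl⟩ := l2 A hA
      exact (l1 x hx).2 (h _ (b1 x (ht.1.mem_trans hx l3.2)))
    · have h2 := h
      simp only [Sat, not_forall] at h2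
      obtain ⟨A, hA, h2⟩ := h2
      obtain ⟨x, hx, rfl⟩ := b2 A hA
      filter_upwards [h1 x hx, ev_mem hu] with L l1 l2
      exact iff_of_false (fun h3 => h2 (l1.1 (h3 _ (inter_Lev ht.1 hA (ht.1.mem l2.2))))) h

end Pool.Agent.MP_ecfd11_lc.H3U
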