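import Pool.Agent.MP_ecfd11_lc.H3U.SIter

/-!
The omega-th iterate of HOD by a countably complete extender, and its self-embedding.
-/

set_option synthInstance.maxSize 4000

namespace Pool.Agent.MP_ecfd11_lc.H3U

open Pool.Agent.MP_ecfd11_lc.H20 Pool.Agent.MP_ecfd11_lc.H13X

universe u

open ZFSet Cardinal Function Filter

variable {a t : ZFSet.{u}} {s : ZFSet.{u} → ZFSet.{u}} {E : Filter (ℕ → ZFSet.{u} → ZFSet.{u})}

theorem St.collapse (h : St a t s E) {G : Set ((ℕ → ZFSet.{u} → ZFSet.{u}) → ZFSet.{u})}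
    (hG : ∀ p, p ∈ G ↔ (∃ n, Le E t n p) ∧ ∀ᶠ H in E, HOD Set.univ (p H)) :
    (∀ (φ : Fml) (p : ℕ → (ℕ → ZFSet.{u} → ZFSet.{u}) → ZFSet.{u}), (∀ n, p n ∈ G) →
      (∀ᶠ H in E, Sat {x | HOD Set.univ x} φ fun n => p n H) ∨
        ∀ᶠ H in E, ¬ Sat {x | HOD Set.univ x} φ fun n => p n H) ∧
    ∃ c : ((ℕ → ZFSet.{u} → ZFSet.{u}) → ZFSet.{u}) → ZFSet.{u},
      (∀ p ∈ G, ∀ z, z ∈ c p ↔ ∃ q ∈ G, (∀ᶠ H in E, q H ∈ p H) ∧ c q = z) ∧
      ∀ (φ : Fml) (p : ℕ → (ℕ → ZFSet.{u} → ZFSet.{u}) → ZFSet.{u}), (∀ n, p n ∈ G) →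
        (Sat (c '' G) φ (fun n => c (p n)) ↔
          ∀ᶠ H in E, Sat {x | HOD Set.univ x} φ fun n => p n H) := by
  classical
  have := h.ne
  have := h.ci
  have dec : ∀ (φ : Fml) (p : ℕ → (ℕ → ZFSet.{u} → ZFSet.{u}) → ZFSet.{u}), (∀ n, p n ∈ G) →
      (∀ᶠ H in E, Sat {x | HOD Set.univ x} φ fun n => p n H) ∨
        ∀ᶠ H in E, ¬ Sat {x | HOD Set.univ x} φ fun n => p n H := fun φ p hp => by
    obtain ⟨m, l, h1, h2⟩ := h.merge (fv φ) p fun i => ((hG _).1 (hp i)).1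
    refine (h.dec h1 (fun z => Sat {x | HOD Set.univ x} φ fun n => asg z n)
      (hΦ := Df.sat φ (fun _ => {x | HOD Set.univ x}) (Df.hod fun v => v 0)
        (fun _ _ => Set.subset_univ _) (fun n v => asg (v 0) n) tm_asg)).imp (fun e => ?_)
      fun e => ?_
    · filter_upwards [h2, e] with H e1 e2 using (sat_congr φ e1).2 e2
    · filter_upwards [h2, e] with H e1 e2 e3 using e2 ((sat_congr φ e1).1 e3)
  refine ⟨dec, ultrapower E (H := {x | HOD Set.univ x}) (fun x hx y hy => hx.mem hy) G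
    (fun p hp => ((hG p).1 hp).2) dec (fun φ p hp => ?_) fun p hp => ?_⟩
  · obtain ⟨m, l, h1, h2⟩ := h.merge (fv φ) p fun i => ((hG _).1 (hp i)).1
    obtain ⟨f, y, h3, h4, h5, h6⟩ := (h.mono h1).form
    obtain ⟨Q, hQ⟩ : ∃ Q : ZFSet.{u} → ZFSet.{u} → Prop,
      Q = fun z w => Sat {x | HOD Set.univ x} φ (cons z fun n => asg (f w) n) := ⟨_, rfl⟩
    have : Df Set.univ On fun v => Q (v 0) (v 1) := hQ ▸ df_sat φ (fun n w => asg (f w) n)
      fun n => have := tm_asg.{u} n; Tm.one (fun l => asg l n) fun v => f (v 0)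
    have := Df.two (C := Set.univ) (A := On) Q
    obtain ⟨k, k1, k2⟩ := od_choice (C := Set.univ) (low a)
      (fun y z => HOD Set.univ z ∧ (Q z y → ∀ w, HOD Set.univ w → Q w y)) fun y _ => by
        by_cases e : ∀ w, HOD Set.univ w → Q w y
        · exact ⟨∅, (hod_ord isOrdinal_empty).self, hod_ord isOrdinal_empty, fun _ => e⟩
        · obtain ⟨w, e⟩ := not_forall.1 e
          obtain ⟨e1, e2⟩ := Classical.not_imp.1 e
          exact ⟨w, e1.self, e1, fun e3 => absurd e3 e2⟩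
    refine ⟨fun H => k (H m (y H)), (hG _).2 ⟨⟨_, (h4.step h5).comp k⟩,
      (h.k0 h4 h5).mono fun H e => (k2 _ e trivial).1⟩, ?_⟩
    filter_upwards [h2, h6, h.k0 h4 h5] with H e1 e2 e3 e4 z hz
    have e5 : ∀ z, Q z (H m (y H)) ↔ Sat {x | HOD Set.univ x} φ (cons z fun n => p n H) :=
      fun z => by
        rw [e2] at e1
        rw [hQ]
        refine sat_congr φ fun i hi => ?_
        cases i with
        | zero => rfl
        | succ i => exact (e1 i (Nat.lt_of_succ_lt hi)).symm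
    exact (e5 z).1 ((k2 _ e3 trivial).2 ((e5 _).2 e4) z hz)
  · obtain ⟨⟨n, h1⟩, -⟩ := (hG p).1 hp
    obtain ⟨f, y, -, h2, h3, h4⟩ := (h.mono h1).form
    choose X r hr using fun n => h.rep n (⋃₀ img f (low a))
    refine ⟨prod om (⋃₀ range X), fun k => r (invFun nat (fst k)) (snd k), fun q hq h5 => ?_⟩
    obtain ⟨⟨m, h6⟩, h7⟩ := (hG q).1 hq
    obtain ⟨k, k1, k2⟩ := hr m q h6 (by
      filter_upwards [h4, h5, h.k0 h2 h3] with H e1 e2 e3 using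
        mem_sUnion.2 ⟨_, mem_img.2 ⟨_, e3, rfl⟩, e1 ▸ e2⟩)
    refine ⟨ZFSet.pair (nat m) k, pair_mem_prod.2 ⟨Ordinal.toZFSet_mem_toZFSet_iff.2
      (Ordinal.natCast_lt_omega0 m), mem_sUnion.2 ⟨_, mem_range.2 ⟨m, rfl⟩, k1⟩⟩, ?_⟩
    beta_reduce
    rw [fst_pair, snd_pair, leftInverse_invFun (fun _ _ => nat_inj.1) m]
    exact ⟨(hG _).2 ⟨⟨m, h6.congr k2⟩, by
      filter_upwards [k2, h7] with H e1 e2 using e1 ▸ e2⟩, k2⟩

theorem St.exists_self (h : St a t s E) :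
    ∃ (W : Set ZFSet.{u}) (i j : ZFSet.{u} → ZFSet.{u}), (∀ x ∈ W, ∀ y ∈ x, y ∈ W) ∧
      (∀ x, HOD Set.univ x → i x ∈ W) ∧
      (∀ (φ : Fml) (v : ℕ → ZFSet.{u}), (∀ n, HOD Set.univ (v n)) →
        (Sat {x | HOD Set.univ x} φ v ↔ Sat W φ fun n => i (v n))) ∧
      (∀ x ∈ W, j x ∈ W) ∧
      (∀ (φ : Fml) (v : ℕ → ZFSet.{u}), (∀ n, v n ∈ W) →
        (Sat W φ v ↔ Sat W φ fun n => j (v n))) ∧
      (∀ x ∈ Lev a, j x = s x) ∧ (∀ x ∈ vonNeumann t.rank, HOD Set.univ x → x ∈ W) ∧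
      ∀ x ∈ vonNeumann (t.rank + 1), x ∈ W → HOD Set.univ x := by
  classical
  have := h.ne
  have ha := h.ha
  have ht := h.ht
  obtain ⟨G, hG⟩ : ∃ G : Set ((ℕ → ZFSet.{u} → ZFSet.{u}) → ZFSet.{u}),
    ∀ p, p ∈ G ↔ (∃ n, Le E t n p) ∧ ∀ᶠ H in E, HOD Set.univ (p H) := ⟨_, fun _ => Iff.rfl⟩
  obtain ⟨dec, c, c1, c2⟩ := h.collapse hG
  have c3 : ∀ p ∈ G, ∀ q ∈ G, c p = c q ↔ ∀ᶠ H in E, p H = q H := fun p hp q hq =>
    c2 (.eq 0 1) (fun n => if n = 0 then p else q) fun n => by split_ifs; exacts [hp, hq]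
  have c4 : ∀ p ∈ G, ∀ q ∈ G, c p ∈ c q ↔ ∀ᶠ H in E, p H ∈ q H := fun p hp q hq =>
    c2 (.mem 0 1) (fun n => if n = 0 then p else q) fun n => by split_ifs; exacts [hp, hq]
  have c5 : ∀ p ∈ G, ∀ q ∈ G, c p ⊆ c q → ∀ᶠ H in E, p H ⊆ q H := fun p hp q hq h1 => by
    filter_upwards [(c2 (.all (.neg (.and (.mem 0 1) (.neg (.mem 0 2)))))
      (fun n => if n = 0 then p else q) fun n => by split_ifs; exacts [hp, hq]).1
        fun y _ e => e.2 (h1 e.1), ((hG p).1 hp).2] with H h3 h4 y hy using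
      not_not.1 fun h5 => h3 y (h4.mem hy) ⟨hy, h5⟩
  have l0 : ∀ n, ∀ x ∈ low t, Le E t n fun _ => x := fun n x hx =>
    h.const ((mem_low ht).1 hx).2.self
  have l1 : ∀ n, ∀ x ∈ low t, Le E t (n + 1) fun H => H n x := fun n x hx =>
    (l0 n x hx).step (.of_forall fun _ => hx)
  have l2 : ∀ n, ∀ x ∈ low t, ∀ᶠ H in E, H n x ∈ low a := fun n x hx =>
    h.k0 (l0 n x hx) (.of_forall fun _ => hx)
  have g3 : ∀ n, ∀ x ∈ low t, (fun H : ℕ → ZFSet.{u} → ZFSet.{u} => H n x) ∈ G := fun n x hx =>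
    (hG _).2 ⟨⟨_, l1 n x hx⟩, (l2 n x hx).mono fun _ e => ((mem_low ha).1 e).2⟩
  have g4 : ∀ x, HOD Set.univ x → (fun _ : ℕ → ZFSet.{u} → ZFSet.{u} => x) ∈ G := fun x hx =>
    (hG _).2 ⟨⟨0, h.const hx.self⟩, .of_forall fun _ => hx⟩
  have g5 : ∀ p ∈ G, (fun H : ℕ → ZFSet.{u} → ZFSet.{u} => p fun i => H (i + 1)) ∈ G :=
    fun p hp => by
      obtain ⟨⟨n, h1⟩, h2⟩ := (hG p).1 hp
      exact (hG _).2 ⟨⟨_, h.shift h1⟩, h.sh _ h2⟩
  have b1 : ∀ q, Le E t 1 q → (∀ᶠ H in E, q H ∈ low a) → ∃ z ∈ low t, ∀ᶠ H in E, q H = H 0 z :=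
    fun q h1 h2 => by
      obtain ⟨z, z1, z2, z3⟩ := h.v1 h1 h2
      obtain ⟨e, -, e1⟩ := z1.zero
      obtain ⟨H, e2, e3⟩ := (z2.and e1).exists
      exact ⟨e, e3 ▸ e2, by filter_upwards [z3, e1] with H e4 e5 using e5 ▸ e4⟩
  have b2 : ∀ x ∈ low t, ∀ z ∈ low t, (∀ᶠ H in E, H 0 z ∈ H 0 x) ↔ z ∈ x := fun x hx z hz =>
    (h.v2 (l0 0 z hz) (l0 0 x hx) (.of_forall fun _ => hz) (.of_forall fun _ => hx)).trans
      eventually_const
  have b3 : ∀ A ∈ Lev a, ∀ z ∈ low t, (∀ᶠ H in E, H 0 z ∈ A) ↔ z ∈ s A := fun A hA z hz =>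
    ⟨fun e => (h.k4 (l0 0 z hz) (.of_forall fun _ => hz) hA e).exists.elim fun _ e => e,
      fun e => h.k1 (l0 0 z hz) hA (.of_forall fun _ => e)⟩
  have b4 : ∀ z ∈ low t, ∀ w, Le E t 1 w → (∀ᶠ H in E, w H ∈ low t) →
      ((∀ᶠ H in E, H 0 z ∈ H 1 (w H)) ↔ ∀ᶠ H in E, H 0 z ∈ w H) := fun z hz w h1 h2 => by
    rw [← h.v2 (l1 0 z hz) h1 ((l2 0 z hz).mono fun _ => h.sub) h2]
    exact eventually_congr ((h.k3 (l1 0 z hz) (l2 0 z hz)).mono fun H e => by rw [e])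
  have p1 : ∀ x, x ∈ low t → c (fun H => H 0 x) = x := fun x => by
    induction x using ZFSet.inductionOn with
    | _ x ih =>
      intro hx
      ext z
      rw [c1 _ (g3 0 x hx)]
      constructor
      · rintro ⟨q, q1, q2, rfl⟩
        obtain ⟨⟨m, q3⟩, -⟩ := (hG q).1 q1
        obtain ⟨w, w1, w2⟩ := b1 q (h.down q3 (l1 0 x hx) (l2 0 x hx) q2) (by
          filter_upwards [q2, l2 0 x hx] with H e1 e2 using low_tr ha e1 e2)
        have h1 : w ∈ x := (b2 x hx w w1).1 (by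
          filter_upwards [q2, w2] with H e1 e2 using e2 ▸ e1)
        rwa [(c3 q q1 _ (g3 0 w w1)).2 w2, ih w h1 w1]
      · exact fun e => ⟨_, g3 0 z (low_tr ht e hx), (b2 x hx z (low_tr ht e hx)).2 e,
          ih z e (low_tr ht e hx)⟩
  have p2 : ∀ A ∈ Lev a, c (fun H => H 1 A) = s A := fun A hA => by
    have h0 := h.lev hA
    ext z
    rw [c1 _ (g3 1 A h0)]
    constructor
    · rintro ⟨q, q1, q2, rfl⟩
      obtain ⟨⟨m, q3⟩, -⟩ := (hG q).1 q1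
      obtain ⟨w, w1, w2, w3⟩ := h.v1 (h.down q3 (l1 1 A h0) (l2 1 A h0) q2) (by
        filter_upwards [q2, l2 1 A h0] with H e1 e2 using low_tr ha e1 e2)
      have h1 := (h.v2 w1 (l0 1 A h0) w2 (.of_forall fun _ => h0)).1 (by
        filter_upwards [q2, w3] with H e1 e2 using e2 ▸ e1)
      have h2 := h1.mono fun _ e => sub_low ha hA e
      obtain ⟨v, v1, v2⟩ := b1 w w1 h2
      rw [(c3 q q1 _ (g3 0 v v1)).2 (by
        filter_upwards [w3, h.k3 w1 h2, v2] with H e1 e2 e3 using e1.trans (e2.trans e3)),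
        p1 v v1]
      exact (b3 A hA v v1).1 (by filter_upwards [h1, v2] with H e1 e2 using e2 ▸ e1)
    · intro e
      have h1 := sub_low ht (h.he.1 _ hA) e
      exact ⟨_, g3 0 z h1, (b4 z h1 _ (l0 1 A h0) (.of_forall fun _ => h0)).2
        ((b3 A hA z h1).2 e), p1 z h1⟩
  have p3 : ∀ x ∈ c '' G, ∀ y ∈ x, y ∈ c '' G := by
    rintro _ ⟨p, hp, rfl⟩ y hy
    obtain ⟨q, q1, -, q2⟩ := (c1 p hp y).1 hy
    exact ⟨q, q1, q2⟩
  have p4 : ∀ n, ∀ q ∈ G, ∀ x ∈ low t, c q ⊆ c (fun H => H n x) →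
      Le E t (n + 1) q ∧ ∀ᶠ H in E, q H ∈ low a := fun n q hq x hx h1 => by
    obtain ⟨⟨m, q1⟩, q2⟩ := (hG q).1 hq
    have h2 : ∀ᶠ H in E, (powerset (H n x)).sep (HOD Set.univ) ∈ low a := by
      filter_upwards [l2 n x hx] with H e
      obtain ⟨e1, e2⟩ := (mem_low ha).1 e
      obtain ⟨b, e3, e4⟩ := exists_level ha h.la e1
      have := od_iff.1 e2.self
      exact (mem_low ha).2 ⟨(rank_le_iff.2 fun y hy => (rank_mono (mem_powerset.1
        (mem_sep.1 hy).1)).trans_lt e4).trans_lt (rank_lt_of_mem e3),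
        hereditarily_iff.2 ⟨od_iff.2 inferInstance, fun _ hy => (mem_sep.1 hy).2⟩⟩
    have h3 : ∀ᶠ H in E, q H ∈ (powerset (H n x)).sep (HOD Set.univ) := by
      filter_upwards [c5 q hq _ (g3 n x hx) h1, q2] with H e1 e2 using
        mem_sep.2 ⟨mem_powerset.2 e1, e2⟩
    exact ⟨h.down q1 ((l1 n x hx).comp fun v => (powerset v).sep (HOD Set.univ)) h2 h3, by
      filter_upwards [h2, h3] with H e1 e2 using low_tr ha e2 e1⟩
  have p5 : ∀ x, rank x < rank t → x ∈ c '' G → x ∈ low t := fun x => by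
    induction x using ZFSet.inductionOn with
    | _ x ih =>
      rintro hx ⟨q, hq, rfl⟩
      have h1 := isOrdinal_toZFSet (rank (c q))
      have h2 : low (rank (c q)).toZFSet ∈ low t := (mem_low ht).2
        ⟨(rank_le_iff.2 fun y hy => by simpa using ((mem_low h1).1 hy).1).trans_lt hx,
          ((mem_Lev h1).1 (low_lev h1)).2⟩
      obtain ⟨h3, h4⟩ := p4 0 q hq _ h2 fun y hy => by
        rw [p1 _ h2]
        exact (mem_low h1).2 ⟨by simpa using rank_lt_of_mem hy, ((mem_low ht).1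
          (ih y hy ((rank_lt_of_mem hy).trans hx) (p3 _ ⟨q, hq, rfl⟩ y hy))).2⟩
      obtain ⟨w, w1, w2⟩ := b1 q h3 h4
      rwa [(c3 q hq _ (g3 0 w w1)).2 w2, p1 w w1]
  obtain ⟨j, hj⟩ : ∃ j : ZFSet.{u} → ZFSet.{u}, ∀ p ∈ G,
      j (c p) = c fun H => p fun i => H (i + 1) := by
    refine ⟨fun z => if e : z ∈ c '' G then c fun H => e.choose fun i => H (i + 1) else z,
      fun p hp => ?_⟩
    have e : c p ∈ c '' G := ⟨p, hp, rfl⟩
    simp only [e, dif_pos]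
    exact (c3 _ (g5 _ e.choose_spec.1) _ (g5 p hp)).2
      (h.sh _ ((c3 _ e.choose_spec.1 p hp).1 e.choose_spec.2))
  refine ⟨c '' G, fun x => c fun _ => x, j, p3, fun x hx => ⟨_, g4 x hx, rfl⟩, fun φ v hv => ?_,
    ?_, fun φ v hv => ?_, fun A hA => ?_, fun x hx e => ?_, ?_⟩
  · rw [c2 φ (fun n _ => v n) fun n => g4 _ (hv n), eventually_const]
  · rintro _ ⟨p, hp, rfl⟩
    exact ⟨_, g5 p hp, (hj p hp).symm⟩
  · choose p h1 h2 using hv
    obtain rfl : v = fun n => c (p n) := funext fun n => (h2 n).symm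
    simp only [hj _ (h1 _)]
    rw [c2 φ p h1, c2 φ _ fun n => g5 _ (h1 n)]
    refine ⟨h.sh _, fun e => (dec φ p h1).resolve_right fun e' => ?_⟩
    obtain ⟨H, e1, e2⟩ := (e.and (h.sh _ e')).exists
    exact e2 e1
  · rw [← p2 A hA, ← hj _ (g3 0 A (h.lev hA)), p1 A (h.lev hA)]
  · have h1 := (mem_low ht).2 ⟨mem_vonNeumann.1 hx, e⟩
    exact ⟨_, g3 0 x h1, p1 x h1⟩
  · rintro _ hx ⟨q, hq, rfl⟩
    have h1 : c q ⊆ low t := fun y hy => p5 y ((rank_lt_of_mem hy).trans_le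
      (Order.lt_add_one_iff.1 (mem_vonNeumann.1 hx))) (p3 _ ⟨q, hq, rfl⟩ y hy)
    obtain ⟨h2, h3⟩ := p4 1 q hq _ (h.lev (low_lev ha)) (by
      rwa [p2 _ (low_lev ha), h.he.low ht h.hat])
    obtain ⟨w, w1, w2, w3⟩ := h.v1 h2 h3
    obtain ⟨g, y, y1, y2, y3, y4⟩ := w1.form
    obtain ⟨e, e1, e2⟩ := y2.zero
    obtain ⟨H, e3, e4⟩ := (y3.and e2).exists
    rw [e4] at e3
    have := Tm.one (C := Set.univ) (A := On) g
    have := tm_low ha
    have h4 := lev_of_sub ha (A := (low a).sep fun l => snd l ∈ g (fst l)) sep_subset inferInstance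
    have := h.tms h4
    have := od_iff.1 e1
    have := tm_low ht
    refine ((mem_Lev ht).1 (lev_of_sub ht h1 (Tm.of (fun _ => (low t).sep fun v =>
      ZFSet.pair e v ∈ s ((low a).sep fun l => snd l ∈ g (fst l))) inferInstance
      fun _ _ => ?_))).2
    ext v
    rw [mem_sep]
    refine ⟨fun e5 => ?_, fun e5 => ⟨h1 e5, ?_⟩⟩
    all_goals
      have key : ∀ v ∈ low t, v ∈ c q ↔
          ZFSet.pair e v ∈ s ((low a).sep fun l => snd l ∈ g (fst l)) := fun v hv => by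
        rw [← b3 _ h4 _ (low_pair ht h.lt e3 hv)]
        conv_lhs => rw [← p1 v hv]
        rw [c4 _ (g3 0 v hv) q hq, eventually_congr (w3.mono fun H e => by rw [e]), b4 v hv w w1 w2]
        refine eventually_congr ?_
        filter_upwards [y4, e2, l2 0 _ (low_pair ht h.lt e3 hv), h.k2 (l0 0 e e3) (l0 0 v hv)
          (.of_forall fun _ => e3) (.of_forall fun _ => hv)] with H a1 a2 a3 a4
        rw [mem_sep, and_iff_right a3, a4, fst_pair, snd_pair, a1, a2]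
    exacts [(key v e5.1).2 e5.2, (key v (h1 e5)).1 e5]

end Pool.Agent.MP_ecfd11_lc.H3U
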