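import Pool.Agent.MP_ecfd11_lc.H3U.SClass

/-!
The iterated product of a countably complete filter, and the functions that represent the elements
of the finite iterates of an extender.
-/

set_option synthInstance.maxSize 4000

namespace Pool.Agent.MP_ecfd11_lc.H3U

open Pool.Agent.MP_ecfd11_lc.H20 Pool.Agent.MP_ecfd11_lc.H13X

universe u v

open ZFSet Cardinal Function Filter

/-- `X` contains all branches of a tree that branches according to `F`. -/
def Big {α : Type v} (F : Filter α) (X : Set (ℕ → α)) : Prop :=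
  ∃ T : ℕ → (ℕ → α) → Set α, (∀ n H, T n H ∈ F) ∧
    (∀ (n : ℕ) (H K : ℕ → α), (∀ i < n, H i = K i) → T n H = T n K) ∧
      ∀ H : ℕ → α, (∀ n, H n ∈ T n H) → H ∈ X

theorem exists_tree {α : Type v} (F : Filter α) [hF : F.NeBot] [CountableInterFilter F] :
    ∃ E : Filter (ℕ → α), E.NeBot ∧ CountableInterFilter E ∧
      (∀ (n : ℕ) (R : (ℕ → α) → α → Prop), (∀ H K, (∀ i < n, H i = K i) → R H = R K) →
        (∀ᶠ H in E, ∀ᶠ h in F, R H h) → ∀ᶠ H in E, R H (H n)) ∧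
      ∀ P : (ℕ → α) → Prop, (∀ᶠ H in E, P H) → ∀ᶠ H in E, P fun i => H (i + 1) := by
  classical
  obtain ⟨E, hc, hE⟩ : ∃ E : Filter (ℕ → α), CountableInterFilter E ∧ ∀ X, X ∈ E ↔ Big F X := by
    refine ⟨ofCountableInter {X | Big F X} (fun S hS h => ?_)
      fun X Y ⟨T, h1, h2, h3⟩ h => ⟨T, h1, h2, fun H hH => h (h3 H hH)⟩, inferInstance,
      fun _ => Iff.rfl⟩
    choose! T h1 h2 h3 using fun X (hX : X ∈ S) => (h hX : Big F X)
    refine ⟨fun n H => ⋂ X ∈ S, T X n H, fun n H => (countable_bInter_mem hS).2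
      fun X hX => h1 X hX n H, fun n H K e => ?_, fun H hH X hX =>
        h3 X hX H fun n => Set.mem_iInter₂.1 (hH n) X hX⟩
    exact Set.iInter₂_congr fun X hX => h2 X hX n H K e
  refine ⟨E, ⟨fun e => ?_⟩, hc, fun n R hR h => ?_, fun P h => ?_⟩
  · obtain ⟨T, h1, h2, h3⟩ := (hE _).1 (empty_mem_iff_bot.2 e)
    choose g hg using fun n H => hF.nonempty_of_mem (h1 n H)
    obtain ⟨x⟩ := hF.nonempty
    let K : ℕ → ℕ → α := fun n => Nat.rec (fun _ => x) (fun n H => update H n (g n H)) n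
    have h4 : ∀ n, ∀ i < n, K (i + 1) i = K n i := fun n => by
      induction n with
      | zero => exact fun _ h => absurd h (Nat.not_lt_zero _)
      | succ n ih =>
        intro i hi
        rcases Nat.lt_succ_iff_lt_or_eq.1 hi with h | rfl
        · rw [ih i h]
          exact (update_of_ne h.ne _ _).symm
        · rfl
    refine h3 (fun n => K (n + 1) n) fun n => ?_
    rw [h2 n _ (K n) (h4 n)]
    have h5 : K (n + 1) n = g n (K n) := update_self n (g n (K n)) (K n)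
    exact h5 ▸ hg n (K n)
  · have h1 : ∀ᶠ H in E, (∀ᶠ h in F, R H h) → R H (H n) := by
      refine (hE _).2 ⟨fun m H => {h | m = n → (∀ᶠ h in F, R H h) → R H h}, fun m H => ?_,
        fun m H K e => ?_, fun H hH => hH n rfl⟩
      · by_cases h1 : ∀ᶠ h in F, R H h
        · exact h1.mono fun _ h _ _ => h
        · exact Eventually.of_forall fun _ _ h => absurd h h1
      · ext h
        exact forall_congr' fun e' => by rw [hR H K (e' ▸ e)]
    filter_upwards [h, h1] with H h2 h3 using h3 h2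
  · obtain ⟨T, h1, h2, h3⟩ := (hE _).1 h
    refine (hE _).2 ⟨fun n H => Nat.casesOn n Set.univ fun m => T m fun i => H (i + 1),
      fun n H => ?_, fun n H K e => ?_, fun H hH => h3 _ fun n => hH (n + 1)⟩
    · cases n
      exacts [univ_mem, h1 _ _]
    · cases n
      exacts [rfl, h2 _ _ _ fun i hi => e _ (Nat.succ_lt_succ hi)]

/-- The functions that represent the elements of the `n`-th iterate. -/
def Lv (E : Filter (ℕ → ZFSet.{u} → ZFSet.{u})) (t : ZFSet.{u}) :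
    ℕ → ((ℕ → ZFSet.{u} → ZFSet.{u}) → ZFSet.{u}) → Prop
  | 0, p => ∃ c, OD Set.univ c ∧ p = fun _ => c
  | n + 1, p => ∃ (f : ZFSet.{u} → ZFSet.{u}) (y : (ℕ → ZFSet.{u} → ZFSet.{u}) → ZFSet.{u}),
      Tm Set.univ On (fun v => f (v 0)) ∧ Lv E t n y ∧ (∀ᶠ H in E, y H ∈ low t) ∧
        p = fun H => f (H n (y H))

/-- `Lv` up to equality almost everywhere. -/
def Le (E : Filter (ℕ → ZFSet.{u} → ZFSet.{u})) (t : ZFSet.{u}) (n : ℕ)
    (p : (ℕ → ZFSet.{u} → ZFSet.{u}) → ZFSet.{u}) : Prop :=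
  ∃ q, Lv E t n q ∧ ∀ᶠ H in E, p H = q H

variable {a t A : ZFSet.{u}} {s : ZFSet.{u} → ZFSet.{u}} {E : Filter (ℕ → ZFSet.{u} → ZFSet.{u})}
  {n : ℕ} {p q x y : (ℕ → ZFSet.{u} → ZFSet.{u}) → ZFSet.{u}}

theorem Lv.dep (h : Lv E t n p) : ∀ H K, (∀ i < n, H i = K i) → p H = p K := by
  induction n generalizing p with
  | zero =>
    obtain ⟨c, -, rfl⟩ := h
    exact fun _ _ _ => rfl
  | succ n ih =>
    obtain ⟨f, y, -, h1, -, rfl⟩ := h
    intro H K e
    simp only [e n (Nat.lt_succ_self n), ih h1 H K fun i hi => e i (Nat.lt_succ_of_lt hi)]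

theorem Lv.le (h : Lv E t n p) : Le E t n p := ⟨p, h, .of_forall fun _ => rfl⟩

theorem Le.congr (h : Le E t n p) (e : ∀ᶠ H in E, q H = p H) : Le E t n q := by
  obtain ⟨r, h1, h2⟩ := h
  exact ⟨r, h1, by filter_upwards [e, h2] with H h3 h4 using h3.trans h4⟩

theorem Lv.comp (h : Lv E t n p) (g : ZFSet.{u} → ZFSet.{u})
    [Tm Set.univ On fun v => g (v 0)] : Lv E t n fun H => g (p H) := by
  cases n with
  | zero =>
    obtain ⟨c, h1, rfl⟩ := h
    have := od_iff.1 h1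
    exact ⟨g c, od_iff.2 (Tm.one g fun _ => c), rfl⟩
  | succ n =>
    obtain ⟨f, y, h1, h2, h3, rfl⟩ := h
    exact ⟨fun z => g (f z), y, Tm.one g fun v => f (v 0), h2, h3, rfl⟩

theorem Le.comp (h : Le E t n p) (g : ZFSet.{u} → ZFSet.{u})
    [Tm Set.univ On fun v => g (v 0)] : Le E t n fun H => g (p H) := by
  obtain ⟨r, h1, h2⟩ := h
  exact ⟨_, h1.comp g, h2.mono fun _ h => congrArg g h⟩

theorem Le.step (h : Le E t n y) (h1 : ∀ᶠ H in E, y H ∈ low t) :
    Le E t (n + 1) fun H => H n (y H) := by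
  obtain ⟨r, h2, h3⟩ := h
  exact ⟨_, ⟨id, r, Tm.var 0, h2, by filter_upwards [h1, h3] with H h4 h5 using h5 ▸ h4, rfl⟩,
    h3.mono fun H h => congrArg (H n) h⟩

theorem Le.form (h : Le E t (n + 1) p) : ∃ (f : ZFSet.{u} → ZFSet.{u})
    (y : (ℕ → ZFSet.{u} → ZFSet.{u}) → ZFSet.{u}), Tm Set.univ On (fun v => f (v 0)) ∧
      Le E t n y ∧ (∀ᶠ H in E, y H ∈ low t) ∧ ∀ᶠ H in E, p H = f (H n (y H)) := by
  obtain ⟨_, ⟨f, y, h1, h2, h3, rfl⟩, h4⟩ := h
  exact ⟨f, y, h1, h2.le, h3, h4⟩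

/-- The properties of the product filter that are used. -/
structure St (a t : ZFSet.{u}) (s : ZFSet.{u} → ZFSet.{u})
    (E : Filter (ℕ → ZFSet.{u} → ZFSet.{u})) : Prop where
  he : Ext a t s
  ht : t.IsOrdinal
  hat : a ∈ t
  la : ∀ b ∈ a, ∃ c ∈ a, b ∈ c
  lt : ∀ b ∈ t, ∃ c ∈ t, b ∈ c
  ne : E.NeBot
  ci : CountableInterFilter E
  k1 : ∀ {n y A}, Le E t n y → A ∈ Lev a → (∀ᶠ H in E, y H ∈ s A) → ∀ᶠ H in E, H n (y H) ∈ A
  k2 : ∀ {n x y}, Le E t n x → Le E t n y → (∀ᶠ H in E, x H ∈ low t) → (∀ᶠ H in E, y H ∈ low t) →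
    ∀ᶠ H in E, H n (pair (x H) (y H)) = pair (H n (x H)) (H n (y H))
  k3 : ∀ {n y}, Le E t n y → (∀ᶠ H in E, y H ∈ low a) → ∀ᶠ H in E, H n (y H) = y H
  sh : ∀ P : (ℕ → ZFSet.{u} → ZFSet.{u}) → Prop,
    (∀ᶠ H in E, P H) → ∀ᶠ H in E, P fun i => H (i + 1)

theorem exists_st (he : Ext a t s) (ht : t.IsOrdinal) (hat : a ∈ t)
    (la : ∀ b ∈ a, ∃ c ∈ a, b ∈ c) (lt : ∀ b ∈ t, ∃ c ∈ t, b ∈ c) (hc : Thread a s)
    (fix : ∀ v ∈ low a, s v = v) : ∃ E, St a t s E := by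
  have ha := ht.mem hat
  obtain ⟨F, _, _, f1, f2⟩ := exists_filter he ht hat lt hc
  obtain ⟨E, e1, e2, e3, e4⟩ := exists_tree F
  refine ⟨E, he, ht, hat, la, lt, e1, e2, ?_, ?_, ?_, e4⟩
  · rintro n y A ⟨r, r1, r2⟩ hA h
    filter_upwards [r2, e3 n (fun H h => h (r H) ∈ A) (fun H K e => by rw [r1.dep H K e]) (by
      filter_upwards [h, r2] with H h1 h2 using f1 A hA _ (h2 ▸ h1))] with H h1 h2 using h1 ▸ h2
  · rintro n x y ⟨r, r1, r2⟩ ⟨w, w1, w2⟩ hx hy
    filter_upwards [r2, w2, e3 n (fun H h => h (pair (r H) (w H)) = pair (h (r H)) (h (w H)))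
      (fun H K e => by rw [r1.dep H K e, w1.dep H K e]) (by
        filter_upwards [hx, hy, r2, w2] with H h1 h2 h3 h4 using f2 _ (h3 ▸ h1) _ (h4 ▸ h2))]
      with H h1 h2 h3
    rwa [h1, h2]
  · rintro n y ⟨r, r1, r2⟩ h
    filter_upwards [r2, e3 n (fun H h => h (r H) = r H) (fun H K e => by rw [r1.dep H K e]) (by
      filter_upwards [h, r2] with H h1 h2
      rw [h2] at h1
      have h3 := low_upair ha la h1 h1
      rw [pair_eq_singleton] at h3
      have h4 := (lev_tr a).mem_trans h3 (low_lev ha)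
      filter_upwards [f1 _ h4 (r H) (by rw [fix _ h3]; exact mem_singleton.2 rfl)] with h h5 using
        mem_singleton.1 h5)] with H h1 h2
    rwa [h1]

end Pool.Agent.MP_ecfd11_lc.H3U
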